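import Pool.Agent.H13.MF.VBase

/-! Every finite-dimensional module is isomorphic to a point of a module variety. -/

universe u v w

namespace Pool.Agent.H13.MF

open Module Pool.Agent.H51.T2

section ADP

variable {K : Type v} [Field K] {A : Type u} [Ring A] [Algebra K A] {n : ℕ} {e : Fin n → A}
  {N : Type w} [AddCommGroup N] [Module A N] [Module K N] [IsScalarTower K A N]

/-- multiplication by an element of the algebra -/
private def ADP_mul (a : A) : N →ₗ[K] N := Algebra.lsmul K K N a

private theorem ADP_mul_apply (a : A) (x : N) : (ADP_mul a : N →ₗ[K] N) x = a • x := rfl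

/-- the subspace `e i N` -/
private abbrev ADP_sub (K : Type v) [Field K] {A : Type u} [Ring A] [Algebra K A] {n : ℕ}
    (e : Fin n → A) (N : Type w) [AddCommGroup N] [Module A N] [Module K N] [IsScalarTower K A N]
    (i : Fin n) : Submodule K N := LinearMap.range (ADP_mul (e i) : N →ₗ[K] N)

private theorem ADP_fix (he : CompleteOrthogonalIdempotents e) (i : Fin n) (x : ADP_sub K e N i) :
    e i • (x : N) = x := by
  obtain ⟨_, y, rfl⟩ := x
  show e i • (e i • y) = e i • y
  rw [smul_smul, (he.idem i).eq]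

private theorem ADP_ne (he : CompleteOrthogonalIdempotents e) {i k : Fin n} (h : k ≠ i)
    (x : ADP_sub K e N i) : e k • (x : N) = 0 := by
  rw [← ADP_fix he i x, smul_smul, he.ortho h, zero_smul]

/-- the decomposition of `N` -/
private def ADP_dec (he : CompleteOrthogonalIdempotents e) :
    N ≃ₗ[K] (∀ i, ADP_sub K e N i) where
  toFun x := fun i => ⟨e i • x, ⟨x, rfl⟩⟩
  map_add' x y := by
    funext i
    exact Subtype.ext (smul_add _ _ _)
  map_smul' k x := by
    funext i
    exact Subtype.ext ((ADP_mul (e i) : N →ₗ[K] N).map_smul k x)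
  invFun y := ∑ i, (y i : N)
  left_inv x := by
    show ∑ i, e i • x = x
    rw [← Finset.sum_smul, he.complete, one_smul]
  right_inv y := by
    funext i
    apply Subtype.ext
    show e i • ∑ k, (y k : N) = y i
    rw [Finset.smul_sum, Finset.sum_eq_single i]
    · exact ADP_fix he i (y i)
    · intro k _ hk
      exact ADP_ne he hk.symm (y k)
    · intro h
      exact absurd (Finset.mem_univ i) h

end ADP

/-- Choose bases of the subspaces `e i N`. -/
theorem exists_realizes {K : Type v} [Field K] {A : Type u} [Ring A] [Algebra K A]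
    [FiniteDimensional K A] {n : ℕ} {e : Fin n → A} (he : CompleteOrthogonalIdempotents e)
    (N : Type w) [AddCommGroup N] [Module A N] [Module.Finite A N] :
    ∃ (d : Fin n → ℕ) (ρ : ModVar K A e d), Realizes ρ N ∧ ∑ i, d i = kdim (A := A) K N := by
  classical
  let _ : Module K N := Module.compHom N (algebraMap K A)
  have : IsScalarTower K A N := tower_compHom (A := A) K N
  have : Module.Finite K N := Module.Finite.trans A N
  let d : Fin n → ℕ := fun i => Module.finrank K (ADP_sub K e N i)
  let c : ∀ i, Basis (Fin (d i)) K (ADP_sub K e N i) := fun i => Module.finBasis K _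
  let ε : N ≃ₗ[K] (Idx d → K) := (ADP_dec he).trans
    ((LinearEquiv.piCongrRight fun i => (c i).equivFun).trans
      (LinearEquiv.piCurry K (fun (i : Fin n) (_ : Fin (d i)) => K)).symm)
  have hε : ∀ (x : N) (s : Idx d), ε x s = (c s.1).equivFun ⟨e s.1 • x, ⟨x, rfl⟩⟩ s.2 :=
    fun x s => rfl
  let g : A →ₐ[K] Module.End K (Idx d → K) :=
    (ε.conjAlgEquiv K).toAlgHom.comp (Algebra.lsmul K K N)
  let ρ0 : A →ₐ[K] Matrix (Idx d) (Idx d) K :=
    (LinearMap.toMatrixAlgEquiv' (R := K) (n := Idx d)).toAlgHom.comp g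
  have hρ0 : ∀ (a : A) (y : Idx d → K), (ρ0 a).mulVec y = ε (a • ε.symm y) := by
    intro a y
    have h1 : Matrix.toLinAlgEquiv' (ρ0 a) = g a :=
      Matrix.toLinAlgEquiv'_toMatrixAlgEquiv' (g a)
    have h2 : (ρ0 a).mulVec y = Matrix.toLinAlgEquiv' (ρ0 a) y := rfl
    rw [h2, h1]
    rfl
  have hdiag : ∀ i, ρ0 (e i) = Matrix.diagonal fun s : Idx d => if s.1 = i then (1 : K) else 0 := by
    intro i
    apply Matrix.mulVec_injective.eq_iff.1 ?_
    funext y
    rw [hρ0]
    funext s
    rw [Matrix.mulVec_diagonal, hε]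
    by_cases h : s.1 = i
    · rw [if_pos h, one_mul]
      have h1 : (⟨e s.1 • e i • ε.symm y, ⟨_, rfl⟩⟩ : ADP_sub K e N s.1) =
          ⟨e s.1 • ε.symm y, ⟨_, rfl⟩⟩ := by
        apply Subtype.ext
        show e s.1 • e i • ε.symm y = e s.1 • ε.symm y
        rw [h, smul_smul, (he.idem i).eq]
      rw [h1, ← hε, LinearEquiv.apply_symm_apply]
    · rw [if_neg h, zero_mul]
      have h1 : (⟨e s.1 • e i • ε.symm y, ⟨_, rfl⟩⟩ : ADP_sub K e N s.1) = 0 := by
        apply Subtype.ext
        show e s.1 • e i • ε.symm y = 0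
        rw [smul_smul, he.ortho h, zero_smul]
      rw [h1, map_zero]
      rfl
  refine ⟨d, ⟨ρ0, hdiag⟩, ⟨ε.toAddEquiv, fun a x => ?_⟩, ?_⟩
  · show ε (a • x) = (ρ0 a).mulVec (ε x)
    rw [hρ0, LinearEquiv.symm_apply_apply]
  · rw [kdim_eq K N, ε.finrank_eq, Module.finrank_fintype_fun_eq_card, Fintype.card_sigma]
    simp

end Pool.Agent.H13.MF
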