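import Pool.Agent.H13.MF.VBase

/-! `Hom (f, N)` in coordinates. -/

universe u v w

namespace Pool.Agent.H13.MF

open Module

section BIJ

variable {K : Type v} [Field K] {A : Type u} [Ring A] [Algebra K A] {n : ℕ} {e : Fin n → A}

/-- the generator of the ideal -/
private def BIJ_gen (e : Fin n → A) {q : ℕ} (l : Fin q → Fin n) (s : Fin q) :
    (Submodule.span A {e (l s)} : Submodule A A) :=
  ⟨e (l s), Submodule.subset_span rfl⟩

private theorem BIJ_mul (he : CompleteOrthogonalIdempotents e) {i : Fin n}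
    (y : (Submodule.span A {e i} : Submodule A A)) : (y : A) * e i = y := by
  obtain ⟨a, ha⟩ := Submodule.mem_span_singleton.1 y.2
  rw [← ha, smul_eq_mul, mul_assoc, (he.idem i).eq]

/-- a generator of the direct sum -/
private def BIJ_sg (e : Fin n → A) {q : ℕ} (l : Fin q → Fin n) (s : Fin q) : StdMod e l :=
  Pi.single s (BIJ_gen e l s)

private theorem BIJ_sum (he : CompleteOrthogonalIdempotents e) {q : ℕ} (l : Fin q → Fin n)
    (y : StdMod e l) : y = ∑ s, (y s : A) • BIJ_sg e l s := by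
  funext t
  rw [Finset.sum_apply, Finset.sum_eq_single t]
  · rw [Pi.smul_apply, BIJ_sg, Pi.single_eq_same]
    apply Subtype.ext
    exact (BIJ_mul he (y t)).symm
  · intro s _ hs
    rw [Pi.smul_apply, BIJ_sg, Pi.single_eq_of_ne hs.symm, smul_zero]
  · intro h
    exact absurd (Finset.mem_univ t) h

private theorem BIJ_smul (he : CompleteOrthogonalIdempotents e) {q : ℕ} (l : Fin q → Fin n)
    (s : Fin q) : e (l s) • BIJ_sg e l s = BIJ_sg e l s := by
  rw [BIJ_sg, ← Pi.single_smul]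
  congr 1
  apply Subtype.ext
  exact (he.idem (l s)).eq

variable {N : Type w} [AddCommGroup N] [Module A N] {d : Fin n → ℕ}

/-- coordinates of a homomorphism -/
private def BIJ_co (ε : N ≃+ (Idx d → K)) {q : ℕ} (l : Fin q → Fin n) (φ : StdMod e l →ₗ[A] N) :
    (Σ s : Fin q, Fin (d (l s))) → K :=
  fun r => ε (φ (BIJ_sg e l r.1)) ⟨l r.1, r.2⟩

private theorem BIJ_supp (ρ : ModVar K A e d)
    (ε : N ≃+ (Idx d → K)) (hε : ∀ (a : A) (x : N), ε (a • x) = (ρ.1 a).mulVec (ε x))
    {i : Fin n} {y : N} (hy : e i • y = y) {k : Idx d} (hk : k.1 ≠ i) : ε y k = 0 := by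
  rw [← hy, hε, ρ.2 i, Matrix.mulVec_diagonal, if_neg hk, zero_mul]

private theorem BIJ_smul_map (he : CompleteOrthogonalIdempotents e) {q : ℕ} (l : Fin q → Fin n)
    (φ : StdMod e l →ₗ[A] N) (s : Fin q) :
    e (l s) • φ (BIJ_sg e l s) = φ (BIJ_sg e l s) := by
  rw [← map_smul, BIJ_smul he]

private theorem BIJ_inj (he : CompleteOrthogonalIdempotents e) (ρ : ModVar K A e d)
    (ε : N ≃+ (Idx d → K)) (hε : ∀ (a : A) (x : N), ε (a • x) = (ρ.1 a).mulVec (ε x))
    {q : ℕ} (l : Fin q → Fin n) :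
    Function.Injective (BIJ_co ε l : (StdMod e l →ₗ[A] N) → _) := by
  intro φ ψ h
  have h1 : ∀ s, φ (BIJ_sg e l s) = ψ (BIJ_sg e l s) := by
    intro s
    apply ε.injective
    funext k
    by_cases hk : k.1 = l s
    · obtain ⟨k1, k2⟩ := k
      dsimp only at hk
      subst hk
      exact congrFun h ⟨s, k2⟩
    · rw [BIJ_supp ρ ε hε (BIJ_smul_map he l φ s) hk, BIJ_supp ρ ε hε (BIJ_smul_map he l ψ s) hk]
  apply LinearMap.ext
  intro y
  rw [BIJ_sum he l y, map_sum, map_sum]
  refine Finset.sum_congr rfl fun s _ => ?_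
  rw [map_smul, map_smul, h1]

private theorem BIJ_surj (he : CompleteOrthogonalIdempotents e) (ρ : ModVar K A e d)
    (ε : N ≃+ (Idx d → K)) (hε : ∀ (a : A) (x : N), ε (a • x) = (ρ.1 a).mulVec (ε x))
    {q : ℕ} (l : Fin q → Fin n) :
    Function.Surjective (BIJ_co ε l : (StdMod e l →ₗ[A] N) → _) := by
  intro z
  let m : Fin q → N := fun s => ε.symm fun k => if h : k.1 = l s then z ⟨s, h ▸ k.2⟩ else 0
  have hm : ∀ s, e (l s) • m s = m s := by
    intro s
    apply ε.injective
    rw [hε, ρ.2 (l s)]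
    funext k
    rw [Matrix.mulVec_diagonal, AddEquiv.apply_symm_apply]
    by_cases h : k.1 = l s
    · rw [if_pos h, one_mul]
    · rw [if_neg h, dif_neg h, zero_mul]
  let φ : StdMod e l →ₗ[A] N :=
    { toFun := fun y => ∑ s, (y s : A) • m s
      map_add' := fun y y' => by
        rw [← Finset.sum_add_distrib]
        refine Finset.sum_congr rfl fun s _ => ?_
        rw [Pi.add_apply, Submodule.coe_add, add_smul]
      map_smul' := fun a y => by
        rw [RingHom.id_apply, Finset.smul_sum]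
        refine Finset.sum_congr rfl fun s _ => ?_
        rw [Pi.smul_apply, Submodule.coe_smul, smul_eq_mul, mul_smul] }
  refine ⟨φ, ?_⟩
  funext r
  obtain ⟨s, t⟩ := r
  have h1 : φ (BIJ_sg e l s) = m s := by
    show ∑ s', ((BIJ_sg e l s) s' : A) • m s' = m s
    rw [Finset.sum_eq_single s]
    · rw [BIJ_sg, Pi.single_eq_same]
      exact hm s
    · intro s' _ hs
      rw [BIJ_sg, Pi.single_eq_of_ne hs]
      exact zero_smul A _
    · intro h
      exact absurd (Finset.mem_univ s) h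
  show ε (φ (BIJ_sg e l s)) ⟨l s, t⟩ = z ⟨s, t⟩
  rw [h1]
  show ε (ε.symm _) _ = _
  rw [AddEquiv.apply_symm_apply, dif_pos rfl]

end BIJ

/-- A homomorphism between direct sums of the left ideals `A (e i)` is given by a matrix `x` over
the algebra, and `Hom (f, N)` is, in coordinates, the block matrix `bigMat j l x ρ`. -/
theorem preBij_iff {K : Type v} [Field K] {A : Type u} [Ring A] [Algebra K A] {n : ℕ}
    {e : Fin n → A} (he : CompleteOrthogonalIdempotents e) {p q : ℕ} (j : Fin p → Fin n)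
    (l : Fin q → Fin n) {P Q : Type*} [AddCommGroup P] [Module A P] [AddCommGroup Q] [Module A Q]
    (α : P ≃ₗ[A] StdMod e j) (β : Q ≃ₗ[A] StdMod e l) (f : P →ₗ[A] Q) :
    ∃ x : Fin p → Fin q → A, ∀ (d : Fin n → ℕ) (ρ : ModVar K A e d) (N : Type w)
      [AddCommGroup N] [Module A N], Realizes ρ N →
      (PreBij f N ↔ Function.Bijective fun z => (bigMat j l x ρ).mulVec z) := by
  let g : StdMod e j →ₗ[A] StdMod e l := β.toLinearMap ∘ₗ f ∘ₗ α.symm.toLinearMap
  refine ⟨fun t s => (g (BIJ_sg e j t) s : A), ?_⟩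
  intro d ρ N _ _ hR
  obtain ⟨ε, hε⟩ := hR
  have hl : Function.Bijective (BIJ_co ε l : (StdMod e l →ₗ[A] N) → _) :=
    ⟨BIJ_inj he ρ ε hε l, BIJ_surj he ρ ε hε l⟩
  have hj : Function.Bijective (BIJ_co ε j : (StdMod e j →ₗ[A] N) → _) :=
    ⟨BIJ_inj he ρ ε hε j, BIJ_surj he ρ ε hε j⟩
  have key : ((fun z => (bigMat j l (fun t s => (g (BIJ_sg e j t) s : A)) ρ).mulVec z) ∘
      (BIJ_co ε l : (StdMod e l →ₗ[A] N) → _)) =
      (BIJ_co ε j : (StdMod e j →ₗ[A] N) → _) ∘ (fun φ : StdMod e l →ₗ[A] N => φ ∘ₗ g) := by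
    funext φ r
    obtain ⟨t, p'⟩ := r
    show (bigMat j l (fun t s => (g (BIJ_sg e j t) s : A)) ρ).mulVec (BIJ_co ε l φ) ⟨t, p'⟩ =
      ε (φ (g (BIJ_sg e j t))) ⟨j t, p'⟩
    have h1 : φ (g (BIJ_sg e j t)) =
        ∑ s, (g (BIJ_sg e j t) s : A) • φ (BIJ_sg e l s) := by
      conv_lhs => rw [BIJ_sum he l (g (BIJ_sg e j t))]
      rw [map_sum]
      refine Finset.sum_congr rfl fun s _ => ?_
      rw [map_smul]
    rw [h1, map_sum, Finset.sum_apply]
    rw [Matrix.mulVec, dotProduct, Fintype.sum_sigma]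
    refine Finset.sum_congr rfl fun s _ => ?_
    rw [hε, Matrix.mulVec, dotProduct, Fintype.sum_sigma, Finset.sum_eq_single (l s)]
    · rfl
    · intro i _ hi
      refine Finset.sum_eq_zero fun k _ => ?_
      rw [BIJ_supp ρ ε hε (BIJ_smul_map he l φ s) (k := ⟨i, k⟩) hi, mul_zero]
    · intro h
      exact absurd (Finset.mem_univ _) h
  have h2 : PreBij f N ↔ Function.Bijective (fun φ : StdMod e l →ₗ[A] N => φ ∘ₗ g) := by
    have hb : Function.Bijective (fun φ : StdMod e l →ₗ[A] N => φ ∘ₗ β.toLinearMap) := by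
      refine ⟨fun φ ψ h => ?_, fun φ => ⟨φ ∘ₗ β.symm.toLinearMap, ?_⟩⟩
      · apply LinearMap.ext
        intro y
        have := LinearMap.congr_fun h (β.symm y)
        simpa using this
      · apply LinearMap.ext
        intro y
        simp
    have ha : Function.Bijective (fun φ : P →ₗ[A] N => φ ∘ₗ α.symm.toLinearMap) := by
      refine ⟨fun φ ψ h => ?_, fun φ => ⟨φ ∘ₗ α.toLinearMap, ?_⟩⟩
      · apply LinearMap.ext
        intro y
        have := LinearMap.congr_fun h (α y)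
        simpa using this
      · apply LinearMap.ext
        intro y
        simp
    have hc : (fun φ : StdMod e l →ₗ[A] N => φ ∘ₗ g) =
        (fun φ : P →ₗ[A] N => φ ∘ₗ α.symm.toLinearMap) ∘
          ((fun φ : Q →ₗ[A] N => φ ∘ₗ f) ∘
            (fun φ : StdMod e l →ₗ[A] N => φ ∘ₗ β.toLinearMap)) := by
      funext φ
      rfl
    rw [hc, Function.Bijective.of_comp_iff' ha, Function.Bijective.of_comp_iff _ hb]
    rfl
  rw [h2, ← Function.Bijective.of_comp_iff _ hl, key, Function.Bijective.of_comp_iff' hj]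

end Pool.Agent.H13.MF
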