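import Pool.Agent.H13.MF.VBase

/-! The determinantal functions are regular and semi-invariant. -/

universe u v

namespace Pool.Agent.H13.MF

open Module

section
variable {K : Type v} [Field K] {A : Type u} [Ring A] [Algebra K A] {n : ℕ}
    {e : Fin n → A} {d : Fin n → ℕ} {p q : ℕ}

private theorem SEM_regular (j : Fin p → Fin n) (l : Fin q → Fin n)
    (x : Fin p → Fin q → A)
    (σ : (Σ t : Fin p, Fin (d (j t))) ≃ (Σ s : Fin q, Fin (d (l s)))) :
    (fun ρ : ModVar K A e d => ((bigMat j l x ρ).submatrix id σ).det) ∈ regular K A e d := by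
  have h1 : (fun ρ : ModVar K A e d => ((bigMat j l x ρ).submatrix id σ).det) =
      ∑ τ : Equiv.Perm (Σ t : Fin p, Fin (d (j t))), (Equiv.Perm.sign τ : ℤˣ) •
        ∏ i, (fun ρ : ModVar K A e d => (bigMat j l x ρ) (τ i) (σ i)) := by
    funext ρ
    rw [Matrix.det_apply, Finset.sum_apply]
    refine Finset.sum_congr rfl fun τ _ => ?_
    rw [Pi.smul_apply, Finset.prod_apply]
    rfl
  rw [h1]
  refine Subalgebra.sum_mem _ fun τ _ => ?_
  have h2 : (∏ i, (fun ρ : ModVar K A e d => (bigMat j l x ρ) (τ i) (σ i))) ∈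
      regular K A e d := by
    refine Subalgebra.prod_mem _ fun i _ => ?_
    exact Algebra.subset_adjoin ⟨x (τ i).1 (σ i).1, _, _, rfl⟩
  rcases Int.units_eq_one_or (Equiv.Perm.sign τ) with h | h
  · rw [h, one_smul]
    exact h2
  · rw [h, Units.neg_smul, one_smul]
    exact Subalgebra.neg_mem _ h2

private theorem SEM_blk_mul (g : ∀ i : Fin n, GL (Fin (d i)) K) (M : Matrix (Idx d) (Idx d) K)
    (i : Fin n) (s : Fin (d i)) (t : Idx d) :
    (blk g * M) ⟨i, s⟩ t = ∑ s' : Fin (d i), (g i : Matrix (Fin (d i)) (Fin (d i)) K) s s' *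
      M ⟨i, s'⟩ t := by
  rw [Matrix.mul_apply, Fintype.sum_sigma, Finset.sum_eq_single i]
  · refine Finset.sum_congr rfl fun s' _ => ?_
    rw [blk, Matrix.blockDiagonal'_apply_eq]
  · intro k _ hk
    refine Finset.sum_eq_zero fun s' _ => ?_
    rw [blk, Matrix.blockDiagonal'_apply_ne _ _ _ (Ne.symm hk), zero_mul]
  · intro h
    exact absurd (Finset.mem_univ _) h

private theorem SEM_mul_blk (g : ∀ i : Fin n, GL (Fin (d i)) K) (M : Matrix (Idx d) (Idx d) K)
    (i : Fin n) (s : Fin (d i)) (t : Idx d) :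
    (M * blk g) t ⟨i, s⟩ = ∑ s' : Fin (d i), M t ⟨i, s'⟩ *
      (g i : Matrix (Fin (d i)) (Fin (d i)) K) s' s := by
  rw [Matrix.mul_apply, Fintype.sum_sigma, Finset.sum_eq_single i]
  · refine Finset.sum_congr rfl fun s' _ => ?_
    rw [blk, Matrix.blockDiagonal'_apply_eq]
  · intro k _ hk
    refine Finset.sum_eq_zero fun s' _ => ?_
    rw [blk, Matrix.blockDiagonal'_apply_ne _ _ _ hk, mul_zero]
  · intro h
    exact absurd (Finset.mem_univ _) h

private theorem SEM_bd_mul {ι : Type} [Fintype ι] [DecidableEq ι] {m : ι → ℕ} {R : Type*}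
    (D : ∀ i : ι, Matrix (Fin (m i)) (Fin (m i)) K) (M : Matrix (Σ i, Fin (m i)) R K)
    (i : ι) (s : Fin (m i)) (t : R) :
    (Matrix.blockDiagonal' D * M) ⟨i, s⟩ t = ∑ s' : Fin (m i), D i s s' * M ⟨i, s'⟩ t := by
  rw [Matrix.mul_apply, Fintype.sum_sigma, Finset.sum_eq_single i]
  · refine Finset.sum_congr rfl fun s' _ => ?_
    rw [Matrix.blockDiagonal'_apply_eq]
  · intro k _ hk
    refine Finset.sum_eq_zero fun s' _ => ?_
    rw [Matrix.blockDiagonal'_apply_ne _ _ _ (Ne.symm hk), zero_mul]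
  · intro h
    exact absurd (Finset.mem_univ _) h

private theorem SEM_mul_bd {ι : Type} [Fintype ι] [DecidableEq ι] {m : ι → ℕ} {R : Type*}
    (D : ∀ i : ι, Matrix (Fin (m i)) (Fin (m i)) K) (M : Matrix R (Σ i, Fin (m i)) K)
    (i : ι) (s : Fin (m i)) (t : R) :
    (M * Matrix.blockDiagonal' D) t ⟨i, s⟩ = ∑ s' : Fin (m i), M t ⟨i, s'⟩ * D i s' s := by
  rw [Matrix.mul_apply, Fintype.sum_sigma, Finset.sum_eq_single i]
  · refine Finset.sum_congr rfl fun s' _ => ?_
    rw [Matrix.blockDiagonal'_apply_eq]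
  · intro k _ hk
    refine Finset.sum_eq_zero fun s' _ => ?_
    rw [Matrix.blockDiagonal'_apply_ne _ _ _ hk, mul_zero]
  · intro h
    exact absurd (Finset.mem_univ _) h

private theorem SEM_bigMat_act (j : Fin p → Fin n) (l : Fin q → Fin n)
    (x : Fin p → Fin q → A) (g : ∀ i : Fin n, GL (Fin (d i)) K) (ρ : ModVar K A e d) :
    bigMat j l x (act g ρ) =
      Matrix.blockDiagonal' (fun t : Fin p => (g (j t) : Matrix (Fin (d (j t))) (Fin (d (j t))) K))
        * bigMat j l x ρ *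
      Matrix.blockDiagonal' (fun s : Fin q =>
        ((g (l s))⁻¹ : GL (Fin (d (l s))) K).1) := by
  ext ⟨t, a⟩ ⟨s, b⟩
  rw [SEM_mul_bd]
  show (blk g * ρ.1 (x t s) * blk (fun i => (g i)⁻¹)) ⟨j t, a⟩ ⟨l s, b⟩ = _
  rw [SEM_mul_blk]
  refine Finset.sum_congr rfl fun s' _ => ?_
  rw [SEM_bd_mul, SEM_blk_mul]
  rfl

private theorem SEM_det_bd {p : ℕ} {m : Fin p → ℕ}
    (D : ∀ i : Fin p, Matrix (Fin (m i)) (Fin (m i)) K) :
    (Matrix.blockDiagonal' D).det = ∏ i, (D i).det := by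
  rw [(Matrix.blockTriangular_blockDiagonal' D).det_fintype]
  refine Finset.prod_congr rfl fun k _ => ?_
  let f : Fin (m k) → {a : Σ i, Fin (m i) // a.1 = k} := fun s => ⟨⟨k, s⟩, rfl⟩
  have hf : Function.Bijective f := by
    constructor
    · intro s t h
      have h1 : (⟨k, s⟩ : Σ i, Fin (m i)) = ⟨k, t⟩ := congrArg Subtype.val h
      exact eq_of_heq (Sigma.mk.inj_iff.mp h1).2
    · rintro ⟨⟨i, s⟩, rfl⟩
      exact ⟨s, rfl⟩
  rw [← Matrix.det_submatrix_equiv_self (Equiv.ofBijective f hf)]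
  congr 1
  ext s t
  show Matrix.blockDiagonal' D ⟨k, s⟩ ⟨k, t⟩ = D k s t
  rw [Matrix.blockDiagonal'_apply_eq]

private theorem SEM_prod (D : Fin n → K) (j : Fin p → Fin n) :
    ∏ t, D (j t) = ∏ i, D i ^ (Finset.univ.filter fun t => j t = i).card := by
  rw [← Finset.prod_fiberwise' Finset.univ j D]
  refine Finset.prod_congr rfl fun i _ => ?_
  rw [Finset.prod_const]

end

theorem semiInv_det {K : Type v} [Field K] {A : Type u} [Ring A] [Algebra K A] {n : ℕ}
    {e : Fin n → A} {d : Fin n → ℕ} {p q : ℕ} (j : Fin p → Fin n) (l : Fin q → Fin n)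
    (x : Fin p → Fin q → A)
    (σ : (Σ t : Fin p, Fin (d (j t))) ≃ (Σ s : Fin q, Fin (d (l s))))
    (C : Set (ModVar K A e d)) :
    SemiInv C (wt j l) (fun ρ => ((bigMat j l x ρ).submatrix id σ).det) := by
  refine ⟨SEM_regular j l x σ, fun g ρ _ => ?_⟩
  show ((bigMat j l x (act g ρ)).submatrix id σ).det = _ * ((bigMat j l x ρ).submatrix id σ).det
  rw [SEM_bigMat_act]
  have h1 : (Matrix.blockDiagonal'
        (fun t : Fin p => (g (j t) : Matrix (Fin (d (j t))) (Fin (d (j t))) K))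
        * bigMat j l x ρ *
      Matrix.blockDiagonal' (fun s : Fin q =>
        ((g (l s))⁻¹ : GL (Fin (d (l s))) K).1)).submatrix id σ =
      Matrix.blockDiagonal'
        (fun t : Fin p => (g (j t) : Matrix (Fin (d (j t))) (Fin (d (j t))) K))
        * (bigMat j l x ρ).submatrix id σ *
      (Matrix.blockDiagonal' (fun s : Fin q =>
        ((g (l s))⁻¹ : GL (Fin (d (l s))) K).1)).submatrix σ σ := by
    rw [← Matrix.submatrix_mul_equiv _ _ id σ σ, ← Matrix.submatrix_mul_equiv _ _ id (Equiv.refl _) σ]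
    rfl
  rw [h1, Matrix.det_mul, Matrix.det_mul, Matrix.det_submatrix_equiv_self,
    SEM_det_bd, SEM_det_bd]
  have h2 : ∏ s : Fin q, (((g (l s))⁻¹ : GL (Fin (d (l s))) K).1).det =
      ∏ i, (((g i : Matrix (Fin (d i)) (Fin (d i)) K).det)⁻¹) ^
        (Finset.univ.filter fun s => l s = i).card := by
    rw [← SEM_prod (fun i => ((g i : Matrix (Fin (d i)) (Fin (d i)) K).det)⁻¹) l]
    refine Finset.prod_congr rfl fun s _ => ?_
    rw [Matrix.coe_units_inv, Matrix.det_nonsing_inv, Ring.inverse_eq_inv']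
  rw [h2, SEM_prod (fun i => (g i : Matrix (Fin (d i)) (Fin (d i)) K).det) j]
  rw [mul_right_comm, ← Finset.prod_mul_distrib]
  congr 1
  refine Finset.prod_congr rfl fun i _ => ?_
  have h3 : (g i : Matrix (Fin (d i)) (Fin (d i)) K).det ≠ 0 := by
    have := (Matrix.isUnit_iff_isUnit_det _).mp (g i).isUnit
    exact this.ne_zero
  rw [wt, zpow_sub₀ h3, zpow_natCast, zpow_natCast, inv_pow, div_eq_mul_inv]

end Pool.Agent.H13.MF
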