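import Pool.Agent.H13.MF.NOE
import Pool.Agent.H13.MF.ADP
import Pool.Agent.H13.MF.SEM
import Pool.Agent.H13.MF.BIJ

/-! For an MF algebra the modules of bounded dimension fall into finitely many classes. -/

set_option linter.unusedSectionVars false

universe u v

namespace Pool.Agent.H13.MF

open Module Pool.Agent.H51.T2

/-- The modules of bounded dimension fall into finitely many classes such that, for modules `N`,
`N'` in one class and maps `x`, `y : P → Q` with `Hom (x, N)` and `Hom (y, N')` bijective,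
`Hom (x, N')` is bijective. -/
def HasClasses (K : Type v) [Field K] {A : Type u} [Ring A] [Algebra K A] {n : ℕ}
    (e : Fin n → A) : Prop :=
  ∀ B : ℕ, ∃ (m : ℕ) (Cls : Fin m → ∀ (N : Type u) [AddCommGroup N] [Module A N], Prop),
    (∀ (N : Type u) [AddCommGroup N] [Module A N] [Module.Finite A N],
      kdim (A := A) K N ≤ B → ∃ i, Cls i N) ∧
    ∀ (i : Fin m) (N N' : Type u) [AddCommGroup N] [Module A N] [AddCommGroup N'] [Module A N']
      (P Q : Type u) [AddCommGroup P] [Module A P] [AddCommGroup Q] [Module A Q],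
      IsStd e P → IsStd e Q → ∀ x y : P →ₗ[A] Q, Cls i N → Cls i N' → PreBij x N → PreBij y N' →
        PreBij x N'

theorem bij_iff_det {K : Type*} [Field K] {r c : Type*} [Fintype r] [DecidableEq r] [Fintype c]
    (M : Matrix r c K) (σ : r ≃ c) :
    (Function.Bijective fun z => M.mulVec z) ↔ (M.submatrix id σ).det ≠ 0 := by
  have h1 : (fun z => (M.submatrix id σ).mulVec z) =
      (fun z => M.mulVec z) ∘ (σ.arrowCongr (Equiv.refl K)) := by
    funext z
    have := Matrix.submatrix_mulVec_equiv M z id σ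
    rw [this]
    rfl
  have h2 : (Function.Bijective fun z => M.mulVec z) ↔
      Function.Bijective (fun z => (M.submatrix id σ).mulVec z) := by
    rw [h1]
    exact (Equiv.bijective_comp (σ.arrowCongr (Equiv.refl K)) (fun z => M.mulVec z)).symm
  rw [h2, ← isUnit_iff_ne_zero, ← Matrix.isUnit_iff_isUnit_det]
  constructor
  · intro h
    exact Matrix.mulVec_injective_iff_isUnit.1 h.1
  · intro h
    exact ⟨Matrix.mulVec_injective_iff_isUnit.2 h, Matrix.mulVec_surjective_iff_isUnit.2 h⟩

theorem card_eq_of_bij {K : Type*} [Field K] {r c : Type*} [Fintype r] [Fintype c]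
    [DecidableEq c] (M : Matrix r c K) (h : Function.Bijective fun z => M.mulVec z) :
    Fintype.card r = Fintype.card c := by
  have h1 : Function.Bijective M.mulVecLin := h
  have h2 := LinearEquiv.finrank_eq (LinearEquiv.ofBijective M.mulVecLin h1)
  rw [Module.finrank_fintype_fun_eq_card, Module.finrank_fintype_fun_eq_card] at h2
  exact h2.symm

/-- The classes are given by pairs of a dimension vector `d` with entries at most `B` and an
irreducible component `C` of `ModVar K A e d`: `Cls N` means that some `ρ ∈ C` realizes `N`. -/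
theorem hasClasses_of_isMF (K : Type v) [Field K] {A : Type u} [Ring A] [Algebra K A]
    [FiniteDimensional K A] {n : ℕ} {e : Fin n → A} (he : CompleteOrthogonalIdempotents e)
    (h : IsMF K A e) : HasClasses K e := by
  classical
  intro B
  let J := Σ d : (Fin n → Fin (B + 1)),
    {C : Set (ModVar K A e (fun i => (d i : ℕ))) // C ∈ irreducibleComponents _}
  haveI : ∀ d : (Fin n → Fin (B + 1)), Finite {C : Set (ModVar K A e (fun i => (d i : ℕ))) //
      C ∈ irreducibleComponents _} := fun d => (components_finite e _).to_subtype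
  haveI : Finite J := inferInstance
  obtain ⟨m, ⟨E⟩⟩ := Finite.exists_equiv_fin J
  refine ⟨m, fun k N _ _ => ∃ ρ ∈ (E.symm k).2.1, Realizes ρ N, ?_, ?_⟩
  · intro N _ _ _ hN
    obtain ⟨d, ρ, hρ, hd⟩ := exists_realizes (K := K) he N
    have hdi : ∀ i, d i < B + 1 := by
      intro i
      have h1 : d i ≤ ∑ i, d i := Finset.single_le_sum (fun _ _ => Nat.zero_le _)
        (Finset.mem_univ i)
      omega
    refine ⟨E ⟨fun i => ⟨d i, hdi i⟩, ⟨irreducibleComponent ρ,
      irreducibleComponent_mem_irreducibleComponents ρ⟩⟩, ?_⟩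
    beta_reduce
    rw [Equiv.symm_apply_apply]
    exact ⟨ρ, mem_irreducibleComponent, hρ⟩
  · intro k N N' _ _ _ _ P Q _ _ _ _ hP hQ x y hN hN' hx hy
    obtain ⟨p, j, ⟨α⟩⟩ := hP
    obtain ⟨q, l, ⟨β⟩⟩ := hQ
    obtain ⟨ρ, hρC, hρ⟩ := hN
    obtain ⟨ρ', hρC', hρ'⟩ := hN'
    obtain ⟨X, hX⟩ := preBij_iff.{u, v, u} (K := K) he j l α β x
    obtain ⟨Y, hY⟩ := preBij_iff.{u, v, u} (K := K) he j l α β y
    have h1 := (hX _ ρ N hρ).1 hx
    have h2 := (hY _ ρ' N' hρ').1 hy
    obtain ⟨σ⟩ : Nonempty ((Σ t : Fin p, Fin (((E.symm k).1 (j t) : ℕ))) ≃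
        (Σ s : Fin q, Fin (((E.symm k).1 (l s) : ℕ)))) :=
      ⟨Fintype.equivOfCardEq (card_eq_of_bij _ h1)⟩
    rw [bij_iff_det _ σ] at h1 h2
    obtain ⟨a, b, hab, hC⟩ := h _ (E.symm k).2.1 (E.symm k).2.2 (wt j l) _ _
      (semiInv_det j l X σ _) (semiInv_det j l Y σ _)
    have h3 := hC ρ hρC
    have h4 := hC ρ' hρC'
    refine (hX _ ρ' N' hρ').2 ((bij_iff_det _ σ).2 fun h5 => ?_)
    simp only [h5, mul_zero, zero_add] at h4
    have hb : b = 0 := (mul_eq_zero.1 h4).resolve_right h2
    simp only [hb, zero_mul, add_zero] at h3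
    have ha : a = 0 := (mul_eq_zero.1 h3).resolve_right h1
    rcases hab with hab | hab
    · exact hab ha
    · exact hab hb

end Pool.Agent.H13.MF
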