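import Pool.Agent.H13.MF.VBase

/-! Closure properties of the finite direct sums of the left ideals `A (e i)`. -/

universe u v w

namespace Pool.Agent.H13.MF

open Module

variable {A : Type u} [Ring A] {n : ℕ} {e : Fin n → A}

theorem isStd_of_equiv {P : Type*} {Q : Type*} [AddCommGroup P] [Module A P] [AddCommGroup Q]
    [Module A Q] (h : IsStd e P) (ε : P ≃ₗ[A] Q) : IsStd e Q := by
  obtain ⟨p, j, ⟨α⟩⟩ := h
  exact ⟨p, j, ⟨ε.symm ≪≫ₗ α⟩⟩

/-- The map `x ↦ x (e i)` to the left ideal `A (e i)`. -/
private def stdProj (e : Fin n → A) (i : Fin n) :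
    A →ₗ[A] (Submodule.span A {e i} : Submodule A A) where
  toFun x := ⟨x * e i, Submodule.mem_span_singleton.2 ⟨x, rfl⟩⟩
  map_add' x y := by
    apply Subtype.ext
    exact add_mul x y (e i)
  map_smul' a x := by
    apply Subtype.ext
    exact mul_assoc a x (e i)

private theorem stdProj_coe (e : Fin n → A) (i : Fin n) (x : A) :
    ((stdProj e i x : (Submodule.span A {e i} : Submodule A A)) : A) = x * e i := rfl

private theorem mul_of_mem (he : CompleteOrthogonalIdempotents e) (i : Fin n) (x : A)
    (hx : x ∈ (Submodule.span A {e i} : Submodule A A)) : x * e i = x := by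
  obtain ⟨a, rfl⟩ := Submodule.mem_span_singleton.1 hx
  rw [smul_eq_mul, mul_assoc, (he.idem i).eq]

private theorem mul_of_mem_ne (he : CompleteOrthogonalIdempotents e) {i k : Fin n} (hik : k ≠ i)
    (x : A) (hx : x ∈ (Submodule.span A {e k} : Submodule A A)) : x * e i = 0 := by
  obtain ⟨a, rfl⟩ := Submodule.mem_span_singleton.1 hx
  rw [smul_eq_mul, mul_assoc, he.ortho hik, mul_zero]

theorem isStd_self (he : CompleteOrthogonalIdempotents e) : IsStd e A := by
  refine ⟨n, id, ⟨LinearEquiv.ofLinearMap (LinearMap.pi fun i => stdProj e i)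
    (∑ i, (Submodule.subtype (Submodule.span A {e (id i)} : Submodule A A)) ∘ₗ
      LinearMap.proj i) ?_ ?_⟩⟩
  · apply LinearMap.ext
    intro y
    funext i
    apply Subtype.ext
    rw [LinearMap.comp_apply, LinearMap.pi_apply, LinearMap.id_apply]
    refine (stdProj_coe e i _).trans ?_
    rw [LinearMap.sum_apply, Finset.sum_mul, Finset.sum_eq_single i]
    · exact mul_of_mem he i _ (y i).2
    · intro k _ hk
      exact mul_of_mem_ne he hk _ (y k).2
    · intro h
      exact absurd (Finset.mem_univ _) h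
  · apply LinearMap.ext
    intro x
    rw [LinearMap.comp_apply, LinearMap.sum_apply, LinearMap.id_apply]
    have h : ∀ i, ((Submodule.subtype (Submodule.span A {e (id i)} : Submodule A A)) ∘ₗ
      LinearMap.proj i) ((LinearMap.pi fun i => stdProj e i) x) = x * e i := fun i => rfl
    rw [Finset.sum_congr rfl fun i _ => h i, ← Finset.mul_sum, he.complete, mul_one]

theorem isStd_punit : IsStd e PUnit.{w+1} := by
  exact ⟨0, Fin.elim0, ⟨LinearEquiv.ofSubsingleton _ _⟩⟩

theorem isStd_prod {P Q : Type*} [AddCommGroup P] [Module A P] [AddCommGroup Q] [Module A Q]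
    (hP : IsStd e P) (hQ : IsStd e Q) : IsStd e (P × Q) := by
  obtain ⟨p, j, ⟨α⟩⟩ := hP
  obtain ⟨q, l, ⟨β⟩⟩ := hQ
  refine ⟨p + q, fun t => Sum.elim j l (finSumFinEquiv.symm t), ⟨?_⟩⟩
  refine (α.prodCongr β) ≪≫ₗ ?_
  refine (LinearEquiv.sumPiEquivProdPi A (Fin p) (Fin q)
    (fun st => (Submodule.span A {e (Sum.elim j l st)} : Submodule A A))).symm ≪≫ₗ ?_
  exact LinearEquiv.piCongrLeft' A
    (fun st => (Submodule.span A {e (Sum.elim j l st)} : Submodule A A)) finSumFinEquiv

theorem isStd_pow {P : Type*} [AddCommGroup P] [Module A P] (hP : IsStd e P) (k : ℕ) :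
    IsStd e (Fin k → P) := by
  induction k with
  | zero =>
    exact isStd_of_equiv (isStd_punit.{u, 0}) (LinearEquiv.ofSubsingleton _ _)
  | succ k ih =>
    exact isStd_of_equiv (isStd_prod hP ih) (Fin.consLinearEquiv A (fun _ => P))

theorem isStd_finite {P : Type*} [AddCommGroup P] [Module A P] (hP : IsStd e P) :
    Module.Finite A P := by
  obtain ⟨p, j, ⟨α⟩⟩ := hP
  have : Module.Finite A (StdMod e j) := Module.Finite.pi
  exact Module.Finite.equiv α.symm

theorem isStd_projective (he : CompleteOrthogonalIdempotents e) {P : Type*} [AddCommGroup P]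
    [Module A P] (hP : IsStd e P) : Module.Projective A P := by
  obtain ⟨p, j, ⟨α⟩⟩ := hP
  have h : Module.Projective A (StdMod e j) := by
    refine Module.Projective.of_split (M := Fin p → A)
      (LinearMap.pi fun t => (Submodule.subtype (Submodule.span A {e (j t)} : Submodule A A)) ∘ₗ
        LinearMap.proj t)
      (LinearMap.pi fun t => stdProj e (j t) ∘ₗ LinearMap.proj t) ?_
    apply LinearMap.ext
    intro y
    funext t
    apply Subtype.ext
    exact mul_of_mem he (j t) _ (y t).2
  exact Module.Projective.of_equiv α.symm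

end Pool.Agent.H13.MF
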