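import Pool.Agent.H13.MF.Trans
import Pool.Agent.H13.MF.STD
import Pool.Agent.H13.MF.CLS

/-! If the modules of bounded dimension fall into finitely many classes on which the vanishing of
determinantal semi-invariants does not depend on the presentation, all classes are rigid. -/

set_option linter.unusedSectionVars false
set_option linter.style.haveILetI false

universe u v

namespace Pool.Agent.H13.MF

open Module Pool.Agent.H51.T2

section lineopen

variable (K : Type*) [Field K] {X : Type*} [AddCommGroup X] [Module K X]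

/-- A set which contains almost all points of every line through one of its points. -/
def LineOpen (S : Set X) : Prop := ∀ x ∈ S, ∀ y, {t : K | x + t • (y - x) ∉ S}.Finite

variable {K}

theorem LineOpen.exists_mem [Infinite K] {ι : Type*} (s : Finset ι) (S : ι → Set X)
    (h : ∀ i ∈ s, LineOpen K (S i)) (hne : ∀ i ∈ s, (S i).Nonempty) : ∃ x, ∀ i ∈ s, x ∈ S i := by
  classical
  induction s using Finset.induction_on with
  | empty => exact ⟨0, fun i hi => absurd hi (Finset.notMem_empty i)⟩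
  | insert j s hj ih =>
    obtain ⟨x, hx⟩ := ih (fun i hi => h i (Finset.mem_insert_of_mem hi))
      (fun i hi => hne i (Finset.mem_insert_of_mem hi))
    obtain ⟨y, hy⟩ := hne j (Finset.mem_insert_self j s)
    have h1 : (⋃ i ∈ s, {t : K | x + t • (y - x) ∉ S i}).Finite :=
      Set.Finite.biUnion (Finset.finite_toSet s)
        (fun i hi => h i (Finset.mem_insert_of_mem hi) x (hx i hi) y)
    have h2 : {t : K | x + t • (y - x) ∉ S j}.Finite := by
      have h3 := (h j (Finset.mem_insert_self j s) y hy x).image (fun t => 1 - t)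
      refine h3.subset fun t ht => ⟨1 - t, ?_, by ring⟩
      have h4 : y + (1 - t) • (x - y) = x + t • (y - x) := by
        rw [sub_smul, one_smul, smul_sub, smul_sub]; abel
      simp only [Set.mem_ofPred_eq] at ht ⊢
      rwa [h4]
    obtain ⟨t, ht⟩ := ((h1.union h2).infinite_compl).nonempty
    simp only [Set.compl_union, Set.mem_inter_iff, Set.mem_compl_iff, Set.mem_iUnion,
      Set.mem_ofPred_eq, not_exists, not_not] at ht
    refine ⟨x + t • (y - x), fun i hi => ?_⟩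
    rcases Finset.mem_insert.1 hi with rfl | hi
    · exact ht.2
    · exact ht.1 i hi

theorem lineOpen_surj {V V' : Type*} [AddCommGroup V] [Module K V] [FiniteDimensional K V]
    [AddCommGroup V'] [Module K V'] [FiniteDimensional K V'] (D : X → (V →ₗ[K] V'))
    (hD : ∀ x y : X, PolyMap (fun t : K => D (x + t • (y - x)))) :
    LineOpen K {x | Function.Surjective (D x)} := by
  intro x hx y
  have h0 := generic_rank_at _ (hD x y) 0
  refine h0.subset fun t ht h1 => ht ?_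
  have e0 : finrank K (LinearMap.range (D (x + (0 : K) • (y - x))))
      = finrank K (LinearMap.range (D x)) := by rw [zero_smul, add_zero]
  have h2 : finrank K (LinearMap.range (D x)) ≤
      finrank K (LinearMap.range (D (x + t • (y - x)))) := e0.symm.trans_le h1
  have hx' : LinearMap.range (D x) = ⊤ := LinearMap.range_eq_top.2 hx
  rw [hx', finrank_top] at h2
  exact LinearMap.range_eq_top.1
    (Submodule.eq_top_of_finrank_eq (le_antisymm (Submodule.finrank_le _) h2))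

end lineopen

section sys

variable {K : Type*} [Field K] {A : Type*} [Ring A] [Algebra K A]
variable {P Q N : Type*}
variable [AddCommGroup P] [Module K P] [Module A P] [IsScalarTower K A P]
variable [AddCommGroup Q] [Module K Q] [Module A Q] [IsScalarTower K A Q]
variable [AddCommGroup N] [Module K N] [Module A N] [IsScalarTower K A N]

theorem sysPos_line (k δ : ℕ) (G : Fin δ → Fin k → Q) (x y : P →ₗ[A] Q) :
    PolyMap (fun t : K => sysPos k δ (homF K P Q N) (evB K Q N) (x + t • (y - x)) G) := by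
  have h : ∀ t : K, sysPos k δ (homF K P Q N) (evB K Q N) (x + t • (y - x)) G =
      sysPos k δ (homF K P Q N) (evB K Q N) x G +
        t • sysPos k δ (homF K P Q N) (evB K Q N) (y - x) 0 := by
    intro t
    refine LinearMap.ext fun φ => ?_
    rw [LinearMap.add_apply, LinearMap.smul_apply, sysPos_apply, sysPos_apply, sysPos_apply]
    refine Prod.ext ?_ ?_
    · funext i
      simp only [map_add, map_smul, LinearMap.add_apply, LinearMap.smul_apply, Prod.fst_add,
        Prod.smul_fst, Pi.add_apply, Pi.smul_apply]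
    · funext i
      simp only [Prod.snd_add, Prod.smul_snd, Pi.add_apply, Pi.smul_apply, Pi.zero_apply, map_zero,
        LinearMap.zero_apply, Finset.sum_const_zero, smul_zero, add_zero]
  simp only [h]
  exact (PolyMap.const _).add (PolyMap.id.smul (PolyMap.const _))

theorem sysNeg_line (k δ : ℕ) (G : Fin δ → Fin k → (P →ₗ[A] A)) (x y : P →ₗ[A] Q) :
    PolyMap (fun t : K => sysNeg k δ (homF K P Q N) (etaB K P N) (x + t • (y - x)) G) := by
  have h : ∀ t : K, sysNeg k δ (homF K P Q N) (etaB K P N) (x + t • (y - x)) G =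
      sysNeg k δ (homF K P Q N) (etaB K P N) x G +
        t • sysNeg k δ (homF K P Q N) (etaB K P N) (y - x) 0 := by
    intro t
    refine LinearMap.ext fun φ => ?_
    rw [LinearMap.add_apply, LinearMap.smul_apply, sysNeg_apply, sysNeg_apply, sysNeg_apply]
    funext i
    simp only [map_add, map_smul, LinearMap.add_apply, LinearMap.smul_apply, Pi.add_apply,
      Pi.smul_apply, Pi.zero_apply, map_zero, LinearMap.zero_apply, Finset.sum_const_zero,
      add_zero]
    abel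
  simp only [h]
  exact (PolyMap.const _).add (PolyMap.id.smul (PolyMap.const _))

/-- The maps for which the negative system is surjective. -/
def negSet (K : Type*) [Field K] {A : Type*} [Ring A] [Algebra K A] (P Q N : Type*)
    [AddCommGroup P] [Module K P] [Module A P] [IsScalarTower K A P]
    [AddCommGroup Q] [Module K Q] [Module A Q] [IsScalarTower K A Q]
    [AddCommGroup N] [Module K N] [Module A N] [IsScalarTower K A N] (k δ : ℕ)
    (G : Fin δ → Fin k → (P →ₗ[A] A)) : Set (P →ₗ[A] Q) :=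
  {f | Function.Surjective (sysNeg k δ (homF K P Q N) (etaB K P N) f G)}

theorem lineOpen_negSet [FiniteDimensional K (Q →ₗ[A] N)] [FiniteDimensional K (P →ₗ[A] N)]
    [FiniteDimensional K N] (k δ : ℕ) (G : Fin δ → Fin k → (P →ₗ[A] A)) :
    LineOpen K (negSet K P Q N k δ G) :=
  lineOpen_surj _ (fun _ _ => sysNeg_line _ _ _ _ _)

/-- Lemma M in terms of the map `Hom (-, N)`. -/
theorem lemmaM_neg' [Infinite K] [FiniteDimensional K (Q →ₗ[A] N)]
    [FiniteDimensional K (P →ₗ[A] N)] [FiniteDimensional K N] {k δ : ℕ} (hk : finrank K N = k)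
    (hδ : finrank K (P →ₗ[A] N) = finrank K (Q →ₗ[A] N) + δ) (f : P →ₗ[A] Q)
    (ha : ∀ φ : Q →ₗ[A] N, φ ∘ₗ f = 0 → φ ≠ 0 → ∀ ψ : (P →ₗ[A] N) →ₗ[K] K, ψ ≠ 0 →
      ∃ g : P →ₗ[A] Q, ψ (φ ∘ₗ g) ≠ 0)
    (hb : ∀ ψ : (P →ₗ[A] N) →ₗ[K] K, (∀ φ : Q →ₗ[A] N, ψ (φ ∘ₗ f) = 0) → ψ ≠ 0 → ∀ n : N, n ≠ 0 →
      ∃ u : P →ₗ[A] A, ψ (sm u n) ≠ 0) :
    ∃ (x : P →ₗ[A] Q) (G : Fin δ → Fin k → (P →ₗ[A] A)), x ∈ negSet K P Q N k δ G ∧
      PreBij (negMap k δ x G) N := by
  obtain ⟨x, G, hxG⟩ := lemmaM_neg (K := K) (V := N) (k := k) hk hδ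
    (homF K P Q N) (etaB K P N) f
    (fun φ hφ hφ0 ψ _ hψ0 => ha φ hφ hφ0 ψ hψ0)
    (fun ψ hψ hψ0 v hv => hb ψ hψ hψ0 v hv)
  exact ⟨x, G, hxG.2, (preBij_negMap (K := K) _ _ x G).2 hxG⟩

theorem preBij_of_mem_negSet [FiniteDimensional K (Q →ₗ[A] N)] [FiniteDimensional K (P →ₗ[A] N)]
    [FiniteDimensional K N] {k δ : ℕ} (hk : finrank K N = k)
    (hδ : finrank K (P →ₗ[A] N) = finrank K (Q →ₗ[A] N) + δ) {G : Fin δ → Fin k → (P →ₗ[A] A)}
    {f : P →ₗ[A] Q} (hf : f ∈ negSet K P Q N k δ G) : PreBij (negMap k δ f G) N := by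
  refine (preBij_negMap (K := K) _ _ f G).2
    ⟨(LinearMap.injective_iff_surjective_of_finrank_eq_finrank ?_).2 hf, hf⟩
  rw [Module.finrank_prod, Module.finrank_pi_fintype, Module.finrank_pi_fintype,
    Module.finrank_pi_fintype]
  simp only [Finset.sum_const, Finset.card_univ, Fintype.card_fin, smul_eq_mul, hδ, hk]
  ring

omit [Module K P] [IsScalarTower K A P] [Module K Q] [IsScalarTower K A Q] [Module K N]
  [IsScalarTower K A N] [Algebra K A] [Field K] in
theorem eq_zero_of_preBij_neg {k δ : ℕ} (hk : 0 < k) {G : Fin δ → Fin k → (P →ₗ[A] A)}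
    {f : P →ₗ[A] Q} (h : PreBij (negMap k δ f G) N) {φ : Q →ₗ[A] N} (hφ : φ ∘ₗ f = 0) : φ = 0 := by
  have h1 : (φ ∘ₗ LinearMap.proj ⟨0, hk⟩ ∘ₗ LinearMap.fst A (Fin k → Q) (Fin δ → A)) ∘ₗ
      negMap k δ f G = 0 ∘ₗ negMap k δ f G := by
    ext z
    have := LinearMap.congr_fun hφ
    simp only [LinearMap.comp_apply, LinearMap.zero_apply] at this
    simp only [LinearMap.comp_apply, negMap_apply, LinearMap.fst_apply, LinearMap.proj_apply,
      LinearMap.zero_apply, this]
  have h2 := h.1 h1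
  ext q
  have h3 := LinearMap.congr_fun h2 (fun _ => q, 0)
  simpa using h3

end sys

section key

variable {K : Type v} [Field K] [Infinite K] {A : Type u} [Ring A] [Algebra K A]
  [FiniteDimensional K A] {n : ℕ} {e : Fin n → A}
variable {P Q : Type u}
variable [AddCommGroup P] [Module K P] [Module A P] [IsScalarTower K A P]
variable [AddCommGroup Q] [Module K Q] [Module A Q] [IsScalarTower K A Q]
variable [FiniteDimensional K P] [FiniteDimensional K Q] [Module.Finite A P] [Module.Finite A Q]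
  [Module.Projective A P] [Module.Projective A Q]

/-- The first condition of Lemma M. -/
theorem minQuot_ha {f : P →ₗ[A] Q} {R : Submodule A Q} (hR : MinQuot K f R)
    (φ : Q →ₗ[A] (Q ⧸ R)) (hφ : homF K P Q (Q ⧸ R) f φ = 0) (hφ0 : φ ≠ 0)
    (ψ : (P →ₗ[A] (Q ⧸ R)) →ₗ[K] K) (hψ0 : ψ ≠ 0) :
    ∃ g, ψ (homF K P Q (Q ⧸ R) g φ) ≠ 0 := by
  have hs := hR.surj φ hφ hφ0
  obtain ⟨k, hk⟩ : ∃ k, ψ k ≠ 0 := by
    by_contra hc
    push Not at hc
    exact hψ0 (LinearMap.ext hc)
  obtain ⟨g, hg⟩ := Module.projective_lifting_property φ k hs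
  exact ⟨g, by rw [homF_apply, hg]; exact hk⟩

theorem exists_set_pos {m : ℕ}
    {Cls : Fin m → ∀ (N : Type u) [AddCommGroup N] [Module A N], Prop}
    (hC : ∀ (i : Fin m) (N N' : Type u) [AddCommGroup N] [Module A N] [AddCommGroup N']
      [Module A N'] (P Q : Type u) [AddCommGroup P] [Module A P] [AddCommGroup Q] [Module A Q],
      IsStd e P → IsStd e Q → ∀ x y : P →ₗ[A] Q, Cls i N → Cls i N' → PreBij x N → PreBij y N' →
        PreBij x N')
    (he : CompleteOrthogonalIdempotents e) (hP : IsStd e P) (hQ : IsStd e Q)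
    {f : P →ₗ[A] Q} {R : Submodule A Q} (hR : MinQuot K f R) {i : Fin m} (hi : Cls i (Q ⧸ R))
    {δ : ℕ} (hδ : finrank K (Q →ₗ[A] (Q ⧸ R)) = finrank K (P →ₗ[A] (Q ⧸ R)) + δ) :
    ∃ T : Set (P →ₗ[A] Q), LineOpen K T ∧ T.Nonempty ∧ ∀ f' ∈ T, ∀ R' : Submodule A Q,
      MinQuot K f' R' → Cls i (Q ⧸ R') → finrank K (Q ⧸ R') = finrank K (Q ⧸ R) →
      finrank K (Q →ₗ[A] (Q ⧸ R')) = finrank K (Q →ₗ[A] (Q ⧸ R)) →
      finrank K (P →ₗ[A] (Q ⧸ R')) = finrank K (P →ₗ[A] (Q ⧸ R)) → False := by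
  classical
  have hfin : ∀ R : Submodule A Q, FiniteDimensional K (Q ⧸ R) := fun R =>
    Module.Finite.of_surjective (R.mkQ.restrictScalars K) (Submodule.mkQ_surjective R)
  haveI := hfin R
  haveI : FiniteDimensional K (Q →ₗ[A] (Q ⧸ R)) := finite_hom
  haveI : FiniteDimensional K (P →ₗ[A] (Q ⧸ R)) := finite_hom
  obtain ⟨x, G, hxG⟩ := lemmaM_pos (K := K) (V := Q ⧸ R) (k := finrank K (Q ⧸ R)) rfl hδ
    (homF K P Q (Q ⧸ R)) (evB K Q (Q ⧸ R)) f
    (fun φ hφ hφ0 ψ _ hψ0 => minQuot_ha hR φ hφ hφ0 ψ hψ0)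
    (fun φ hφ hφ0 v => hR.surj φ hφ hφ0 v)
  refine ⟨{f' | Function.Surjective (sysPos (finrank K (Q ⧸ R)) δ (homF K P Q (Q ⧸ R))
    (evB K Q (Q ⧸ R)) f' G)}, lineOpen_surj _ (fun x y => sysPos_line _ _ _ _ _), ⟨x, hxG.2⟩, ?_⟩
  intro f' hf' R' hR' hi' hk hU hW
  haveI := hfin R'
  haveI : FiniteDimensional K (Q →ₗ[A] (Q ⧸ R')) := finite_hom
  haveI : FiniteDimensional K (P →ₗ[A] (Q ⧸ R')) := finite_hom
  obtain ⟨x', G', hxG'⟩ := lemmaM_pos (K := K) (V := Q ⧸ R') (k := finrank K (Q ⧸ R)) (δ := δ) hk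
    (by rw [hU, hW, hδ])
    (homF K P Q (Q ⧸ R')) (evB K Q (Q ⧸ R')) f'
    (fun φ hφ hφ0 ψ _ hψ0 => minQuot_ha hR' φ hφ hφ0 ψ hψ0)
    (fun φ hφ hφ0 v => hR'.surj φ hφ hφ0 v)
  have hb : Function.Bijective (sysPos (finrank K (Q ⧸ R)) δ (homF K P Q (Q ⧸ R))
      (evB K Q (Q ⧸ R)) f' G) := by
    refine ⟨(LinearMap.injective_iff_surjective_of_finrank_eq_finrank ?_).2 hf', hf'⟩
    rw [Module.finrank_prod, Module.finrank_pi_fintype, Module.finrank_pi_fintype,
      Module.finrank_pi_fintype]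
    simp only [Finset.sum_const, Finset.card_univ, Fintype.card_fin, smul_eq_mul, hδ]
    ring
  have h1 := (preBij_posMap (K := K) (N := Q ⧸ R) _ _ f' G).2 hb
  have h2 := (preBij_posMap (K := K) (N := Q ⧸ R') _ _ x' G').2 hxG'
  have h3 := hC i (Q ⧸ R) (Q ⧸ R') ((Fin (finrank K (Q ⧸ R)) → P) × (Fin δ → A))
    (Fin (finrank K (Q ⧸ R)) → Q) (isStd_prod (isStd_pow hP _) (isStd_pow (isStd_self he) _))
    (isStd_pow hQ _) _ _ hi hi' h1 h2
  have h4 := (preBij_posMap (K := K) (N := Q ⧸ R') _ _ f' G).1 h3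
  -- surjectivity contradicts the existence of the functional
  obtain ⟨ψ, hψ, hψ0⟩ := hR'.exi
  have hpos : 0 < finrank K (Q ⧸ R) := by
    rw [← hk]
    haveI : Nontrivial (Q ⧸ R') := Submodule.Quotient.nontrivial_iff.2 hR'.ne_top
    exact Module.finrank_pos
  apply hψ0
  ext w
  obtain ⟨φ, hφ⟩ := h4.2 (fun _ => w, 0)
  rw [sysPos_apply] at hφ
  have h5 := congrFun (congrArg Prod.fst hφ) ⟨0, hpos⟩
  simp only [homF_apply] at h5
  rw [← h5, LinearMap.zero_apply]
  exact hψ _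

theorem exists_set_neg {m : ℕ}
    {Cls : Fin m → ∀ (N : Type u) [AddCommGroup N] [Module A N], Prop}
    (hC : ∀ (i : Fin m) (N N' : Type u) [AddCommGroup N] [Module A N] [AddCommGroup N']
      [Module A N'] (P Q : Type u) [AddCommGroup P] [Module A P] [AddCommGroup Q] [Module A Q],
      IsStd e P → IsStd e Q → ∀ x y : P →ₗ[A] Q, Cls i N → Cls i N' → PreBij x N → PreBij y N' →
        PreBij x N')
    (he : CompleteOrthogonalIdempotents e) (hP : IsStd e P) (hQ : IsStd e Q)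
    {f : P →ₗ[A] Q} {R : Submodule A Q} (hR : MinQuot K f R) {i : Fin m} (hi : Cls i (Q ⧸ R))
    {δ : ℕ} (hδ : finrank K (P →ₗ[A] (Q ⧸ R)) = finrank K (Q →ₗ[A] (Q ⧸ R)) + δ) :
    ∃ T : Set (P →ₗ[A] Q), LineOpen K T ∧ T.Nonempty ∧ ∀ f' ∈ T, ∀ R' : Submodule A Q,
      MinQuot K f' R' → Cls i (Q ⧸ R') → finrank K (Q ⧸ R') = finrank K (Q ⧸ R) →
      finrank K (Q →ₗ[A] (Q ⧸ R')) = finrank K (Q →ₗ[A] (Q ⧸ R)) →
      finrank K (P →ₗ[A] (Q ⧸ R')) = finrank K (P →ₗ[A] (Q ⧸ R)) → False := by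
  classical
  have hfin : ∀ R : Submodule A Q, FiniteDimensional K (Q ⧸ R) := fun R =>
    Module.Finite.of_surjective (R.mkQ.restrictScalars K) (Submodule.mkQ_surjective R)
  haveI := hfin R
  haveI : FiniteDimensional K (Q →ₗ[A] (Q ⧸ R)) := finite_hom
  haveI : FiniteDimensional K (P →ₗ[A] (Q ⧸ R)) := finite_hom
  obtain ⟨x, G, hxG, -⟩ := lemmaM_neg' (K := K) (N := Q ⧸ R) (k := finrank K (Q ⧸ R)) rfl hδ f
    (fun φ hφ hφ0 ψ hψ0 => minQuot_ha hR φ hφ hφ0 ψ hψ0) hR.inj
  refine ⟨negSet K P Q (Q ⧸ R) (finrank K (Q ⧸ R)) δ G, lineOpen_negSet _ _ _, ⟨x, hxG⟩, ?_⟩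
  intro f' hf' R' hR' hi' hk hU hW
  haveI := hfin R'
  haveI : FiniteDimensional K (Q →ₗ[A] (Q ⧸ R')) := finite_hom
  haveI : FiniteDimensional K (P →ₗ[A] (Q ⧸ R')) := finite_hom
  obtain ⟨x', G', -, h2⟩ := lemmaM_neg' (K := K) (N := Q ⧸ R') (k := finrank K (Q ⧸ R)) (δ := δ)
    hk (by rw [hU, hW, hδ]) f'
    (fun φ hφ hφ0 ψ hψ0 => minQuot_ha hR' φ hφ hφ0 ψ hψ0) hR'.inj
  have h1 := preBij_of_mem_negSet (K := K) rfl hδ hf'
  have h3 := hC i (Q ⧸ R) (Q ⧸ R') (Fin (finrank K (Q ⧸ R)) → P)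
    ((Fin (finrank K (Q ⧸ R)) → Q) × (Fin δ → A)) (isStd_pow hP _)
    (isStd_prod (isStd_pow hQ _) (isStd_pow (isStd_self he) _)) _ _ hi hi' h1 h2
  have hpos : 0 < finrank K (Q ⧸ R) := by
    rw [← hk]
    haveI : Nontrivial (Q ⧸ R') := Submodule.Quotient.nontrivial_iff.2 hR'.ne_top
    exact Module.finrank_pos
  have h5 : R'.mkQ ∘ₗ f' = 0 := by
    ext z
    rw [LinearMap.comp_apply, LinearMap.zero_apply, Submodule.mkQ_apply,
      Submodule.Quotient.mk_eq_zero]
    exact hR'.map_mem z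
  have h8 := eq_zero_of_preBij_neg hpos h3 h5
  apply hR'.ne_top
  rw [← Submodule.ker_mkQ R', h8]
  exact LinearMap.ker_zero

end key

theorem rigid_of_classes (K : Type v) [Field K] [Infinite K] {A : Type u} [Ring A] [Algebra K A]
    [FiniteDimensional K A] {n : ℕ} {e : Fin n → A} (he : CompleteOrthogonalIdempotents e)
    (h : HasClasses K e) (P Q : Type u) [AddCommGroup P] [Module A P] [AddCommGroup Q]
    [Module A Q] (hP : IsStd e P) (hQ : IsStd e Q) : ∃ f : P →ₗ[A] Q, Rigid f := by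
  classical
  by_contra hno
  push Not at hno
  haveI := isStd_finite hP
  haveI := isStd_finite hQ
  haveI := isStd_projective he hP
  haveI := isStd_projective he hQ
  letI : Module K P := Module.compHom P (algebraMap K A)
  haveI := tower_compHom (A := A) K P
  letI : Module K Q := Module.compHom Q (algebraMap K A)
  haveI := tower_compHom (A := A) K Q
  haveI : FiniteDimensional K P := Module.Finite.trans A P
  haveI : FiniteDimensional K Q := Module.Finite.trans A Q
  choose R hR using fun f : P →ₗ[A] Q => exists_minQuot (K := K) (hno f)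
  have hfin : ∀ R : Submodule A Q, FiniteDimensional K (Q ⧸ R) := fun R =>
    Module.Finite.of_surjective (R.mkQ.restrictScalars K) (Submodule.mkQ_surjective R)
  have hle : ∀ R : Submodule A Q, finrank K (Q ⧸ R) ≤ finrank K Q := fun R =>
    LinearMap.finrank_le_finrank_of_surjective (f := R.mkQ.restrictScalars K)
      (Submodule.mkQ_surjective R)
  obtain ⟨m, Cls, hc1, hc2⟩ := h (finrank K Q)
  choose i hi using fun f => hc1 (Q ⧸ R f) (by rw [kdim_eq K (Q ⧸ R f)]; exact hle _)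
  have hhom : ∀ (X : Type u) [AddCommGroup X] [Module K X] [Module A X] [IsScalarTower K A X]
      [FiniteDimensional K X] (R : Submodule A Q),
      finrank K (X →ₗ[A] (Q ⧸ R)) ≤ finrank K X * finrank K Q := by
    intro X _ _ _ _ _ R
    haveI := hfin R
    haveI : FiniteDimensional K (X →ₗ[A] (Q ⧸ R)) := finite_hom
    have h1 := LinearMap.finrank_le_finrank_of_injective (R := K)
      (f := LinearMap.restrictScalarsₗ K A X (Q ⧸ R) K)
      (LinearMap.restrictScalars_injective K)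
    have h2 : finrank K (X →ₗ[K] (Q ⧸ R)) = finrank K X * finrank K (Q ⧸ R) :=
      Module.finrank_linearMap K K X (Q ⧸ R)
    rw [h2] at h1
    exact h1.trans (Nat.mul_le_mul_left _ (hle R))
  let code : (P →ₗ[A] Q) → Fin m × ℕ × ℕ × ℕ := fun f =>
    (i f, finrank K (Q ⧸ R f), finrank K (Q →ₗ[A] (Q ⧸ R f)), finrank K (P →ₗ[A] (Q ⧸ R f)))
  have hcode : (Set.range code).Finite := by
    refine ((Set.finite_univ (α := Fin m)).prod ((Set.finite_Iic (finrank K Q)).prod
      ((Set.finite_Iic (finrank K Q * finrank K Q)).prod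
        (Set.finite_Iic (finrank K P * finrank K Q))))).subset ?_
    rintro _ ⟨f, rfl⟩
    exact ⟨Set.mem_univ _, hle _, hhom Q _, hhom P _⟩
  have key : ∀ f : P →ₗ[A] Q, ∃ T : Set (P →ₗ[A] Q), LineOpen K T ∧ T.Nonempty ∧
      ∀ f' ∈ T, code f' = code f → False := by
    intro f
    rcases le_total (finrank K (P →ₗ[A] (Q ⧸ R f))) (finrank K (Q →ₗ[A] (Q ⧸ R f))) with hh | hh
    · obtain ⟨δ, hδ⟩ := Nat.exists_eq_add_of_le hh
      obtain ⟨T, h1, h2, h3⟩ := exists_set_pos hc2 he hP hQ (hR f) (hi f) hδ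
      refine ⟨T, h1, h2, fun f' hf' hcc => ?_⟩
      simp only [code, Prod.mk.injEq] at hcc
      refine h3 f' hf' (R f') (hR f') ?_ hcc.2.1 hcc.2.2.1 hcc.2.2.2
      rw [← hcc.1]
      exact hi f'
    · obtain ⟨δ, hδ⟩ := Nat.exists_eq_add_of_le hh
      obtain ⟨T, h1, h2, h3⟩ := exists_set_neg hc2 he hP hQ (hR f) (hi f) hδ
      refine ⟨T, h1, h2, fun f' hf' hcc => ?_⟩
      simp only [code, Prod.mk.injEq] at hcc
      refine h3 f' hf' (R f') (hR f') ?_ hcc.2.1 hcc.2.2.1 hcc.2.2.2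
      rw [← hcc.1]
      exact hi f'
  choose T hT1 hT2 hT3 using key
  have hrep : ∀ c : Fin m × ℕ × ℕ × ℕ, ∃ f : P →ₗ[A] Q, c ∈ Set.range code → code f = c := by
    intro c
    by_cases hcr : c ∈ Set.range code
    · obtain ⟨f, hf⟩ := hcr
      exact ⟨f, fun _ => hf⟩
    · exact ⟨0, fun h => absurd h hcr⟩
  choose r hr using hrep
  obtain ⟨f, hf⟩ := LineOpen.exists_mem (K := K) hcode.toFinset (fun c => T (r c))
    (fun c _ => hT1 _) (fun c _ => hT2 _)
  have h1 : code f ∈ Set.range code := ⟨f, rfl⟩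
  exact hT3 _ f (hf (code f) (hcode.mem_toFinset.2 h1)) (hr _ h1).symm

end Pool.Agent.H13.MF
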