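import Pool.Agent.H51.T2.Main

/-! Vanishing conditions for two-term complexes, traces, bricks. -/

set_option linter.unusedSectionVars false

universe u v

namespace Pool.Agent.H13.MF

open Module Pool.Agent.H51.T2

variable {A : Type*} [Ring A]
variable {P Q : Type*} [AddCommGroup P] [Module A P] [AddCommGroup Q] [Module A Q]

/-- `Hom (f, N)` is surjective, that is `E (f, N) = 0`. -/
def E0 (f : P →ₗ[A] Q) (N : Type*) [AddCommGroup N] [Module A N] : Prop :=
  ∀ k : P →ₗ[A] N, ∃ φ : Q →ₗ[A] N, k = φ ∘ₗ f

/-- `Hom (f, N)` is injective, that is `Hom (Coker f, N) = 0`. -/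
def H0 (f : P →ₗ[A] Q) (N : Type*) [AddCommGroup N] [Module A N] : Prop :=
  ∀ φ : Q →ₗ[A] N, φ ∘ₗ f = 0 → φ = 0

/-- The trace of `M` in `X`: the sum of the images of all homomorphisms `M → X`. -/
def trc (A : Type*) [Ring A] (M X : Type*) [AddCommGroup M] [Module A M] [AddCommGroup X]
    [Module A X] : Submodule A X :=
  ⨆ φ : M →ₗ[A] X, LinearMap.range φ

/-- `X` belongs to the torsion class generated by `B`: every nonzero quotient of `X` receives a
nonzero homomorphism from `B`. -/
def InT (A : Type*) [Ring A] (B X : Type*) [AddCommGroup B] [Module A B] [AddCommGroup X]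
    [Module A X] : Prop :=
  ∀ U : Submodule A X, U ≠ ⊤ → ∃ φ : B →ₗ[A] (X ⧸ U), φ ≠ 0

/-- A brick: a nonzero module all of whose nonzero endomorphisms are bijective. -/
def IsBrick (A : Type*) [Ring A] (B : Type*) [AddCommGroup B] [Module A B] : Prop :=
  Nontrivial B ∧ ∀ φ : B →ₗ[A] B, φ ≠ 0 → Function.Bijective φ

/-- The sum of the images of all endomorphisms of `N` which are not bijective. -/
def radImage (A : Type*) [Ring A] (N : Type*) [AddCommGroup N] [Module A N] : Submodule A N :=
  ⨆ r : {r : N →ₗ[A] N // ¬ Function.Bijective r}, LinearMap.range r.1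

end Pool.Agent.H13.MF
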