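import Pool.Agent.H13.MF.BBase

/-! Two descents based on the strict inequality for rigid maps. -/

set_option linter.unusedSectionVars false

universe u v

namespace Pool.Agent.H13.MF

open Module Pool.Agent.H51.T2

variable {A : Type*} [Ring A]
variable {P₁ Q₁ P₂ Q₂ : Type*}
variable [AddCommGroup P₁] [Module A P₁] [AddCommGroup Q₁] [Module A Q₁]
variable [AddCommGroup P₂] [Module A P₂] [AddCommGroup Q₂] [Module A Q₂]

/-- Choose a rigid map `m c` of every class `c`. For every property `p` of classes that holds for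
`(1, 0)` and does not hold for `(0, 1)` there are compatible classes `u`, `v` of determinant `1`
such that `p u` holds and `p v` does not hold; and `u` is bounded independently of `p`. -/
theorem exists_window (K : Type*) [Field K] [Infinite K] [Algebra K A]
    [Module K P₁] [IsScalarTower K A P₁] [Module K Q₁] [IsScalarTower K A Q₁]
    [Module K P₂] [IsScalarTower K A P₂] [Module K Q₂] [IsScalarTower K A Q₂]
    [FiniteDimensional K P₁] [FiniteDimensional K Q₁]
    [FiniteDimensional K P₂] [FiniteDimensional K Q₂]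
    (m : ∀ c : ℕ × ℕ, Ob A P₁ Q₁ P₂ Q₂ c.1 c.2) (hm : ∀ c, Rigid (m c)) :
    ∃ N : ℕ, ∀ p : ℕ × ℕ → Prop, p (1, 0) → ¬ p (0, 1) →
      ∃ u v : ℕ × ℕ, u.1 + u.2 ≤ N ∧ p u ∧ ¬ p v ∧ u.1 * v.2 = u.2 * v.1 + 1 ∧
        EZero (m u) (m v) ∧ EZero (m v) (m u) := by
  have key : ∀ (p : ℕ × ℕ → Prop) (n : ℕ) (M : ℕ) (u v : ℕ × ℕ),
      ee K (m u) (m v) + ee K (m v) (m u) < n → u.1 + u.2 ≤ M → v.1 + v.2 ≤ M →
      p u → ¬ p v → u.1 * v.2 = u.2 * v.1 + 1 →
      ∃ u v : ℕ × ℕ, u.1 + u.2 ≤ 2 ^ n * M ∧ p u ∧ ¬ p v ∧ u.1 * v.2 = u.2 * v.1 + 1 ∧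
        EZero (m u) (m v) ∧ EZero (m v) (m u) := by
    intro p n
    induction n with
    | zero => intro M u v h; exact absurd h (Nat.not_lt_zero _)
    | succ n ih =>
      intro M u v h hu hv pu pv hdet
      by_cases hc : EZero (m u) (m v) ∧ EZero (m v) (m u)
      · refine ⟨u, v, hu.trans ?_, pu, pv, hdet, hc.1, hc.2⟩
        exact Nat.le_mul_of_pos_left M (by positivity)
      · obtain ⟨h1, h2⟩ := strict_ob (K := K) (m := m (u.1 + v.1, u.2 + v.2)) (hm u) (hm v)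
          (hm (u.1 + v.1, u.2 + v.2)) hc
        by_cases hp : p (u.1 + v.1, u.2 + v.2)
        · obtain ⟨u', v', h3, h4⟩ := ih (2 * M) (u.1 + v.1, u.2 + v.2) v (by omega)
            (by simp only; omega) (by omega) hp pv (by simp only; nlinarith [hdet])
          refine ⟨u', v', h3.trans (le_of_eq ?_), h4⟩
          ring
        · obtain ⟨u', v', h3, h4⟩ := ih (2 * M) u (u.1 + v.1, u.2 + v.2) (by omega)
            (by omega) (by simp only; omega) pu hp (by simp only; nlinarith [hdet])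
          refine ⟨u', v', h3.trans (le_of_eq ?_), h4⟩
          ring
  refine ⟨2 ^ (ee K (m (1, 0)) (m (0, 1)) + ee K (m (0, 1)) (m (1, 0)) + 1) * 1,
    fun p h1 h2 => ?_⟩
  exact key p _ 1 (1, 0) (0, 1) (Nat.lt_succ_self _) (by simp) (by simp) h1 h2 (by simp)

/-- For every rigid `g` of class `(a, b)` with `b > 0` there is a compatible rigid map of smaller
slope. -/
theorem exists_compatible_below (K : Type*) [Field K] [Infinite K] [Algebra K A]
    [Module K P₁] [IsScalarTower K A P₁] [Module K Q₁] [IsScalarTower K A Q₁]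
    [Module K P₂] [IsScalarTower K A P₂] [Module K Q₂] [IsScalarTower K A Q₂]
    [FiniteDimensional K P₁] [FiniteDimensional K Q₁]
    [FiniteDimensional K P₂] [FiniteDimensional K Q₂]
    (hyp : ∀ a b : ℕ, ∃ f : Ob A P₁ Q₁ P₂ Q₂ a b, Rigid f) {a b : ℕ} (hb : 0 < b)
    (g : Ob A P₁ Q₁ P₂ Q₂ a b) (hg : Rigid g) :
    ∃ (a₁ b₁ : ℕ) (f : Ob A P₁ Q₁ P₂ Q₂ a₁ b₁), Rigid f ∧ EZero f g ∧ EZero g f ∧
      a * b₁ < a₁ * b := by
  have key : ∀ (n : ℕ) (a₁ b₁ : ℕ) (f : Ob A P₁ Q₁ P₂ Q₂ a₁ b₁), Rigid f →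
      ee K f g + ee K g f < n → a * b₁ < a₁ * b →
      ∃ (a₁ b₁ : ℕ) (f : Ob A P₁ Q₁ P₂ Q₂ a₁ b₁), Rigid f ∧ EZero f g ∧ EZero g f ∧
        a * b₁ < a₁ * b := by
    intro n
    induction n with
    | zero => intro a₁ b₁ f _ h; exact absurd h (Nat.not_lt_zero _)
    | succ n ih =>
      intro a₁ b₁ f hf h hlt
      by_cases hc : EZero f g ∧ EZero g f
      · exact ⟨a₁, b₁, f, hf, hc.1, hc.2, hlt⟩
      · obtain ⟨m, hm⟩ := hyp (a₁ + a) (b₁ + b)
        obtain ⟨h1, h2⟩ := strict_ob (K := K) hf hg hm hc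
        exact ih (a₁ + a) (b₁ + b) m hm (by omega) (by nlinarith [hlt])
  obtain ⟨f, hf⟩ := hyp 1 0
  exact key _ 1 0 f hf (Nat.lt_succ_self _) (by simpa using hb)

end Pool.Agent.H13.MF
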