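import Pool.Agent.H13.MF.BBase

/-! Fitting's lemma for two-term complexes. -/

set_option linter.unusedSectionVars false

universe u v

namespace Pool.Agent.H13.MF

open Module Pool.Agent.H51.T2

theorem fitting_pair {A : Type u} [Ring A] {P Q : Type u} [AddCommGroup P] [Module A P]
    [AddCommGroup Q] [Module A Q] [IsNoetherian A P] [IsArtinian A P] [IsNoetherian A Q]
    [IsArtinian A Q] [Module.Projective A P] [Module.Projective A Q] (f : P →ₗ[A] Q) :
    (∀ r : Coker f →ₗ[A] Coker f, IsNilpotent r ∨ Function.Bijective r) ∨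
    ∃ (P₁ P₂ : Submodule A P) (Q₁ Q₂ : Submodule A Q) (f₁ : P₁ →ₗ[A] Q₁) (f₂ : P₂ →ₗ[A] Q₂),
      IsCompl P₁ P₂ ∧ IsCompl Q₁ Q₂ ∧ Iso f (f₁.prodMap f₂) ∧ (P₁ ≠ ⊥ ∨ Q₁ ≠ ⊥) ∧
      (P₂ ≠ ⊥ ∨ Q₂ ≠ ⊥) := by
  by_cases hall : ∀ r : Coker f →ₗ[A] Coker f, IsNilpotent r ∨ Function.Bijective r
  · exact Or.inl hall
  right
  push Not at hall
  obtain ⟨r, hr1, hr2⟩ := hall
  -- lift `r` to `Q`
  obtain ⟨t, ht⟩ := Module.projective_lifting_property (LinearMap.range f).mkQ
    (r ∘ₗ (LinearMap.range f).mkQ) (Submodule.mkQ_surjective _)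
  have ht' : ∀ x, (LinearMap.range f).mkQ (t x) = r ((LinearMap.range f).mkQ x) := fun x =>
    LinearMap.congr_fun ht x
  have hmem : ∀ x, (t ∘ₗ f) x ∈ LinearMap.range f := by
    intro x
    have h1 : (LinearMap.range f).mkQ (t (f x)) = 0 := by
      rw [ht' (f x)]
      have : (LinearMap.range f).mkQ (f x) = 0 := by
        rw [Submodule.mkQ_apply, Submodule.Quotient.mk_eq_zero]
        exact LinearMap.mem_range_self f x
      rw [this, map_zero]
    rwa [Submodule.mkQ_apply, Submodule.Quotient.mk_eq_zero] at h1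
  obtain ⟨s, hs⟩ := Module.projective_lifting_property f.rangeRestrict
    ((t ∘ₗ f).codRestrict (LinearMap.range f) hmem) f.surjective_rangeRestrict
  have hs' : ∀ x, f (s x) = t (f x) := by
    intro x
    have := congrArg Subtype.val (LinearMap.congr_fun hs x)
    simpa using this
  have hpow : ∀ (n : ℕ) (x : P), f ((s ^ n) x) = (t ^ n) (f x) := by
    intro n
    induction n with
    | zero => intro x; simp
    | succ n ih =>
      intro x
      rw [pow_succ, pow_succ, Module.End.mul_apply, Module.End.mul_apply, ih, hs']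
  have hpow' : ∀ (n : ℕ) (x : Q), (LinearMap.range f).mkQ ((t ^ n) x) =
      (r ^ n) ((LinearMap.range f).mkQ x) := by
    intro n
    induction n with
    | zero => intro x; simp
    | succ n ih =>
      intro x
      rw [pow_succ, pow_succ, Module.End.mul_apply, Module.End.mul_apply, ih, ht']
  -- the exponent
  have e1 := LinearMap.eventually_isCompl_ker_pow_range_pow s
  have e2 := LinearMap.eventually_isCompl_ker_pow_range_pow t
  obtain ⟨n, ⟨hn1, hn2⟩, hn3⟩ := ((e1.and e2).and (Filter.eventually_ge_atTop 1)).exists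
  have hk : ∀ x ∈ LinearMap.ker (s ^ n), f x ∈ LinearMap.ker (t ^ n) := by
    intro x hx
    rw [LinearMap.mem_ker] at hx ⊢
    rw [← hpow, hx, map_zero]
  have hr : ∀ x ∈ LinearMap.range (s ^ n), f x ∈ LinearMap.range (t ^ n) := by
    rintro x ⟨y, rfl⟩
    exact ⟨f y, (hpow n y).symm⟩
  refine ⟨LinearMap.ker (s ^ n), LinearMap.range (s ^ n), LinearMap.ker (t ^ n),
    LinearMap.range (t ^ n), f.restrict hk, f.restrict hr, hn1, hn2, ?_, Or.inr ?_, Or.inr ?_⟩
  · refine ⟨(Submodule.prodEquivOfIsCompl _ _ hn1).symm,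
      (Submodule.prodEquivOfIsCompl _ _ hn2).symm, ?_⟩
    ext1 x
    obtain ⟨y, rfl⟩ := (Submodule.prodEquivOfIsCompl _ _ hn1).surjective x
    simp only [LinearMap.comp_apply, LinearEquiv.coe_coe, LinearEquiv.symm_apply_apply]
    rw [LinearEquiv.eq_symm_apply]
    simp only [Submodule.coe_prodEquivOfIsCompl', LinearMap.prodMap_apply,
      LinearMap.coe_restrict_apply, map_add]
  · intro hbot
    apply hr2
    have h1 : Function.Surjective (t ^ n) := by
      rw [← LinearMap.range_eq_top]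
      have := hn2.sup_eq_top
      rwa [hbot, bot_sup_eq] at this
    have h2 : Function.Surjective t := by
      intro y
      obtain ⟨x, hx⟩ := h1 y
      obtain ⟨m, rfl⟩ : ∃ m, n = m + 1 := ⟨n - 1, by omega⟩
      refine ⟨(t ^ m) x, ?_⟩
      rw [← hx, pow_succ', Module.End.mul_apply]
    have h3 : Function.Surjective r := by
      intro y
      obtain ⟨z, rfl⟩ := Submodule.mkQ_surjective _ y
      obtain ⟨x, rfl⟩ := h2 z
      exact ⟨(LinearMap.range f).mkQ x, (ht' x).symm⟩
    exact IsNoetherian.bijective_of_surjective_endomorphism r h3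
  · intro hbot
    apply hr1
    refine ⟨n, ?_⟩
    refine LinearMap.ext fun y => ?_
    obtain ⟨z, rfl⟩ := Submodule.mkQ_surjective _ y
    rw [← hpow', LinearMap.zero_apply]
    have : t ^ n = 0 := LinearMap.range_eq_bot.1 hbot
    rw [this, LinearMap.zero_apply, map_zero]

end Pool.Agent.H13.MF
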