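import Pool.Agent.H13.MF.TRC

/-! The smallest quotient of `B` without homomorphisms from `Coker g` is the top of `Coker f`. -/

set_option linter.unusedSectionVars false

universe u v

namespace Pool.Agent.H13.MF

open Module Pool.Agent.H51.T2

theorem exists_top_quot {A : Type u} [Ring A] [IsNoetherianRing A] [IsArtinianRing A]
    {P Q P' Q' : Type u} [AddCommGroup P] [Module A P] [AddCommGroup Q] [Module A Q]
    [AddCommGroup P'] [Module A P'] [AddCommGroup Q'] [Module A Q']
    [Module.Finite A P] [Module.Finite A Q] [Module.Finite A P'] [Module.Finite A Q']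
    [Module.Projective A P] [Module.Projective A Q] [Module.Projective A P']
    [Module.Projective A Q'] (f : P →ₗ[A] Q) (g : P' →ₗ[A] Q')
    (h1 : E0 f (Coker f)) (h2 : E0 g (Coker f)) (h3 : E0 g (Coker g))
    (hnum : ∀ (Z : Type u) [AddCommGroup Z] [Module A Z] [Module.Finite A Z],
      H0 f Z → E0 g Z → Subsingleton Z)
    (hloc : ∀ r : Coker f →ₗ[A] Coker f, IsNilpotent r ∨ Function.Bijective r)
    (B : Type u) [AddCommGroup B] [Module A B] [Module.Finite A B] (hgB : E0 g B)
    (ht : trc A (Coker g) B ≠ ⊤) :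
    ∃ (V : Submodule A B) (φ : Coker f →ₗ[A] (B ⧸ V)), φ ≠ 0 ∧ Function.Surjective φ ∧
      LinearMap.ker φ = radImage A (Coker f) := by
  classical
  have : IsNoetherian A B := isNoetherian_of_isNoetherianRing_of_finite A B
  have : IsNoetherian A (Coker f) := isNoetherian_of_isNoetherianRing_of_finite A (Coker f)
  obtain ⟨V, ⟨hVt, hV0⟩, hmax⟩ := set_has_maximal_iff_noetherian.2 (inferInstance : IsNoetherian A B)
    {V : Submodule A B | V ≠ ⊤ ∧ H0 g (B ⧸ V)} ⟨_, ht, H0_quot_trc h3⟩
  have hgY : E0 g (B ⧸ V) := E0.quot hgB V.mkQ (Submodule.mkQ_surjective _)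
  -- (ii)
  have honto : ∀ φ : Coker f →ₗ[A] (B ⧸ V), φ ≠ 0 → Function.Surjective φ := by
    intro φ hφ
    by_contra hns
    let V' : Submodule A B := (LinearMap.range φ).comap V.mkQ
    have hVV' : V ≤ V' := by
      intro x hx
      have : V.mkQ x = 0 := by rwa [Submodule.mkQ_apply, Submodule.Quotient.mk_eq_zero]
      show V.mkQ x ∈ LinearMap.range φ
      rw [this]
      exact Submodule.zero_mem _
    have hV't : V' ≠ ⊤ := by
      intro h
      apply hns
      intro y
      obtain ⟨b, rfl⟩ := Submodule.mkQ_surjective V y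
      have : b ∈ V' := h ▸ Submodule.mem_top
      exact this
    have hlt : V < V' := by
      refine lt_of_le_of_ne hVV' fun h => hφ ?_
      refine LinearMap.ext fun x => ?_
      obtain ⟨b, hb⟩ := Submodule.mkQ_surjective V (φ x)
      have hb' : b ∈ V' := by
        show V.mkQ b ∈ LinearMap.range φ
        rw [hb]
        exact ⟨x, rfl⟩
      rw [← h] at hb'
      rw [LinearMap.zero_apply, ← hb, Submodule.mkQ_apply, Submodule.Quotient.mk_eq_zero]
      exact hb'
    refine hmax V' ⟨hV't, ?_⟩ hlt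
    rw [H0_iff]
    intro ψ
    have hker : LinearMap.ker (Submodule.factor hVV') = LinearMap.range φ := by
      ext y
      obtain ⟨b, rfl⟩ := Submodule.mkQ_surjective V y
      rw [LinearMap.mem_ker]
      show (Submodule.Quotient.mk b : B ⧸ V') = 0 ↔ _
      rw [Submodule.Quotient.mk_eq_zero]
      rfl
    have hE : E0 g (LinearMap.ker (Submodule.factor hVV')) := by
      rw [hker]
      exact E0.quot h2 φ.rangeRestrict φ.surjective_rangeRestrict
    obtain ⟨ψ', hψ'⟩ := exists_lift (Submodule.factor hVV') (Submodule.factor_surjective hVV')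
      hE ψ
    rw [← hψ', H0_iff.1 hV0 ψ', LinearMap.comp_zero]
  -- (iii)
  have htop : ∀ φ : Coker f →ₗ[A] (B ⧸ V), φ ≠ 0 →
      trc A (Coker f) (LinearMap.ker φ) = ⊤ := by
    intro φ hφ
    have hE : E0 g (LinearMap.ker φ) := E0_ker φ (honto φ hφ) h2 hV0
    have := hnum (LinearMap.ker φ ⧸ trc A (Coker f) (LinearMap.ker φ)) (H0_quot_trc h1)
      (E0.quot hE (Submodule.mkQ _) (Submodule.mkQ_surjective _))
    exact Submodule.Quotient.subsingleton_iff.1 this
  have hEf : ∀ φ : Coker f →ₗ[A] (B ⧸ V), φ ≠ 0 → E0 f (LinearMap.ker φ) :=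
    fun φ hφ => E0.of_trc_eq_top h1 (htop φ hφ)
  -- (iv)
  have hrad : ∀ φ : Coker f →ₗ[A] (B ⧸ V), φ ≠ 0 → ∀ j : Coker f →ₗ[A] Coker f,
      ¬ Function.Bijective j → φ ∘ₗ j = 0 := by
    intro φ hφ j hj
    by_contra hne
    obtain ⟨h, hh⟩ := exists_lift (φ ∘ₗ j) (honto _ hne) (hEf _ hne) φ
    have hnb : ¬ Function.Bijective (j ∘ₗ h) := by
      intro hb
      have hsurj : Function.Surjective j := fun y => by
        obtain ⟨x, hx⟩ := hb.2 y
        exact ⟨h x, hx⟩
      exact hj ⟨IsNoetherian.injective_of_surjective_endomorphism j hsurj, hsurj⟩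
    rcases hloc (j ∘ₗ h) with hn | hb
    · have hu : IsUnit (1 - (j ∘ₗ h) : Coker f →ₗ[A] Coker f) := IsNilpotent.isUnit_one_sub hn
      obtain ⟨w, hw⟩ := hu
      apply hφ
      have h0 : φ ∘ₗ (1 - (j ∘ₗ h)) = 0 := by
        ext x
        have := LinearMap.congr_fun hh ((LinearMap.range f).mkQ x)
        simp only [LinearMap.comp_apply] at this
        simp only [LinearMap.comp_apply, LinearMap.sub_apply, map_sub, Module.End.one_apply,
          LinearMap.zero_apply, this, sub_self]
      have h4 : φ = (φ ∘ₗ (1 - (j ∘ₗ h))) ∘ₗ ((w⁻¹ : (Module.End A (Coker f))ˣ) :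
          Coker f →ₗ[A] Coker f) := by
        have h5 : (1 - (j ∘ₗ h)) ∘ₗ ((w⁻¹ : (Module.End A (Coker f))ˣ) :
            Coker f →ₗ[A] Coker f) = LinearMap.id := by
          rw [← hw]
          exact w.mul_inv
        rw [LinearMap.comp_assoc, h5, LinearMap.comp_id]
      rw [h4, h0, LinearMap.zero_comp]
    · exact hnb hb
  -- (i)
  have hex : ∃ φ : Coker f →ₗ[A] (B ⧸ V), φ ≠ 0 := by
    by_contra hno
    have h0 : H0 f (B ⧸ V) := H0_iff.2 fun φ => by
      by_contra h
      exact hno ⟨φ, h⟩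
    exact hVt (Submodule.Quotient.subsingleton_iff.1 (hnum _ h0 hgY))
  obtain ⟨φ, hφ⟩ := hex
  refine ⟨V, φ, hφ, honto φ hφ, le_antisymm ?_ ?_⟩
  · have hle : ∀ x : LinearMap.ker φ, (x : Coker f) ∈ radImage A (Coker f) := by
      intro x
      have hx : x ∈ trc A (Coker f) (LinearMap.ker φ) := by
        rw [htop φ hφ]
        exact Submodule.mem_top
      have hle2 : trc A (Coker f) (LinearMap.ker φ) ≤
          (radImage A (Coker f)).comap (LinearMap.ker φ).subtype := by
        refine iSup_le fun χ => ?_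
        rintro _ ⟨y, rfl⟩
        have hnb : ¬ Function.Bijective ((LinearMap.ker φ).subtype ∘ₗ χ) := by
          intro hb
          apply hφ
          refine LinearMap.ext fun z => ?_
          obtain ⟨w, hw⟩ := hb.2 z
          rw [← hw]
          exact (χ w).2
        exact (le_iSup (fun r : {r : Coker f →ₗ[A] Coker f // ¬ Function.Bijective r} =>
          LinearMap.range r.1) ⟨_, hnb⟩) ⟨y, rfl⟩
      exact hle2 hx
    intro x hx
    exact hle ⟨x, hx⟩
  · refine iSup_le fun j => ?_
    rintro _ ⟨y, rfl⟩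
    exact LinearMap.congr_fun (hrad φ hφ j.1 j.2) y

end Pool.Agent.H13.MF
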