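import Pool.Agent.H13.MF.BBase

/-! A module with local endomorphism ring belongs to the torsion class generated by its top. -/

set_option linter.unusedSectionVars false
set_option linter.style.haveILetI false

universe u v

namespace Pool.Agent.H13.MF

open Module Pool.Agent.H51.T2

private theorem BLB_choose {K : Type v} [Field K] {A : Type u} [Ring A] [Algebra K A]
    {N : Type u} [AddCommGroup N] [Module A N] [Module K N] [IsScalarTower K A N]
    [FiniteDimensional K N]
    (hloc : ∀ r : N →ₗ[A] N, IsNilpotent r ∨ Function.Bijective r)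
    (U : Submodule A N) (hU : U ≠ ⊤) :
    ∃ r : N →ₗ[A] N, ¬ LinearMap.range r ≤ U ∧
      ∀ j : N →ₗ[A] N, ¬ Function.Bijective j → LinearMap.range (r ∘ₗ j) ≤ U := by
  haveI : FiniteDimensional K (N →ₗ[A] N) := finite_hom
  let I : Submodule K (N →ₗ[A] N) :=
    { carrier := {r | LinearMap.range r ≤ U}
      zero_mem' := by
        show LinearMap.range (0 : N →ₗ[A] N) ≤ U
        rw [LinearMap.range_zero]
        exact bot_le
      add_mem' := by
        rintro a b ha hb x ⟨y, rfl⟩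
        exact U.add_mem (ha ⟨y, rfl⟩) (hb ⟨y, rfl⟩)
      smul_mem' := by
        rintro c a ha x ⟨y, rfl⟩
        have h1 : (c • a) y = (algebraMap K A c) • a y := by
          rw [LinearMap.smul_apply, algebraMap_smul]
        rw [h1]
        exact U.smul_mem _ (ha ⟨y, rfl⟩) }
  have hI : ∀ r : N →ₗ[A] N, r ∈ I ↔ LinearMap.range r ≤ U := fun r => Iff.rfl
  let W : (N →ₗ[A] N) → Submodule K (N →ₗ[A] N) := fun r =>
    I ⊔ LinearMap.range (compB K N N N r)
  have hne : {V : Submodule K (N →ₗ[A] N) | ∃ r : N →ₗ[A] N, r ∉ I ∧ V = W r}.Nonempty := by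
    refine ⟨W LinearMap.id, LinearMap.id, ?_, rfl⟩
    rw [hI, LinearMap.range_id, top_le_iff]
    exact hU
  obtain ⟨V, ⟨r, hr, rfl⟩, hmin⟩ := (wellFounded_lt (α := Submodule K (N →ₗ[A] N))).has_min _ hne
  refine ⟨r, hr, fun j hj => ?_⟩
  by_contra hcon
  -- `r j` is not in `I`, so `W (r j) = W r`
  have hle : W (r ∘ₗ j) ≤ W r := by
    refine sup_le le_sup_left ?_
    rintro x ⟨y, rfl⟩
    refine Submodule.mem_sup_right ⟨j ∘ₗ y, ?_⟩
    rw [compB_apply, compB_apply, LinearMap.comp_assoc]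
  have heq : W (r ∘ₗ j) = W r := by
    by_contra hne'
    exact hmin _ ⟨r ∘ₗ j, hcon, rfl⟩ (lt_of_le_of_ne hle hne')
  have hrW : r ∈ W (r ∘ₗ j) := by
    rw [heq]
    exact Submodule.mem_sup_right ⟨LinearMap.id, by rw [compB_apply, LinearMap.comp_id]⟩
  obtain ⟨i, hi, z, ⟨s, rfl⟩, hz⟩ := Submodule.mem_sup.1 hrW
  rw [compB_apply] at hz
  -- `r (1 - j s) = i`
  have h1 : r ∘ₗ (LinearMap.id - j ∘ₗ s) = i := by
    rw [LinearMap.comp_sub, LinearMap.comp_id, ← LinearMap.comp_assoc]
    rw [sub_eq_iff_eq_add]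
    exact hz.symm
  have hjs : IsNilpotent (j ∘ₗ s) := by
    rcases hloc (j ∘ₗ s) with h | h
    · exact h
    · exfalso
      have hsur : Function.Surjective j := by
        intro y
        obtain ⟨x, hx⟩ := h.2 y
        exact ⟨s x, hx⟩
      rcases hloc j with h' | h'
      · obtain ⟨n, hn⟩ := h'
        apply hj
        -- a nilpotent surjective map: the module is trivial
        have hs : ∀ m : ℕ, Function.Surjective (j ^ m) := by
          intro m
          induction m with
          | zero => intro y; exact ⟨y, by simp⟩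
          | succ m ih =>
            intro y
            obtain ⟨x, rfl⟩ := ih y
            obtain ⟨w, rfl⟩ := hsur x
            exact ⟨w, by rw [pow_succ, Module.End.mul_apply]⟩
        have hz : ∀ y : N, y = 0 := by
          intro y
          obtain ⟨x, rfl⟩ := hs n y
          rw [hn, LinearMap.zero_apply]
        refine ⟨fun a b _ => by rw [hz a, hz b], hsur⟩
      · exact hj h'
  have hunit : IsUnit (1 - (j ∘ₗ s : Module.End A N)) := hjs.isUnit_one_sub
  obtain ⟨w, hw⟩ := hunit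
  apply hr
  have h2 : r = i ∘ₗ (↑w⁻¹ : Module.End A N) := by
    have h3 : r ∘ₗ (↑w : Module.End A N) = i := by
      rw [hw]; exact h1
    rw [← h3, LinearMap.comp_assoc]
    have h4 : (↑w : Module.End A N) ∘ₗ (↑w⁻¹ : Module.End A N) = LinearMap.id := by
      have := w.mul_inv
      exact this
    rw [h4, LinearMap.comp_id]
  rw [hI, h2]
  exact (LinearMap.range_comp_le_range _ _).trans hi

theorem inT_of_top {K : Type v} [Field K] {A : Type u} [Ring A] [Algebra K A]
    [FiniteDimensional K A] {N B Y : Type u} [AddCommGroup N] [Module A N] [Module.Finite A N]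
    [AddCommGroup B] [Module A B] [AddCommGroup Y] [Module A Y]
    (hloc : ∀ r : N →ₗ[A] N, IsNilpotent r ∨ Function.Bijective r)
    (φ : N →ₗ[A] Y) (hφ : Function.Surjective φ) (hk : LinearMap.ker φ = radImage A N)
    (β : B →ₗ[A] Y) (hβ : Function.Surjective β) : InT A B N := by
  intro U hU
  letI : Module K N := Module.compHom N (algebraMap K A)
  haveI := tower_compHom (A := A) K N
  haveI : Module.Finite K N := Module.Finite.trans A N
  obtain ⟨r, hr1, hr2⟩ := BLB_choose (K := K) hloc U hU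
  -- the map `x ↦ [r x]` factors through `φ`
  have hker : LinearMap.ker φ ≤ LinearMap.ker (U.mkQ ∘ₗ r) := by
    rw [hk, radImage, iSup_le_iff]
    rintro ⟨j, hj⟩ x ⟨y, rfl⟩
    rw [LinearMap.mem_ker, LinearMap.comp_apply, Submodule.mkQ_apply,
      Submodule.Quotient.mk_eq_zero]
    exact hr2 j hj ⟨y, rfl⟩
  have hex : ∃ ψ : Y →ₗ[A] (N ⧸ U), ψ ∘ₗ φ = U.mkQ ∘ₗ r := by
    let e : (N ⧸ LinearMap.ker φ) ≃ₗ[A] Y := φ.quotKerEquivOfSurjective hφ
    refine ⟨(LinearMap.ker φ).liftQ (U.mkQ ∘ₗ r) hker ∘ₗ e.symm.toLinearMap, ?_⟩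
    refine LinearMap.ext fun x => ?_
    have h1 : e.symm (φ x) = (LinearMap.ker φ).mkQ x := by
      rw [LinearEquiv.symm_apply_eq]
      rfl
    rw [LinearMap.comp_apply, LinearMap.comp_apply, LinearEquiv.coe_coe, h1,
      Submodule.mkQ_apply, Submodule.liftQ_apply]
  obtain ⟨ψ, hψ⟩ := hex
  refine ⟨ψ ∘ₗ β, fun h0 => ?_⟩
  have hψ0 : ψ = 0 := by
    refine LinearMap.ext fun y => ?_
    obtain ⟨b, rfl⟩ := hβ y
    exact LinearMap.congr_fun h0 b
  apply hr1
  rintro x ⟨y, rfl⟩
  have h2 := LinearMap.congr_fun hψ y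
  rw [hψ0, LinearMap.comp_apply, LinearMap.zero_apply, LinearMap.comp_apply,
    Submodule.mkQ_apply] at h2
  exact (Submodule.Quotient.mk_eq_zero U).1 h2.symm

/-- A brick which belongs to the torsion class generated by `B'` and maps nontrivially to the
brick `B'` maps onto it. -/
private theorem BLB_surj {A : Type u} [Ring A] {B B' : Type u} [AddCommGroup B] [Module A B]
    [AddCommGroup B'] [Module A B'] (hB' : IsBrick A B')
    (h : InT A B B') (h' : InT A B' B) : ∃ α : B →ₗ[A] B', Function.Surjective α ∧ α ≠ 0 := by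
  haveI := hB'.1
  obtain ⟨φ, hφ⟩ := h ⊥ bot_ne_top
  let α : B →ₗ[A] B' := (Submodule.quotEquivOfEqBot (⊥ : Submodule A B') rfl).toLinearMap ∘ₗ φ
  have hα : α ≠ 0 := by
    intro h0
    apply hφ
    refine LinearMap.ext fun x => ?_
    have h1 := LinearMap.congr_fun h0 x
    rw [LinearMap.comp_apply, LinearEquiv.coe_coe, LinearMap.zero_apply] at h1
    rw [LinearMap.zero_apply]
    exact (LinearEquiv.map_eq_zero_iff _).1 h1
  have hkt : LinearMap.ker α ≠ ⊤ := fun h0 => hα (LinearMap.ker_eq_top.1 h0)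
  obtain ⟨γ, hγ⟩ := h' _ hkt
  let ι : (B ⧸ LinearMap.ker α) →ₗ[A] B' := (LinearMap.ker α).liftQ α le_rfl
  have hι : Function.Injective ι := by
    rw [← LinearMap.ker_eq_bot]
    exact Submodule.ker_liftQ_eq_bot _ _ _ le_rfl
  have hne : ι ∘ₗ γ ≠ 0 := by
    intro h0
    apply hγ
    refine LinearMap.ext fun x => ?_
    have h1 := LinearMap.congr_fun h0 x
    rw [LinearMap.comp_apply, LinearMap.zero_apply] at h1
    rw [LinearMap.zero_apply]
    exact hι (by rw [h1, map_zero])
  have hbij := hB'.2 _ hne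
  refine ⟨α, fun y => ?_, hα⟩
  obtain ⟨x, hx⟩ := hbij.2 y
  obtain ⟨b, hb⟩ := Submodule.mkQ_surjective _ (γ x)
  refine ⟨b, ?_⟩
  have h1 : ι ((LinearMap.ker α).mkQ b) = α b := rfl
  rw [← h1, hb, ← hx, LinearMap.comp_apply]

/-- Bricks generating the same torsion class are isomorphic. -/
theorem brick_iso_of_inT {A : Type u} [Ring A] {B B' : Type u} [AddCommGroup B] [Module A B]
    [AddCommGroup B'] [Module A B'] [IsNoetherian A B] [IsNoetherian A B']
    [IsArtinian A B] [IsArtinian A B'] (hB : IsBrick A B) (hB' : IsBrick A B')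
    (h : InT A B B') (h' : InT A B' B) : Nonempty (B ≃ₗ[A] B') := by
  obtain ⟨α, hα, hα0⟩ := BLB_surj hB' h h'
  obtain ⟨α', hα', hα0'⟩ := BLB_surj hB h' h
  haveI := hB.1
  have hne : α' ∘ₗ α ≠ 0 := by
    intro h0
    obtain ⟨y, hy⟩ := exists_ne (0 : B)
    obtain ⟨z, rfl⟩ := hα' y
    obtain ⟨x, rfl⟩ := hα z
    exact hy (LinearMap.congr_fun h0 x)
  have hbij := hB.2 _ hne
  have hinj : Function.Injective α := by
    intro x y hxy
    apply hbij.1
    rw [LinearMap.comp_apply, LinearMap.comp_apply, hxy]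
  exact ⟨LinearEquiv.ofBijective α ⟨hinj, hα⟩⟩

theorem InT.trans' {A : Type u} [Ring A] {B N X : Type u} [AddCommGroup B] [Module A B]
    [AddCommGroup N] [Module A N] [AddCommGroup X] [Module A X] (h : InT A B N)
    (h' : ∀ U : Submodule A X, U ≠ ⊤ → ∃ ψ : N →ₗ[A] (X ⧸ U), ψ ≠ 0) : InT A B X := by
  intro U hU
  obtain ⟨ψ, hψ⟩ := h' U hU
  have hkt : LinearMap.ker ψ ≠ ⊤ := fun h0 => hψ (LinearMap.ker_eq_top.1 h0)
  obtain ⟨φ, hφ⟩ := h _ hkt
  let ι : (N ⧸ LinearMap.ker ψ) →ₗ[A] (X ⧸ U) := (LinearMap.ker ψ).liftQ ψ le_rfl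
  have hι : Function.Injective ι := by
    rw [← LinearMap.ker_eq_bot]
    exact Submodule.ker_liftQ_eq_bot _ _ _ le_rfl
  refine ⟨ι ∘ₗ φ, fun h0 => hφ ?_⟩
  refine LinearMap.ext fun x => ?_
  have h1 := LinearMap.congr_fun h0 x
  rw [LinearMap.comp_apply, LinearMap.zero_apply] at h1
  rw [LinearMap.zero_apply]
  exact hι (by rw [h1, map_zero])

end Pool.Agent.H13.MF
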