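import Pool.Agent.H13.MF.BBase

/-! Summands of powers of a projective cover of a simple module. -/

set_option linter.unusedSectionVars false
set_option linter.style.haveILetI false

universe u v

namespace Pool.Agent.H13.MF

open Module Pool.Agent.H51.T2

/-- A module with a nonzero map from `E` onto a simple module is isomorphic to `S`. -/
private theorem BSU_simple_iso {A : Type u} [Ring A] [IsNoetherianRing A] {S E : Type u}
    [AddCommGroup S] [Module A S] [IsSimpleModule A S]
    [AddCommGroup E] [Module A E] [Module.Finite A E] [Module.Projective A E]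
    {π : E →ₗ[A] S} (hπ : Function.Surjective π)
    (hmin : ∀ φ : E →ₗ[A] E, π ∘ₗ φ = π → Function.Bijective φ)
    {T : Type u} [AddCommGroup T] [Module A T] [IsSimpleModule A T]
    (τ : E →ₗ[A] T) (hτ : τ ≠ 0) : Nonempty (T ≃ₗ[A] S) := by
  have hτs : Function.Surjective τ := (LinearMap.surjective_or_eq_zero τ).resolve_right hτ
  have hπne : LinearMap.ker π ≠ ⊤ := by
    haveI := IsSimpleModule.nontrivial A S
    obtain ⟨s, hs⟩ := exists_ne (0 : S)
    obtain ⟨x, rfl⟩ := hπ s
    intro h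
    apply hs
    have : x ∈ LinearMap.ker π := by rw [h]; trivial
    exact this
  have hτne : LinearMap.ker τ ≠ ⊤ := fun h => hτ (LinearMap.ker_eq_top.1 h)
  have hle : LinearMap.ker τ ≤ LinearMap.ker π := by
    intro x hx
    by_contra hne
    exact hτne (top_of_minimal hmin (LinearMap.ker τ) ⟨x, hx, hne⟩)
  have eτ : (E ⧸ LinearMap.ker τ) ≃ₗ[A] T := LinearMap.quotKerEquivOfSurjective τ hτs
  have hsimp : IsSimpleModule A (E ⧸ LinearMap.ker τ) := IsSimpleModule.congr eτ
  have hco : IsCoatom (LinearMap.ker τ) := isSimpleModule_iff_isCoatom.1 hsimp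
  have heq : LinearMap.ker τ = LinearMap.ker π := by
    by_contra hne
    exact hπne (hco.2 _ (lt_of_le_of_ne hle hne))
  exact ⟨eτ.symm.trans ((Submodule.quotEquivOfEq _ _ heq).trans
    (LinearMap.quotKerEquivOfSurjective π hπ))⟩

/-- A finitely generated projective quotient of a power of `E` is a power of `E`. -/
private theorem BSU_power (K : Type v) [Field K] {A : Type u} [Ring A] [Algebra K A]
    [FiniteDimensional K A] {S E : Type u} [AddCommGroup S] [Module A S] [IsSimpleModule A S]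
    [AddCommGroup E] [Module A E] [Module.Finite A E] [Module.Projective A E]
    {π : E →ₗ[A] S} (hπ : Function.Surjective π)
    (hmin : ∀ φ : E →ₗ[A] E, π ∘ₗ φ = π → Function.Bijective φ) {b : ℕ} :
    ∀ (n : ℕ) (Q : Type u) [AddCommGroup Q] [Module A Q] [Module.Finite A Q]
      [Module.Projective A Q] (p : (Fin b → E) →ₗ[A] Q), Function.Surjective p →
      kdim (A := A) K Q ≤ n → ∃ m : ℕ, Nonempty (Q ≃ₗ[A] (Fin m → E)) := by
  haveI : IsNoetherianRing A := noeth_of_fd K
  have hE : Nontrivial E := by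
    haveI := IsSimpleModule.nontrivial A S
    exact hπ.nontrivial
  intro n
  induction n with
  | zero =>
    intro Q _ _ _ _ p hp hd
    rcases subsingleton_or_nontrivial Q with hs | hn
    · refine ⟨0, ⟨?_⟩⟩
      exact LinearEquiv.ofSubsingleton Q (Fin 0 → E)
    · exact absurd (kdim_pos (A := A) K Q) (by omega)
  | succ n ih =>
    intro Q _ _ _ _ p hp hd
    rcases subsingleton_or_nontrivial Q with hs | hn
    · refine ⟨0, ⟨?_⟩⟩
      exact LinearEquiv.ofSubsingleton Q (Fin 0 → E)
    · obtain ⟨N, hN⟩ : ∃ N : Submodule A Q, IsCoatom N := by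
        obtain ⟨N, hN, -⟩ := (eq_top_or_exists_le_coatom (⊥ : Submodule A Q)).resolve_left
          bot_ne_top
        exact ⟨N, hN⟩
      haveI hsimp : IsSimpleModule A (Q ⧸ N) := isSimpleModule_iff_isCoatom.2 hN
      have hcomp : Function.Surjective (N.mkQ ∘ₗ p) := (Submodule.mkQ_surjective N).comp hp
      obtain ⟨i, hi⟩ : ∃ i : Fin b, (N.mkQ ∘ₗ p) ∘ₗ LinearMap.single A (fun _ => E) i ≠ 0 := by
        by_contra hne
        push Not at hne
        have h0 : N.mkQ ∘ₗ p = 0 := by
          apply LinearMap.pi_ext'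
          intro i
          rw [hne i, LinearMap.zero_comp]
        haveI := IsSimpleModule.nontrivial A (Q ⧸ N)
        obtain ⟨s, hs⟩ := exists_ne (0 : Q ⧸ N)
        obtain ⟨x, rfl⟩ := hcomp s
        rw [h0] at hs
        exact hs rfl
      obtain ⟨e⟩ := BSU_simple_iso hπ hmin _ hi
      obtain ⟨Q', i1, i2, i3, i4, ⟨ε⟩⟩ := split_cover K hπ hmin (Q := Q)
        (ρ := e.toLinearMap ∘ₗ N.mkQ) (e.surjective.comp (Submodule.mkQ_surjective N))
      have hd' : kdim (A := A) K Q' ≤ n := by
        have h1 := kdim_congr (A := A) K ε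
        have h2 := kdim_prod (A := A) K E Q'
        have h3 := kdim_pos (A := A) K E
        omega
      have hs : Function.Surjective (LinearMap.snd A E Q' ∘ₗ ε.toLinearMap ∘ₗ p) := by
        intro y
        obtain ⟨x, hx⟩ := (ε.surjective.comp hp) ((0 : E), y)
        refine ⟨x, ?_⟩
        have : ε (p x) = ((0 : E), y) := hx
        simp [this]
      obtain ⟨m, ⟨f⟩⟩ := ih Q' (LinearMap.snd A E Q' ∘ₗ ε.toLinearMap ∘ₗ p) hs hd'
      have g : (E × (Fin m → E)) ≃ₗ[A] (Fin (m + 1) → E) :=
        Fin.consLinearEquiv A (fun _ : Fin (m + 1) => E)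
      exact ⟨m + 1, ⟨ε.trans (((LinearEquiv.refl A E).prodCongr f).trans g)⟩⟩

private theorem BSU_kdim_pi (K : Type v) [Field K] {A : Type u} [Ring A] [Algebra K A]
    [FiniteDimensional K A] (E : Type u) [AddCommGroup E] [Module A E] [Module.Finite A E]
    (b : ℕ) : kdim (A := A) K (Fin b → E) = b * kdim (A := A) K E := by
  letI : Module K E := Module.compHom E (algebraMap K A)
  haveI := tower_compHom (A := A) K E
  haveI : Module.Finite K E := Module.Finite.trans A E
  rw [kdim_eq K (Fin b → E), kdim_eq K E, Module.finrank_pi_fintype]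
  simp

theorem summand_pow (K : Type v) [Field K] {A : Type u} [Ring A] [Algebra K A]
    [FiniteDimensional K A] {S E : Type u} [AddCommGroup S] [Module A S] [IsSimpleModule A S]
    [AddCommGroup E] [Module A E] [Module.Finite A E] [Module.Projective A E]
    {π : E →ₗ[A] S} (hπ : Function.Surjective π)
    (hmin : ∀ φ : E →ₗ[A] E, π ∘ₗ φ = π → Function.Bijective φ) {b : ℕ} {P₁ P₂ : Type u}
    [AddCommGroup P₁] [Module A P₁] [AddCommGroup P₂] [Module A P₂]
    (α : (Fin b → E) ≃ₗ[A] (P₁ × P₂)) :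
    ∃ b₁ b₂ : ℕ, b₁ + b₂ = b ∧ Nonempty (P₁ ≃ₗ[A] (Fin b₁ → E)) ∧
      Nonempty (P₂ ≃ₗ[A] (Fin b₂ → E)) := by
  haveI : IsNoetherianRing A := noeth_of_fd K
  haveI hpb : Module.Projective A (Fin b → E) := projective_pi E b
  haveI hpr : Module.Projective A (P₁ × P₂) := Module.Projective.of_equiv α
  have hf : Module.Finite A (P₁ × P₂) := Module.Finite.equiv α
  have s1 : Function.Surjective (LinearMap.fst A P₁ P₂ ∘ₗ α.toLinearMap) :=
    (LinearMap.fst_surjective (R := A) (M := P₁) (M₂ := P₂)).comp α.surjective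
  have s2 : Function.Surjective (LinearMap.snd A P₁ P₂ ∘ₗ α.toLinearMap) :=
    (LinearMap.snd_surjective (R := A) (M := P₁) (M₂ := P₂)).comp α.surjective
  haveI f1 : Module.Finite A P₁ := Module.Finite.of_surjective _ s1
  haveI f2 : Module.Finite A P₂ := Module.Finite.of_surjective _ s2
  haveI p1 : Module.Projective A P₁ := Module.Projective.of_split (LinearMap.inl A P₁ P₂)
    (LinearMap.fst A P₁ P₂) (LinearMap.fst_comp_inl A P₁ P₂)
  haveI p2 : Module.Projective A P₂ := Module.Projective.of_split (LinearMap.inr A P₁ P₂)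
    (LinearMap.snd A P₁ P₂) (LinearMap.snd_comp_inr A P₁ P₂)
  obtain ⟨b₁, ⟨e₁⟩⟩ := BSU_power K hπ hmin _ P₁ _ s1 le_rfl
  obtain ⟨b₂, ⟨e₂⟩⟩ := BSU_power K hπ hmin _ P₂ _ s2 le_rfl
  refine ⟨b₁, b₂, ?_, ⟨e₁⟩, ⟨e₂⟩⟩
  have hE : Nontrivial E := by
    haveI := IsSimpleModule.nontrivial A S
    exact hπ.nontrivial
  have h0 := kdim_pos (A := A) K E
  have h1 := kdim_congr (A := A) K α
  have h2 := kdim_prod (A := A) K P₁ P₂
  have h3 := kdim_congr (A := A) K e₁
  have h4 := kdim_congr (A := A) K e₂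
  rw [BSU_kdim_pi] at h1 h3 h4
  rw [h2, h3, h4, ← add_mul] at h1
  exact (Nat.eq_of_mul_eq_mul_right h0 h1).symm

end Pool.Agent.H13.MF
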