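import Pool.Agent.H13.MF.BFI
import Pool.Agent.H13.MF.BSU
import Pool.Agent.H13.MF.BDE

/-! A minimal compatible rigid map of smaller slope has a cokernel with local endomorphism ring. -/

set_option linter.unusedSectionVars false
set_option linter.style.haveILetI false

universe u v

namespace Pool.Agent.H13.MF

open Module Pool.Agent.H51.T2

theorem BMI_iso_conj {A : Type*} [Ring A] {P Q P' Q' : Type*} [AddCommGroup P] [Module A P]
    [AddCommGroup Q] [Module A Q] [AddCommGroup P'] [Module A P'] [AddCommGroup Q'] [Module A Q']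
    (f : P →ₗ[A] Q) (α : P ≃ₗ[A] P') (β : Q ≃ₗ[A] Q') :
    Iso f (β.toLinearMap ∘ₗ f ∘ₗ α.symm.toLinearMap) := by
  refine ⟨α, β, ?_⟩
  ext x
  simp

/-- The source power as a product with a trivial module. -/
def BMI_left (A : Type*) [Ring A] (E : Type u) [AddCommGroup E] [Module A E] (a b : ℕ) :
    (Fin b → E) ≃ₗ[A] ((Fin a → PUnit.{u+1}) × (Fin b → E)) :=
  { toFun := fun x => (0, x)
    invFun := fun x => x.2
    map_add' := fun x y => by simp
    map_smul' := fun r x => by simp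
    left_inv := fun x => rfl
    right_inv := fun x => by
      obtain ⟨x, y⟩ := x
      exact Prod.ext (Subsingleton.elim _ _) rfl }

/-- The target power as a product with a trivial module. -/
def BMI_right (A : Type*) [Ring A] (F : Type u) [AddCommGroup F] [Module A F] (a b : ℕ) :
    (Fin a → F) ≃ₗ[A] ((Fin a → F) × (Fin b → PUnit.{u+1})) :=
  { toFun := fun x => (x, 0)
    invFun := fun x => x.1
    map_add' := fun x y => by simp
    map_smul' := fun r x => by simp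
    left_inv := fun x => rfl
    right_inv := fun x => by
      obtain ⟨x, y⟩ := x
      exact Prod.ext rfl (Subsingleton.elim _ _) }

theorem BMI_ob {A : Type u} [Ring A] {E F : Type u} [AddCommGroup E] [Module A E]
    [AddCommGroup F] [Module A F] {P Q : Type u} [AddCommGroup P] [Module A P]
    [AddCommGroup Q] [Module A Q] (f : P →ₗ[A] Q) {c d : ℕ} (u : P ≃ₗ[A] (Fin c → E))
    (v : Q ≃ₗ[A] (Fin d → F)) : ∃ f' : Ob A PUnit.{u+1} F E PUnit.{u+1} d c, Iso f f' :=
  ⟨_, BMI_iso_conj f (u ≪≫ₗ BMI_left A E d c) (v ≪≫ₗ BMI_right A F d c)⟩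

theorem BMI_pos {A : Type u} [Ring A] {M E : Type u} [AddCommGroup M] [Module A M]
    [AddCommGroup E] [Module A E] {P : Submodule A M} (h : P ≠ ⊥) {c : ℕ}
    (u : P ≃ₗ[A] (Fin c → E)) : 0 < c := by
  rcases Nat.eq_zero_or_pos c with rfl | hc
  · exfalso
    apply h
    rw [Submodule.eq_bot_iff]
    intro x hx
    have h1 : (⟨x, hx⟩ : P) = 0 := by
      apply u.injective
      exact Subsingleton.elim _ _
    exact congrArg Subtype.val h1
  · exact hc

/-- Among the compatible rigid maps of smaller slope choose one with `a₁ + b₁` minimal; use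
`fitting_pair` and `summand_pow` (twice) to see that its cokernel has a local endomorphism
ring. -/
theorem exists_local_below (K : Type v) [Field K] [Infinite K] {A : Type u} [Ring A] [Algebra K A]
    [FiniteDimensional K A] {S₁ S₂ E F : Type u}
    [AddCommGroup S₁] [Module A S₁] [IsSimpleModule A S₁]
    [AddCommGroup S₂] [Module A S₂] [IsSimpleModule A S₂]
    [AddCommGroup E] [Module A E] [Module.Finite A E] [Module.Projective A E]
    [AddCommGroup F] [Module A F] [Module.Finite A F] [Module.Projective A F]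
    {π₁ : E →ₗ[A] S₁} (hπ₁ : Function.Surjective π₁)
    (hmin₁ : ∀ φ : E →ₗ[A] E, π₁ ∘ₗ φ = π₁ → Function.Bijective φ)
    {π₂ : F →ₗ[A] S₂} (hπ₂ : Function.Surjective π₂)
    (hmin₂ : ∀ φ : F →ₗ[A] F, π₂ ∘ₗ φ = π₂ → Function.Bijective φ)
    (hyp : ∀ a b : ℕ, ∃ f : Ob A PUnit.{u+1} F E PUnit.{u+1} a b, Rigid f) {a b : ℕ}
    (hb : 0 < b) (g : Ob A PUnit.{u+1} F E PUnit.{u+1} a b) (hg : Rigid g) :
    ∃ (a₁ b₁ : ℕ) (f : Ob A PUnit.{u+1} F E PUnit.{u+1} a₁ b₁), Rigid f ∧ EZero f g ∧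
      EZero g f ∧ a * b₁ < a₁ * b ∧
      ∀ r : Coker f →ₗ[A] Coker f, IsNilpotent r ∨ Function.Bijective r := by
  classical
  haveI hN : IsNoetherianRing A := noeth_of_fd K
  haveI hA : IsArtinianRing A := artin_of_fd K
  let p : ℕ → Prop := fun n => ∃ (a₁ b₁ : ℕ) (f : Ob A PUnit.{u+1} F E PUnit.{u+1} a₁ b₁),
    Rigid f ∧ EZero f g ∧ EZero g f ∧ a * b₁ < a₁ * b ∧ a₁ + b₁ = n
  have hp : ∃ n, p n := by
    letI : Module K E := Module.compHom E (algebraMap K A)
    haveI : IsScalarTower K A E := tower_compHom (A := A) K E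
    haveI : Module.Finite K E := Module.Finite.trans A E
    letI : Module K F := Module.compHom F (algebraMap K A)
    haveI : IsScalarTower K A F := tower_compHom (A := A) K F
    haveI : Module.Finite K F := Module.Finite.trans A F
    obtain ⟨a₁, b₁, f, h1, h2, h3, h4⟩ := exists_compatible_below (A := A)
      (P₁ := PUnit.{u+1}) (Q₁ := F) (P₂ := E) (Q₂ := PUnit.{u+1}) K hyp hb g hg
    exact ⟨a₁ + b₁, a₁, b₁, f, h1, h2, h3, h4, rfl⟩
  obtain ⟨a₁, b₁, f, h1, h2, h3, h4, h5⟩ := Nat.find_spec hp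
  have hmin : ∀ m, p m → a₁ + b₁ ≤ m := by
    intro m hm
    rw [h5]
    exact Nat.find_min' hp hm
  refine ⟨a₁, b₁, f, h1, h2, h3, h4, ?_⟩
  haveI := projective_pi (A := A) E b₁
  haveI := projective_pi (A := A) F a₁
  haveI hu : Module.Projective A PUnit.{u+1} := projective_punit
  haveI := projective_pi (A := A) PUnit.{u+1} a₁
  haveI := projective_pi (A := A) PUnit.{u+1} b₁
  rcases fitting_pair f with h | ⟨P₁, P₂, Q₁, Q₂, f₁, f₂, hP, hQ, hiso, hne1, hne2⟩
  · exact h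
  exfalso
  obtain ⟨c₁, c₂, hc, ⟨u₁⟩, ⟨u₂⟩⟩ := summand_pow K hπ₁ hmin₁
    (BMI_left A E a₁ b₁ ≪≫ₗ (Submodule.prodEquivOfIsCompl P₁ P₂ hP).symm)
  obtain ⟨d₁, d₂, hd, ⟨v₁⟩, ⟨v₂⟩⟩ := summand_pow K hπ₂ hmin₂
    (BMI_right A F a₁ b₁ ≪≫ₗ (Submodule.prodEquivOfIsCompl Q₁ Q₂ hQ).symm)
  obtain ⟨g₁, hg₁⟩ := BMI_ob f₁ u₁ v₁
  obtain ⟨g₂, hg₂⟩ := BMI_ob f₂ u₂ v₂
  have e1 : Rigid (f₁.prodMap f₂) := h1.iso hiso
  have e2 : EZero (f₁.prodMap f₂) g := h2.iso hiso (Iso.refl g)
  have e3 : EZero g (f₁.prodMap f₂) := h3.iso (Iso.refl g) hiso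
  have r1 : Rigid g₁ := Rigid.iso (EZero.of_prod_right_fst (EZero.of_prod_left_fst e1)) hg₁
  have r2 : Rigid g₂ := Rigid.iso (EZero.of_prod_right_snd (EZero.of_prod_left_snd e1)) hg₂
  have s1 : EZero g₁ g := (EZero.of_prod_left_fst e2).iso hg₁ (Iso.refl g)
  have s2 : EZero g₂ g := (EZero.of_prod_left_snd e2).iso hg₂ (Iso.refl g)
  have t1 : EZero g g₁ := (EZero.of_prod_right_fst e3).iso (Iso.refl g) hg₁
  have t2 : EZero g g₂ := (EZero.of_prod_right_snd e3).iso (Iso.refl g) hg₂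
  have hpos1 : 0 < c₁ + d₁ := by
    rcases hne1 with h | h
    · have := BMI_pos h u₁; omega
    · have := BMI_pos h v₁; omega
  have hpos2 : 0 < c₂ + d₂ := by
    rcases hne2 with h | h
    · have := BMI_pos h u₂; omega
    · have := BMI_pos h v₂; omega
  by_cases hlt : a * c₁ < d₁ * b
  · have := hmin (d₁ + c₁) ⟨d₁, c₁, g₁, r1, s1, t1, hlt, rfl⟩
    omega
  · have hlt2 : a * c₂ < d₂ * b := by
      push Not at hlt
      have h6 : a * b₁ = a * c₁ + a * c₂ := by rw [← hc]; ring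
      have h7 : a₁ * b = d₁ * b + d₂ * b := by rw [← hd]; ring
      rw [h6, h7] at h4
      omega
    have := hmin (d₂ + c₂) ⟨d₂, c₂, g₂, r2, s2, t2, hlt2, rfl⟩
    omega

end Pool.Agent.H13.MF
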