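import Pool.Agent.H13.MF.BBase

/-! Two functionals on dimension vectors of rank two. -/

set_option linter.unusedSectionVars false

universe u v

namespace Pool.Agent.H13.MF

open Module Pool.Agent.H51.T2

section
variable {K : Type v} [Field K] {A : Type u} [Ring A] [Algebra K A]
  {E Z : Type u} [AddCommGroup E] [Module A E] [AddCommGroup Z] [Module A Z] [Module K Z]
  [IsScalarTower K A Z] [Module K E] [IsScalarTower K A E] [FiniteDimensional K E]
  [FiniteDimensional K Z]

private theorem BNU_sub (b : ℕ) : Subsingleton ((Fin b → PUnit.{u+1}) →ₗ[A] Z) := by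
  refine ⟨fun x y => ?_⟩
  apply LinearMap.ext
  intro t
  rw [Subsingleton.elim t 0, map_zero, map_zero]

variable (K) in
private theorem BNU_pi (a : ℕ) :
    finrank K ((Fin a → E) →ₗ[A] Z) = a * finrank K (E →ₗ[A] Z) := by
  have : FiniteDimensional K (E →ₗ[A] Z) := finite_hom
  rw [← (LinearMap.lsum A (fun _ : Fin a => E) K (M := Z)).finrank_eq, Module.finrank_pi_fintype]
  simp

variable (K) in
private theorem BNU_left (a b : ℕ) :
    finrank K (((Fin a → E) × (Fin b → PUnit.{u+1})) →ₗ[A] Z) = a * finrank K (E →ₗ[A] Z) := by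
  have : FiniteDimensional K (E →ₗ[A] Z) := finite_hom
  have : FiniteDimensional K ((Fin a → E) →ₗ[A] Z) := finite_hom
  have := BNU_sub (A := A) (Z := Z) b
  rw [← (LinearMap.coprodEquiv K (R := A) (M := Fin a → E) (M₂ := Fin b → PUnit.{u+1})
      (M₃ := Z)).finrank_eq, Module.finrank_prod, BNU_pi K a,
      Module.finrank_zero_of_subsingleton (R := K) (M := (Fin b → PUnit.{u+1}) →ₗ[A] Z), add_zero]

variable (K) in
private theorem BNU_right (a b : ℕ) :
    finrank K (((Fin b → PUnit.{u+1}) × (Fin a → E)) →ₗ[A] Z) = a * finrank K (E →ₗ[A] Z) := by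
  have : FiniteDimensional K (E →ₗ[A] Z) := finite_hom
  have : FiniteDimensional K ((Fin a → E) →ₗ[A] Z) := finite_hom
  have := BNU_sub (A := A) (Z := Z) b
  rw [← (LinearMap.coprodEquiv K (R := A) (M := Fin b → PUnit.{u+1}) (M₂ := Fin a → E)
      (M₃ := Z)).finrank_eq, Module.finrank_prod, BNU_pi K a,
      Module.finrank_zero_of_subsingleton (R := K) (M := (Fin b → PUnit.{u+1}) →ₗ[A] Z), zero_add]

end

/-- Here `dim Hom (f, -)` is `a x - b y` and `dim Hom (g, -)` is `a' x - b' y`, where
`x = dim Hom (F, Z)` and `y = dim Hom (E, Z)`. -/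
theorem num_zero (K : Type v) [Field K] {A : Type u} [Ring A] [Algebra K A]
    [FiniteDimensional K A] {E F : Type u} [AddCommGroup E] [Module A E] [AddCommGroup F]
    [Module A F] [Module.Finite A E] [Module.Finite A F]
    (hEF : ∀ (Z : Type u) [AddCommGroup Z] [Module A Z] [Nontrivial Z],
      (∃ φ : E →ₗ[A] Z, φ ≠ 0) ∨ ∃ φ : F →ₗ[A] Z, φ ≠ 0)
    {a b a' b' : ℕ} (hdet : a' * b < a * b')
    (f : Ob A PUnit.{u+1} F E PUnit.{u+1} a b) (g : Ob A PUnit.{u+1} F E PUnit.{u+1} a' b')
    (Z : Type u) [AddCommGroup Z] [Module A Z] [Module.Finite A Z] (hf : H0 f Z) (hg : E0 g Z) :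
    Subsingleton Z := by
  let _ : Module K Z := Module.compHom Z (algebraMap K A)
  have := tower_compHom (A := A) K Z
  have : Module.Finite K Z := Module.Finite.trans A Z
  let _ : Module K E := Module.compHom E (algebraMap K A)
  have := tower_compHom (A := A) K E
  have : Module.Finite K E := Module.Finite.trans A E
  let _ : Module K F := Module.compHom F (algebraMap K A)
  have := tower_compHom (A := A) K F
  have : Module.Finite K F := Module.Finite.trans A F
  have hE : FiniteDimensional K (F →ₗ[A] Z) := finite_hom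
  have hF : FiniteDimensional K (E →ₗ[A] Z) := finite_hom
  have : FiniteDimensional K (((Fin a → PUnit.{u+1}) × (Fin b → E)) →ₗ[A] Z) := finite_hom
  have : FiniteDimensional K (((Fin a' → PUnit.{u+1}) × (Fin b' → E)) →ₗ[A] Z) := finite_hom
  have : FiniteDimensional K (((Fin a → F) × (Fin b → PUnit.{u+1})) →ₗ[A] Z) := finite_hom
  have : FiniteDimensional K (((Fin a' → F) × (Fin b' → PUnit.{u+1})) →ₗ[A] Z) := finite_hom
  have h1 : a * finrank K (F →ₗ[A] Z) ≤ b * finrank K (E →ₗ[A] Z) := by
    rw [← BNU_left K a b, ← BNU_right K b a]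
    apply LinearMap.finrank_le_finrank_of_injective (f := LinearMap.lcomp K Z f)
    rw [← LinearMap.ker_eq_bot, LinearMap.ker_eq_bot']
    intro φ hφ
    exact hf φ hφ
  have h2 : b' * finrank K (E →ₗ[A] Z) ≤ a' * finrank K (F →ₗ[A] Z) := by
    rw [← BNU_left K a' b', ← BNU_right K b' a']
    apply LinearMap.finrank_le_finrank_of_surjective (f := LinearMap.lcomp K Z g)
    intro k
    obtain ⟨φ, h⟩ := hg k
    exact ⟨φ, h.symm⟩
  have hx : finrank K (E →ₗ[A] Z) = 0 := by
    by_contra hne
    have hpos := Nat.pos_of_ne_zero hne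
    have h3 : (a * b') * finrank K (E →ₗ[A] Z) ≤ (a' * b) * finrank K (E →ₗ[A] Z) := by
      calc (a * b') * finrank K (E →ₗ[A] Z) = a * (b' * finrank K (E →ₗ[A] Z)) := by ring
        _ ≤ a * (a' * finrank K (F →ₗ[A] Z)) := Nat.mul_le_mul_left _ h2
        _ = a' * (a * finrank K (F →ₗ[A] Z)) := by ring
        _ ≤ a' * (b * finrank K (E →ₗ[A] Z)) := Nat.mul_le_mul_left _ h1
        _ = _ := by ring
    have h4 := Nat.le_of_mul_le_mul_right h3 hpos
    omega
  have hapos : 0 < a := by
    rcases Nat.eq_zero_or_pos a with h | h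
    · rw [h, zero_mul] at hdet
      omega
    · exact h
  have hy : finrank K (F →ₗ[A] Z) = 0 := by
    rw [hx, mul_zero] at h1
    have h5 : a * finrank K (F →ₗ[A] Z) = 0 := by omega
    rcases Nat.mul_eq_zero.mp h5 with h | h
    · omega
    · exact h
  rw [Module.finrank_eq_zero_iff_of_free] at hx hy
  by_contra hns
  rw [not_subsingleton_iff_nontrivial] at hns
  rcases hEF Z with ⟨φ, h⟩ | ⟨φ, h⟩
  · exact h (Subsingleton.elim _ _)
  · exact h (Subsingleton.elim _ _)

end Pool.Agent.H13.MF
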