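import Pool.Agent.H13.MF.STD

/-! Local idempotents: the classification of projectives, and projective covers. -/

universe u v w

namespace Pool.Agent.H13.MF

open Module Pool.Agent.H51.T2

variable {A : Type u} [Ring A] {n : ℕ} {e : Fin n → A}

private abbrev claGen (e : Fin n → A) (i : Fin n) : (Submodule.span A {e i} : Submodule A A) :=
  ⟨e i, Submodule.mem_span_singleton_self _⟩

private theorem cla_mul_idem (he : CompleteOrthogonalIdempotents e) (i : Fin n)
    (x : (Submodule.span A {e i} : Submodule A A)) : (x : A) * e i = x := by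
  obtain ⟨a, ha⟩ := Submodule.mem_span_singleton.1 x.2
  rw [← ha, smul_eq_mul, mul_assoc, (he.idem i).eq]

private theorem cla_smul_gen (he : CompleteOrthogonalIdempotents e) (i : Fin n)
    (x : (Submodule.span A {e i} : Submodule A A)) : (x : A) • claGen e i = x := by
  apply Subtype.ext
  exact cla_mul_idem he i x

private theorem cla_idem_gen (he : CompleteOrthogonalIdempotents e) (i : Fin n) :
    e i • claGen e i = claGen e i := by
  apply Subtype.ext
  exact (he.idem i).eq

private theorem cla_zero {M : Type*} [AddCommGroup M] [Module A M]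
    (he : CompleteOrthogonalIdempotents e) (i : Fin n)
    (π : (Submodule.span A {e i} : Submodule A A) →ₗ[A] M) (h : π (claGen e i) = 0) : π = 0 := by
  ext x
  rw [← cla_smul_gen he i x, map_smul, h, smul_zero]
  rfl

private theorem cla_not_zero {S : Type*} [AddCommGroup S] [Module A S] [IsSimpleModule A S]
    (he : CompleteOrthogonalIdempotents e) (i : Fin n)
    (π : (Submodule.span A {e i} : Submodule A A) →ₗ[A] S) (hπ : Function.Surjective π) :
    π (claGen e i) ≠ 0 := by
  intro h
  have h0 := cla_zero he i π h
  haveI := IsSimpleModule.nontrivial A S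
  obtain ⟨s, hs⟩ := exists_ne (0 : S)
  obtain ⟨x, rfl⟩ := hπ s
  rw [h0] at hs
  exact hs rfl

private theorem cla_local (he : CompleteOrthogonalIdempotents e) (i : Fin n)
    (hloc : IsLocalRing (he.idem i).Corner) (y : (Submodule.span A {e i} : Submodule A A))
    (hy : e i • y = y) : (∃ d : A, d * e i = d ∧ e i * d = d ∧ d * (y : A) = e i ∧ (y : A) * d = e i)
      ∨ (∃ d : A, d * e i = d ∧ e i * d = d ∧ d * (e i - (y : A)) = e i ∧
        (e i - (y : A)) * d = e i) := by
  have hm : (y : A) ∈ Subsemigroup.corner (e i) := by
    rw [Subsemigroup.mem_corner_iff (he.idem i)]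
    exact ⟨congrArg Subtype.val hy, cla_mul_idem he i y⟩
  have hunit : ∀ c : (he.idem i).Corner, IsUnit c →
      ∃ d : A, d * e i = d ∧ e i * d = d ∧ d * (c.1 : A) = e i ∧ (c.1 : A) * d = e i := by
    rintro c ⟨u, rfl⟩
    have h1 := u.mul_inv
    have h2 := u.inv_mul
    have h3 := (Subsemigroup.mem_corner_iff (he.idem i)).1 (u⁻¹ : (he.idem i).Cornerˣ).1.2
    exact ⟨(u⁻¹ : (he.idem i).Cornerˣ).1.1, h3.2, h3.1, congrArg Subtype.val h2,
      congrArg Subtype.val h1⟩
  let c : (he.idem i).Corner := ⟨y, hm⟩
  have hadd : c + (1 - c) = 1 := add_sub_cancel c 1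
  rcases IsLocalRing.isUnit_or_isUnit_of_add_one hadd with h | h
  · exact Or.inl (hunit c h)
  · right
    have := hunit (1 - c) h
    exact this

private theorem cla_bij (he : CompleteOrthogonalIdempotents e) (i : Fin n)
    (φ : (Submodule.span A {e i} : Submodule A A) →ₗ[A] (Submodule.span A {e i} : Submodule A A))
    (d : A) (h1 : d * e i = d) (h3 : d * (φ (claGen e i) : A) = e i)
    (h4 : (φ (claGen e i) : A) * d = e i) : Function.Bijective φ := by
  have hφ : ∀ x, (φ x : A) = (x : A) * (φ (claGen e i) : A) := by
    intro x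
    conv_lhs => rw [← cla_smul_gen he i x, map_smul]
    rfl
  constructor
  · rw [← LinearMap.ker_eq_bot, LinearMap.ker_eq_bot']
    intro x hx
    apply Subtype.ext
    have h5 : (φ x : A) = 0 := by rw [hx]; rfl
    rw [hφ] at h5
    calc (x : A) = (x : A) * e i := (cla_mul_idem he i x).symm
      _ = (x : A) * (φ (claGen e i) : A) * d := by rw [mul_assoc, h4]
      _ = 0 := by rw [h5, zero_mul]
  · intro y
    refine ⟨⟨(y : A) * d, Submodule.mem_span_singleton.2 ⟨(y : A) * d, ?_⟩⟩, ?_⟩
    · rw [smul_eq_mul, mul_assoc, h1]
    · apply Subtype.ext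
      rw [hφ]
      show (y : A) * d * (φ (claGen e i) : A) = y
      rw [mul_assoc, h3, cla_mul_idem he i y]

/-- A homomorphism from the left ideal generated by a local idempotent onto a simple module has
the minimality property of a projective cover. -/
theorem minimal_of_local (he : CompleteOrthogonalIdempotents e) (i : Fin n)
    (hloc : IsLocalRing (he.idem i).Corner) {S : Type w} [AddCommGroup S] [Module A S]
    [IsSimpleModule A S] (π : (Submodule.span A {e i} : Submodule A A) →ₗ[A] S)
    (hπ : Function.Surjective π)
    (φ : (Submodule.span A {e i} : Submodule A A) →ₗ[A] (Submodule.span A {e i} : Submodule A A))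
    (hφ : π ∘ₗ φ = π) : Function.Bijective φ := by
  have hy : e i • φ (claGen e i) = φ (claGen e i) := by
    rw [← map_smul, cla_idem_gen he i]
  rcases cla_local he i hloc (φ (claGen e i)) hy with ⟨d, h1, h2, h3, h4⟩ | ⟨d, h1, h2, h3, h4⟩
  · exact cla_bij he i φ d h1 h3 h4
  · exfalso
    apply cla_not_zero he i π hπ
    have h5 : d • (claGen e i - φ (claGen e i)) = claGen e i := by
      apply Subtype.ext
      exact h3
    have h6 : π (φ (claGen e i)) = π (claGen e i) := LinearMap.congr_fun hφ _
    rw [← h5, map_smul, map_sub, h6, sub_self, smul_zero]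

private theorem cla_exists_top {M : Type w} [AddCommGroup M] [Module A M] [Module.Finite A M]
    [Nontrivial M] : ∃ (S : Type w) (_ : AddCommGroup S) (_ : Module A S) (_ : IsSimpleModule A S)
      (π : M →ₗ[A] S), Function.Surjective π := by
  obtain ⟨N, hN, -⟩ := (eq_top_or_exists_le_coatom (⊥ : Submodule A M)).resolve_left bot_ne_top
  exact ⟨M ⧸ N, inferInstance, inferInstance, isSimpleModule_iff_isCoatom.2 hN, N.mkQ,
    N.mkQ_surjective⟩

private theorem cla_nontrivial (he : CompleteOrthogonalIdempotents e) (i : Fin n)
    (hloc : IsLocalRing (he.idem i).Corner) :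
    Nontrivial (Submodule.span A {e i} : Submodule A A) := by
  refine ⟨⟨claGen e i, 0, fun h => ?_⟩⟩
  have h1 : e i = 0 := congrArg Subtype.val h
  haveI := hloc.toNontrivial
  apply zero_ne_one (α := (he.idem i).Corner)
  apply Subtype.ext
  exact h1.symm

theorem exists_top (he : CompleteOrthogonalIdempotents e) (i : Fin n)
    (hloc : IsLocalRing (he.idem i).Corner) :
    ∃ (S : Type u) (_ : AddCommGroup S) (_ : Module A S) (_ : IsSimpleModule A S)
      (π : (Submodule.span A {e i} : Submodule A A) →ₗ[A] S), Function.Surjective π := by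
  haveI := cla_nontrivial he i hloc
  exact cla_exists_top

theorem top_unique (he : CompleteOrthogonalIdempotents e) (i : Fin n)
    (hloc : IsLocalRing (he.idem i).Corner) {S S' : Type*} [AddCommGroup S] [Module A S]
    [IsSimpleModule A S] [AddCommGroup S'] [Module A S'] [IsSimpleModule A S']
    (π : (Submodule.span A {e i} : Submodule A A) →ₗ[A] S) (hπ : Function.Surjective π)
    (π' : (Submodule.span A {e i} : Submodule A A) →ₗ[A] S') (hπ' : Function.Surjective π') :
    Nonempty (S ≃ₗ[A] S') := by
  have hle : ∀ x, π' x = 0 → π x = 0 := by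
    intro x hx
    by_contra hne
    have hsurj : Function.Surjective (LinearMap.toSpanSingleton A S (π x)) := by
      refine (LinearMap.surjective_or_eq_zero _).resolve_right fun h => hne ?_
      have := LinearMap.congr_fun h 1
      simpa using this
    obtain ⟨a, ha⟩ := hsurj (π (claGen e i))
    rw [LinearMap.toSpanSingleton_apply] at ha
    have hy : e i • (e i • a • x) = e i • a • x := by
      rw [smul_smul, (he.idem i).eq]
    have hy1 : π (e i • a • x) = π (claGen e i) := by
      rw [map_smul, map_smul, ha, ← map_smul, cla_idem_gen he i]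
    have hy2 : π' (e i • a • x) = 0 := by
      rw [map_smul, map_smul, hx, smul_zero, smul_zero]
    rcases cla_local he i hloc _ hy with ⟨d, h1, h2, h3, h4⟩ | ⟨d, h1, h2, h3, h4⟩
    · apply cla_not_zero he i π' hπ'
      have h5 : d • (e i • a • x) = claGen e i := by
        apply Subtype.ext
        exact h3
      rw [← h5, map_smul, hy2, smul_zero]
    · apply cla_not_zero he i π hπ
      have h5 : d • (claGen e i - (e i • a • x)) = claGen e i := by
        apply Subtype.ext
        exact h3
      rw [← h5, map_smul, map_sub, hy1, sub_self, smul_zero]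
  have hker : LinearMap.ker π' ≤ LinearMap.ker π := fun x hx => hle x hx
  have hco : IsCoatom (LinearMap.ker π') := by
    rw [← isSimpleModule_iff_isCoatom]
    exact IsSimpleModule.congr (LinearMap.quotKerEquivOfSurjective π' hπ')
  have hne : LinearMap.ker π ≠ ⊤ := by
    intro h
    apply cla_not_zero he i π hπ
    have : claGen e i ∈ LinearMap.ker π := by rw [h]; trivial
    exact this
  have heq : LinearMap.ker π = LinearMap.ker π' := (hco.le_iff_eq hne).1 hker
  exact ⟨(LinearMap.quotKerEquivOfSurjective π hπ).symm ≪≫ₗ
    Submodule.quotEquivOfEq _ _ heq ≪≫ₗ LinearMap.quotKerEquivOfSurjective π' hπ'⟩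

/-- Every simple module is a quotient of one of the left ideals `A (e i)`. -/
theorem exists_map_simple (he : CompleteOrthogonalIdempotents e) (S : Type w) [AddCommGroup S]
    [Module A S] [IsSimpleModule A S] :
    ∃ (i : Fin n) (π : (Submodule.span A {e i} : Submodule A A) →ₗ[A] S),
      Function.Surjective π := by
  haveI := IsSimpleModule.nontrivial A S
  obtain ⟨s, hs⟩ := exists_ne (0 : S)
  have hsum : ∑ i, e i • s = s := by
    rw [← Finset.sum_smul, he.complete, one_smul]
  obtain ⟨i, hi⟩ : ∃ i, e i • s ≠ 0 := by
    by_contra hne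
    push Not at hne
    apply hs
    rw [← hsum]
    exact Finset.sum_eq_zero fun i _ => hne i
  refine ⟨i, (LinearMap.toSpanSingleton A S s) ∘ₗ (Submodule.span A {e i}).subtype, ?_⟩
  refine (LinearMap.surjective_or_eq_zero _).resolve_right fun h => hi ?_
  exact LinearMap.congr_fun h (claGen e i)

/-- If all idempotents `e i` are local, every finitely generated projective module is a direct
sum of left ideals `A (e i)`. -/
theorem isStd_of_projective (K : Type v) [Field K] [Algebra K A] [FiniteDimensional K A]
    (he : CompleteOrthogonalIdempotents e) (hloc : ∀ i, IsLocalRing (he.idem i).Corner)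
    (P : Type u) [AddCommGroup P] [Module A P] [Module.Finite A P] [Module.Projective A P] :
    IsStd e P := by
  obtain ⟨k, hk⟩ : ∃ k, kdim (A := A) K P = k := ⟨_, rfl⟩
  induction k using Nat.strong_induction_on generalizing P with
  | _ k ih =>
    rcases subsingleton_or_nontrivial P with hs | hnt
    · refine isStd_of_equiv (isStd_punit (e := e)) (?_ : PUnit.{u+1} ≃ₗ[A] P)
      exact LinearEquiv.ofBijective (0 : PUnit.{u+1} →ₗ[A] P)
        ⟨fun _ _ _ => rfl, fun y => ⟨PUnit.unit, Subsingleton.elim _ _⟩⟩
    · obtain ⟨S, i1, i2, i3, ρ, hρ⟩ := cla_exists_top (A := A) (M := P)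
      obtain ⟨i, π, hπ⟩ := exists_map_simple he S
      have hstd : IsStd e (Submodule.span A {e i} : Submodule A A) :=
        ⟨1, fun _ => i, ⟨(LinearEquiv.funUnique (Fin 1) A
          (Submodule.span A {e i} : Submodule A A)).symm⟩⟩
      haveI : Module.Projective A (Submodule.span A {e i} : Submodule A A) :=
        isStd_projective he hstd
      obtain ⟨Q, j1, j2, j3, j4, ⟨ε⟩⟩ := split_cover K hπ
        (minimal_of_local he i (hloc i) π hπ) hρ
      haveI := cla_nontrivial he i (hloc i)
      haveI : Module.Finite A (Submodule.span A {e i} : Submodule A A) := isStd_finite hstd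
      have hd : kdim (A := A) K Q < k := by
        rw [← hk, kdim_congr K ε, kdim_prod K]
        have := kdim_pos (A := A) K (Submodule.span A {e i} : Submodule A A)
        omega
      exact isStd_of_equiv (isStd_prod hstd (ih _ hd Q rfl)) ε.symm

end Pool.Agent.H13.MF
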