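import Pool.Agent.H51.T2.Main

/-! For a map of projective modules which is not rigid: the image of a nonzero map from the
cokernel to the Auslander-Reiten translate of minimal rank. -/

set_option linter.unusedSectionVars false

namespace Pool.Agent.H13.MF

open Module Pool.Agent.H51.T2

variable {K : Type*} [Field K] {A : Type*} [Ring A] [Algebra K A]
variable {P Q N : Type*}
variable [AddCommGroup P] [Module K P] [Module A P] [IsScalarTower K A P]
variable [AddCommGroup Q] [Module K Q] [Module A Q] [IsScalarTower K A Q]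
variable [AddCommGroup N] [Module K N] [Module A N] [IsScalarTower K A N]

/-- The map `p ↦ u p • y`. -/
def sm (u : P →ₗ[A] A) (y : N) : P →ₗ[A] N := LinearMap.toSpanSingleton A N y ∘ₗ u

@[simp] theorem sm_apply (u : P →ₗ[A] A) (y : N) (p : P) : sm u y p = u p • y := by
  simp [sm]

theorem sm_add (u : P →ₗ[A] A) (y y' : N) : sm u (y + y') = sm u y + sm u y' := by
  ext; simp

theorem sm_comp {M : Type*} [AddCommGroup M] [Module A M] (φ : N →ₗ[A] M) (u : P →ₗ[A] A) (y : N) :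
    φ ∘ₗ sm u y = sm u (φ y) := by
  ext; simp

/-- The elements annihilated by a functional. -/
def kerFun (ψ : (P →ₗ[A] N) →ₗ[K] K) : Submodule A N where
  carrier := {y | ∀ u : P →ₗ[A] A, ψ (sm u y) = 0}
  add_mem' := fun {a b} ha hb u => by rw [sm_add, map_add, ha u, hb u, add_zero]
  zero_mem' := fun u => by
    have : sm u (0 : N) = 0 := by ext; simp
    rw [this, map_zero]
  smul_mem' := fun a y hy u => by
    have : sm u (a • y) = sm (LinearMap.toSpanSingleton A A a ∘ₗ u) y := by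
      ext p
      simp [mul_smul]
    rw [this]
    exact hy _

theorem mem_kerFun {ψ : (P →ₗ[A] N) →ₗ[K] K} {y : N} :
    y ∈ kerFun ψ ↔ ∀ u : P →ₗ[A] A, ψ (sm u y) = 0 := Iff.rfl

/-- The maps `sm u y` generate. -/
theorem hom_eq_sum [Module.Finite A P] [Module.Projective A P] (k : P →ₗ[A] N) :
    ∃ (n : ℕ) (x : Fin n → P) (u : Fin n → (P →ₗ[A] A)), k = ∑ i, sm (u i) (k (x i)) := by
  obtain ⟨n, ρ, hρ⟩ := Module.Finite.exists_fin' A P
  obtain ⟨s, hs⟩ := Module.projective_lifting_property ρ LinearMap.id hρ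
  refine ⟨n, fun i => ρ (Pi.single i 1), fun i => LinearMap.proj i ∘ₗ s, ?_⟩
  ext x
  have h1 : ρ (s x) = x := LinearMap.congr_fun hs x
  have h2 : s x = ∑ i : Fin n, (s x i) • (Pi.single i (1 : A) : Fin n → A) := by
    ext j
    simp [Finset.sum_apply, Pi.single_apply]
  have h3 : k x = ∑ i : Fin n, (s x i) • k (ρ (Pi.single i 1)) := by
    conv_lhs => rw [← h1, h2]
    simp [map_sum, map_smul]
  rw [h3]
  simp [LinearMap.sum_apply]

theorem fun_eq_zero_of_kerFun_top [Module.Finite A P] [Module.Projective A P]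
    {ψ : (P →ₗ[A] N) →ₗ[K] K} (h : kerFun ψ = ⊤) : ψ = 0 := by
  ext k
  obtain ⟨n, x, u, hk⟩ := hom_eq_sum k
  rw [hk, map_sum, LinearMap.zero_apply]
  refine Finset.sum_eq_zero fun i _ => ?_
  have : k (x i) ∈ kerFun ψ := by rw [h]; trivial
  exact this (u i)

theorem fun_eq_zero_of_range [Module.Finite A P] [Module.Projective A P]
    {ψ : (P →ₗ[A] N) →ₗ[K] K} {k : P →ₗ[A] N} (h : ∀ x, k x ∈ kerFun ψ) : ψ k = 0 := by
  obtain ⟨n, x, u, hk⟩ := hom_eq_sum k
  rw [hk, map_sum]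
  exact Finset.sum_eq_zero fun i _ => h (x i) (u i)

/-- The functionals orthogonal to the tangent space of the orbit of `f`; they correspond to the
homomorphisms from the cokernel of `f` to its Auslander-Reiten translate. -/
def Orth (f : P →ₗ[A] Q) (κ : (P →ₗ[A] Q) →ₗ[K] K) : Prop :=
  (∀ s : P →ₗ[A] P, κ (f ∘ₗ s) = 0) ∧ ∀ t : Q →ₗ[A] Q, κ (t ∘ₗ f) = 0

theorem exists_orth {f : P →ₗ[A] Q} (hf : ¬ Rigid f) :
    ∃ κ : (P →ₗ[A] Q) →ₗ[K] K, κ ≠ 0 ∧ Orth f κ := by
  rw [Rigid, eZero_iff_range (K := K)] at hf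
  obtain ⟨h, hh⟩ : ∃ h, h ∉ LinearMap.range (dd K f f) := by
    by_contra hc
    push Not at hc
    exact hf (eq_top_iff.2 fun x _ => hc x)
  obtain ⟨κ, h1, h2⟩ := Submodule.exists_le_ker_of_notMem hh
  refine ⟨κ, fun h => h1 (by rw [h]; rfl), fun s => ?_, fun t => ?_⟩
  · have : f ∘ₗ s ∈ LinearMap.range (dd K f f) := ⟨(s, 0), by rw [dd_apply]; ext; simp⟩
    exact h2 this
  · have : t ∘ₗ f ∈ LinearMap.range (dd K f f) := ⟨(0, -t), by rw [dd_apply]; ext; simp⟩
    exact h2 this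

/-- The quotient attached to `f` is: a nonzero quotient `Q ⧸ R` with `f P ⊆ R` such that all
nonzero homomorphisms `Q → Q ⧸ R` vanishing on `f P` are surjective, all nonzero functionals on
`Hom (P, Q ⧸ R)` vanishing on `Hom (Q, Q ⧸ R) f` are faithful, and such functionals exist. -/
structure MinQuot (K : Type*) [Field K] {A : Type*} [Ring A] [Algebra K A] {P Q : Type*}
    [AddCommGroup P] [Module K P] [Module A P] [IsScalarTower K A P]
    [AddCommGroup Q] [Module K Q] [Module A Q] [IsScalarTower K A Q]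
    (f : P →ₗ[A] Q) (R : Submodule A Q) : Prop where
  ne_top : R ≠ ⊤
  map_mem : ∀ x, f x ∈ R
  surj : ∀ φ : Q →ₗ[A] (Q ⧸ R), φ ∘ₗ f = 0 → φ ≠ 0 → Function.Surjective φ
  inj : ∀ ψ : (P →ₗ[A] (Q ⧸ R)) →ₗ[K] K, (∀ φ : Q →ₗ[A] (Q ⧸ R), ψ (φ ∘ₗ f) = 0) → ψ ≠ 0 →
    ∀ n : Q ⧸ R, n ≠ 0 → ∃ u : P →ₗ[A] A, ψ (sm u n) ≠ 0
  exi : ∃ ψ : (P →ₗ[A] (Q ⧸ R)) →ₗ[K] K, (∀ φ : Q →ₗ[A] (Q ⧸ R), ψ (φ ∘ₗ f) = 0) ∧ ψ ≠ 0

theorem exists_minQuot [FiniteDimensional K P] [FiniteDimensional K Q] [Module.Finite A P]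
    [Module.Projective A P] [Module.Projective A Q] {f : P →ₗ[A] Q} (hf : ¬ Rigid f) :
    ∃ R : Submodule A Q, MinQuot K f R := by
  classical
  -- choose a nonzero orthogonal functional whose annihilator is as large as possible
  let S : Set ℕ := {n | ∃ κ : (P →ₗ[A] Q) →ₗ[K] K, κ ≠ 0 ∧ Orth f κ ∧
    finrank K (Q ⧸ kerFun κ) = n}
  have hS : S.Nonempty := by
    obtain ⟨κ, h1, h2⟩ := exists_orth (K := K) hf
    exact ⟨_, κ, h1, h2, rfl⟩
  obtain ⟨κ, hκ0, hκ, hκm⟩ := Nat.sInf_mem hS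
  have hmin : ∀ κ' : (P →ₗ[A] Q) →ₗ[K] K, κ' ≠ 0 → Orth f κ' →
      finrank K (Q ⧸ kerFun κ) ≤ finrank K (Q ⧸ kerFun κ') := by
    intro κ' h1 h2
    rw [hκm]
    exact Nat.sInf_le ⟨κ', h1, h2, rfl⟩
  set R := kerFun κ with hR
  let π : Q →ₗ[A] (Q ⧸ R) := R.mkQ
  -- the functional on maps to the quotient
  have hlift : ∀ k : P →ₗ[A] (Q ⧸ R), ∃ k' : P →ₗ[A] Q, π ∘ₗ k' = k := fun k =>
    Module.projective_lifting_property π k (Submodule.mkQ_surjective R)
  have hwd : ∀ k : P →ₗ[A] Q, π ∘ₗ k = 0 → κ k = 0 := by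
    intro k hk
    refine fun_eq_zero_of_range fun x => ?_
    have := LinearMap.congr_fun hk x
    rw [LinearMap.comp_apply, LinearMap.zero_apply, Submodule.mkQ_apply,
      Submodule.Quotient.mk_eq_zero] at this
    exact this
  let Pi0 : (P →ₗ[A] Q) →ₗ[K] (P →ₗ[A] (Q ⧸ R)) := compB K P Q (Q ⧸ R) π
  have hPs : Function.Surjective Pi0 := fun k => hlift k
  have hPk : LinearMap.ker Pi0 ≤ LinearMap.ker κ := fun k hk => hwd k hk
  obtain ⟨ι, hι⟩ : ∃ ι : (P →ₗ[A] (Q ⧸ R)) →ₗ[K] K, ι ∘ₗ Pi0 = κ := by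
    obtain ⟨s, hs⟩ := LinearMap.exists_rightInverse_of_surjective Pi0 (LinearMap.range_eq_top.2 hPs)
    refine ⟨κ ∘ₗ s, ?_⟩
    ext k
    have h1 : Pi0 (s (Pi0 k) - k) = 0 := by
      rw [map_sub]
      have := LinearMap.congr_fun hs (Pi0 k)
      simp only [LinearMap.comp_apply, LinearMap.id_apply] at this
      rw [this, sub_self]
    have h2 : κ (s (Pi0 k) - k) = 0 := hPk h1
    rw [map_sub, sub_eq_zero] at h2
    exact h2
  have hι' : ∀ k : P →ₗ[A] Q, ι (π ∘ₗ k) = κ k := fun k => LinearMap.congr_fun hι k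
  have hιf : ∀ φ : Q →ₗ[A] (Q ⧸ R), ι (φ ∘ₗ f) = 0 := by
    intro φ
    obtain ⟨t, ht⟩ := Module.projective_lifting_property π φ (Submodule.mkQ_surjective R)
    rw [← ht, LinearMap.comp_assoc, hι']
    exact hκ.2 t
  have hιker : ∀ n : Q ⧸ R, (∀ u : P →ₗ[A] A, ι (sm u n) = 0) → n = 0 := by
    intro n hn
    obtain ⟨y, rfl⟩ := Submodule.mkQ_surjective R n
    rw [Submodule.mkQ_apply, Submodule.Quotient.mk_eq_zero, hR, mem_kerFun]
    intro u
    rw [← hι', sm_comp]
    exact hn u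
  have hfR : ∀ x, f x ∈ R := by
    intro x
    rw [hR, mem_kerFun]
    intro u
    have : sm u (f x) = f ∘ₗ sm u x := by rw [sm_comp]
    rw [this]
    exact hκ.1 _
  have hπf : π ∘ₗ f = 0 := by
    ext x
    simp only [π, LinearMap.comp_apply, LinearMap.zero_apply, Submodule.mkQ_apply,
      Submodule.Quotient.mk_eq_zero]
    exact hfR x
  have hRtop : R ≠ ⊤ := fun h => hκ0 (fun_eq_zero_of_kerFun_top h)
  refine ⟨R, hRtop, hfR, ?_, ?_, ⟨ι, hιf, fun h => hκ0 (by rw [← hι, h]; rfl)⟩⟩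
  · intro φ hφf hφ0
    -- the functional `g ↦ ι (φ g)`
    let κ' : (P →ₗ[A] Q) →ₗ[K] K := ι ∘ₗ compB K P Q (Q ⧸ R) φ
    have hκ' : ∀ g, κ' g = ι (φ ∘ₗ g) := fun g => rfl
    have horth : Orth f κ' := by
      refine ⟨fun s => ?_, fun t => ?_⟩
      · rw [hκ', ← LinearMap.comp_assoc, hφf, LinearMap.zero_comp, map_zero]
      · rw [hκ', ← LinearMap.comp_assoc]
        exact hιf _
    have hker : kerFun κ' = LinearMap.ker φ := by
      ext y
      rw [mem_kerFun, LinearMap.mem_ker]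
      constructor
      · intro h
        apply hιker
        intro u
        have := h u
        rwa [hκ', sm_comp] at this
      · intro h u
        rw [hκ', sm_comp, h]
        have : sm u (0 : Q ⧸ R) = 0 := by ext; simp
        rw [this, map_zero]
    have hne : κ' ≠ 0 := by
      intro h
      apply hφ0
      have : kerFun κ' = ⊤ := by
        rw [eq_top_iff]
        intro y _ u
        rw [h]; rfl
      rw [hker] at this
      exact LinearMap.ker_eq_top.1 this
    have h1 := hmin κ' hne horth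
    rw [hker] at h1
    have h2 : finrank K (Q ⧸ LinearMap.ker φ) = finrank K (LinearMap.range φ) :=
      LinearEquiv.finrank_eq (φ.quotKerEquivRange.restrictScalars K)
    rw [h2] at h1
    have h3 : (LinearMap.range φ).restrictScalars K = ⊤ :=
      Submodule.eq_top_of_finrank_eq (le_antisymm (Submodule.finrank_le _) h1)
    intro y
    have : y ∈ (LinearMap.range φ).restrictScalars K := by rw [h3]; trivial
    exact this
  · intro ψ hψf hψ0 n hn
    by_contra hc
    push Not at hc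
    let κ' : (P →ₗ[A] Q) →ₗ[K] K := ψ ∘ₗ Pi0
    have hκ' : ∀ g, κ' g = ψ (π ∘ₗ g) := fun g => rfl
    have horth : Orth f κ' := by
      refine ⟨fun s => ?_, fun t => ?_⟩
      · rw [hκ', ← LinearMap.comp_assoc, hπf, LinearMap.zero_comp, map_zero]
      · rw [hκ', ← LinearMap.comp_assoc]
        exact hψf _
    have hne : κ' ≠ 0 := by
      intro h
      apply hψ0
      ext k
      obtain ⟨k', rfl⟩ := hlift k
      exact LinearMap.congr_fun h k'
    have h1 := hmin κ' hne horth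
    -- the kernel of the new functional is strictly larger
    obtain ⟨y, rfl⟩ := Submodule.mkQ_surjective R n
    have h2 : R ≤ kerFun κ' := by
      intro z hz u
      have hz0 : π z = 0 := by
        simp only [π, Submodule.mkQ_apply, Submodule.Quotient.mk_eq_zero]
        exact hz
      rw [hκ', sm_comp, hz0]
      have : sm u (0 : Q ⧸ R) = 0 := by ext; simp
      rw [this, map_zero]
    have h3 : y ∈ kerFun κ' := by
      intro u
      rw [hκ', sm_comp]
      exact hc u
    have h4 : y ∉ R := by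
      intro h
      apply hn
      rw [Submodule.mkQ_apply, Submodule.Quotient.mk_eq_zero]
      exact h
    have h5 : (R.restrictScalars K) < ((kerFun κ').restrictScalars K) := by
      refine lt_of_le_of_ne h2 fun h => h4 ?_
      have : y ∈ (R.restrictScalars K) := by rw [h]; exact h3
      exact this
    have h6 := Submodule.finrank_lt_finrank_of_lt h5
    have h7 := Submodule.finrank_quotient_add_finrank (R.restrictScalars K)
    have h8 := Submodule.finrank_quotient_add_finrank ((kerFun κ').restrictScalars K)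
    have h9 : finrank K (Q ⧸ R) = finrank K (Q ⧸ (R.restrictScalars K)) := rfl
    have h10 : finrank K (Q ⧸ kerFun κ') = finrank K (Q ⧸ ((kerFun κ').restrictScalars K)) := rfl
    omega

end Pool.Agent.H13.MF
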