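import Pool.Agent.H13.MF.Lin
import Pool.Agent.H13.MF.Minimal

/-! If no map `P → Q` is rigid, the quotients attached to the maps `P → Q` do not belong to any
finite list of modules. -/

set_option linter.unusedSectionVars false

namespace Pool.Agent.H13.MF

open Module Pool.Agent.H51.T2

variable {K : Type*} [Field K] {A : Type*} [Ring A] [Algebra K A]
variable {P Q : Type*}
variable [AddCommGroup P] [Module K P] [Module A P] [IsScalarTower K A P]
variable [AddCommGroup Q] [Module K Q] [Module A Q] [IsScalarTower K A Q]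

/-- The map `Hom (f, N)`, linear in `f`. -/
def homF (K : Type*) [Field K] {A : Type*} [Ring A] [Algebra K A] (P Q N : Type*)
    [AddCommGroup P] [Module K P] [Module A P] [IsScalarTower K A P]
    [AddCommGroup Q] [Module K Q] [Module A Q] [IsScalarTower K A Q]
    [AddCommGroup N] [Module K N] [Module A N] [IsScalarTower K A N] :
    (P →ₗ[A] Q) →ₗ[K] ((Q →ₗ[A] N) →ₗ[K] (P →ₗ[A] N)) := (compB K P Q N).flip

@[simp] theorem homF_apply {N : Type*} [AddCommGroup N] [Module K N] [Module A N]
    [IsScalarTower K A N] (f : P →ₗ[A] Q) (φ : Q →ₗ[A] N) : homF K P Q N f φ = φ ∘ₗ f := rfl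

theorem homF_line {N : Type*} [AddCommGroup N] [Module K N] [Module A N]
    [IsScalarTower K A N] (x y : P →ₗ[A] Q) :
    PolyMap (fun t : K => homF K P Q N (x + t • (y - x))) :=
  ((PolyMap.const x).add (PolyMap.id.smul (PolyMap.const (y - x)))).linear (homF K P Q N)

theorem core [Infinite K] [FiniteDimensional K P] [FiniteDimensional K Q] [Module.Projective A P]
    {ι : Type*} (s : Finset ι) (X : ι → Type*) [∀ i, AddCommGroup (X i)] [∀ i, Module K (X i)]
    [∀ i, Module A (X i)] [∀ i, IsScalarTower K A (X i)] [∀ i, FiniteDimensional K (X i)] :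
    ∃ f : P →ₗ[A] Q, ∀ R : Submodule A Q, MinQuot K f R → ∀ i ∈ s,
      ¬ Nonempty ((Q ⧸ R) ≃ₗ[A] X i) := by
  classical
  haveI : ∀ i, FiniteDimensional K (Q →ₗ[A] X i) := fun i => finite_hom
  haveI : ∀ i, FiniteDimensional K (P →ₗ[A] X i) := fun i => finite_hom
  obtain ⟨f, hf⟩ := exists_good_line (K := K) (X := P →ₗ[A] Q) s (V := fun i => Q →ₗ[A] X i)
    (V' := fun i => P →ₗ[A] X i) (fun i => homF K P Q (X i)) (fun i x y => homF_line x y)
  refine ⟨f, fun R hR i hi ⟨e⟩ => ?_⟩
  obtain ⟨ψ, hψ, hψ0⟩ := hR.exi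
  apply hψ0
  -- the projection, viewed as a map to `X i`
  let φ : Q →ₗ[A] X i := e.toLinearMap ∘ₗ R.mkQ
  have hφs : Function.Surjective φ := e.surjective.comp (Submodule.mkQ_surjective R)
  have hφf : homF K P Q (X i) f φ = 0 := by
    rw [homF_apply]
    ext x
    have : R.mkQ (f x) = 0 := by
      rw [Submodule.mkQ_apply, Submodule.Quotient.mk_eq_zero]
      exact hR.map_mem x
    simp only [φ, LinearMap.comp_apply, this, map_zero, LinearMap.zero_apply]
  have htop : ∀ k : P →ₗ[A] X i, k ∈ LinearMap.range (homF K P Q (X i) f) := by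
    intro k
    obtain ⟨g, hg⟩ := Module.projective_lifting_property φ k hφs
    rw [← hg]
    have := tangent (K := K) (T₀ := homF K P Q (X i) f) (T := homF K P Q (X i) g) (fun t => by
      have := hf i hi (f + t • g)
      rwa [map_add, map_smul] at this) hφf
    exact this
  ext k
  obtain ⟨l, hl⟩ := htop (e.toLinearMap ∘ₗ k)
  have h1 : k = (e.symm.toLinearMap ∘ₗ l) ∘ₗ f := by
    ext x
    have := LinearMap.congr_fun hl x
    simp only [homF_apply, LinearMap.comp_apply, LinearEquiv.coe_coe] at this ⊢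
    rw [this, LinearEquiv.symm_apply_apply]
  rw [h1]
  exact hψ _

end Pool.Agent.H13.MF
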