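import Pool.Agent.H51.MF.Stmts

/-! Finitely many bricks in every dimension. -/

set_option linter.unusedSectionVars false
set_option linter.style.haveILetI false

universe u v

namespace Pool.Agent.H13.MF

open Module Pool.Agent.H51.T2 Pool.Agent.H51.MF

variable {K : Type v} [Field K] {A : Type u} [Ring A] [Algebra K A]

/-- The dimension of the space of `A`-linear maps is at most the one of `K`-linear maps. -/
theorem hd_le (X Y : FM K A) : hd X Y ≤ finrank K X * finrank K Y := by
  rw [← Module.finrank_linearMap K K X Y]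
  let r : (X →ₗ[A] Y) →ₗ[K] (X →ₗ[K] Y) :=
    { toFun := fun φ => φ.restrictScalars K
      map_add' := fun _ _ => rfl
      map_smul' := fun _ _ => rfl }
  exact LinearMap.finrank_le_finrank_of_injective (f := r) fun φ ψ h => by
    ext x
    exact LinearMap.congr_fun h x

/-- The dimension vectors of the modules of a given dimension. -/
theorem finite_v (c : Coo K A) (D : ℕ) :
    {w : Fin c.n → ℤ | ∃ X : FM K A, finrank K X = D ∧ c.v X = w}.Finite := by
  refine (Set.finite_Icc (0 : Fin c.n → ℤ)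
    (fun i => ((finrank K (c.E i) * D : ℕ) : ℤ))).subset ?_
  rintro w ⟨X, hX, rfl⟩
  constructor
  · intro i
    exact Int.natCast_nonneg _
  · intro i
    show ((hd (c.E i) X : ℕ) : ℤ) ≤ ((finrank K (c.E i) * D : ℕ) : ℤ)
    rw [← hX]
    exact Int.ofNat_le.2 (hd_le (c.E i) X)

/-- A finite union of finite lists. -/
theorem exists_list {ι : Type*} {T : Type*} (s : Set ι) (hs : s.Finite) (p : T → Prop)
    (q : ι → T → Prop) (r : T → T → Prop) (h : ∀ i, ∃ L : List T, ∀ x, p x → q i x → ∃ y ∈ L, r x y) :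
    ∃ L : List T, ∀ x, p x → (∃ i ∈ s, q i x) → ∃ y ∈ L, r x y := by
  classical
  choose L hL using h
  refine ⟨(hs.toFinset.toList).flatMap L, ?_⟩
  rintro x hx ⟨i, hi, hq⟩
  obtain ⟨y, hy, hr⟩ := hL i x hx hq
  exact ⟨y, List.mem_flatMap.2 ⟨i, by simpa using hi, hy⟩, hr⟩

/-- Finitely many bricks in every dimension. -/
theorem bricks_of_brk [Infinite K] [FiniteDimensional K A] (hCOORD : S_COORD K A)
    (hBRK : S_BRK K A) (h : HR K A) (D : ℕ) :
    ∃ L : List (FM K A), ∀ M : FM K A, Brick A M → finrank K M = D →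
      ∃ X ∈ L, Nonempty (M ≃ₗ[A] X) := by
  obtain ⟨c⟩ := hCOORD inferInstance
  obtain ⟨L, hL⟩ := exists_list _ (finite_v c D) (fun M : FM K A => Brick A M)
    (fun w M => c.v M = w) (fun M X => Nonempty (M ≃ₗ[A] X))
    (fun w => by
      obtain ⟨L, hL⟩ := hBRK inferInstance inferInstance h c w
      exact ⟨L, fun M h1 h2 => hL M h1 h2⟩)
  exact ⟨L, fun M hM hD => hL M hM ⟨c.v M, ⟨M, hD, rfl⟩, rfl⟩⟩

end Pool.Agent.H13.MF
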