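import Pool.Agent.H13.MF.PFin
import Pool.Agent.H13.MF.Fin
import Pool.Agent.H13.MF.Abstract
import Pool.Agent.H13.MF.CLA

/-! The multiplicity-free conjecture: assembly. -/

set_option linter.unusedSectionVars false
set_option linter.style.haveILetI false

universe u v w

namespace Pool.Agent.H13.MF

open Module Pool.Agent.H51.T2 Pool.Agent.H51.MF

variable {K : Type v} [Field K] {A : Type u} [Ring A] [Algebra K A] {n : ℕ} {e : Fin n → A}

theorem finrank_eq_sum (he : CompleteOrthogonalIdempotents e) (M : Type*) [AddCommGroup M]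
    [Module K M] [Module A M] [IsScalarTower K A M] [FiniteDimensional K M] :
    finrank K M = ∑ i, finrank K (LinearMap.range (eK K (e i) M)) := by
  let f : M →ₗ[K] (∀ i, LinearMap.range (eK K (e i) M)) :=
    LinearMap.pi fun i => (eK K (e i) M).rangeRestrict
  have hf : ∀ x i, ((f x i : LinearMap.range (eK K (e i) M)) : M) = e i • x := fun x i => rfl
  have hi : Function.Injective f := by
    intro x y h
    have h1 : ∀ z : M, ∑ i, e i • z = z := fun z => by
      rw [← Finset.sum_smul, he.complete, one_smul]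
    rw [← h1 x, ← h1 y]
    refine Finset.sum_congr rfl fun i _ => ?_
    rw [← hf, ← hf, h]
  have hs : Function.Surjective f := by
    intro y
    refine ⟨∑ i, (y i : M), ?_⟩
    funext j
    apply Subtype.ext
    rw [hf, Finset.smul_sum, Finset.sum_eq_single j]
    · obtain ⟨z, hz⟩ := (y j).2
      rw [← hz]
      show e j • (e j • z) = e j • z
      rw [smul_smul, (he.idem j).eq]
    · intro i _ hij
      obtain ⟨z, hz⟩ := (y i).2
      rw [← hz]
      show e j • (e i • z) = 0
      rw [smul_smul, he.ortho (Ne.symm hij), zero_smul]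
    · intro h
      exact absurd (Finset.mem_univ j) h
  rw [LinearEquiv.finrank_eq (LinearEquiv.ofBijective f ⟨hi, hs⟩), Module.finrank_pi_fintype]

/-- A finite-dimensional module is isomorphic to one in the universe of the algebra. -/
theorem exists_small [FiniteDimensional K A] (X : BM.{u, v, w} K A) :
    ∃ Y : BM.{u, v, u} K A, Nonempty (X ≃ₗ[A] Y) := by
  haveI : Module.Finite A X := Module.Finite.of_restrictScalars_finite K A X
  obtain ⟨k, π, hπ⟩ := Module.Finite.exists_fin' A X
  let F : BM.{u, v, u} K A := { C := Fin k → A }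
  let R : Submodule A F := LinearMap.ker π
  refine ⟨F.quot R, ⟨?_⟩⟩
  exact (LinearMap.quotKerEquivOfSurjective π hπ).symm

/-- An algebra with finitely many bricks in every dimension vector is multiplicity-free. -/
theorem isMF_of_finite [Infinite K] [FiniteDimensional K A] (he : CompleteOrthogonalIdempotents e)
    (h : ∀ d : Fin n → ℕ, ∃ L : List (ModuleCat.{u} A), ∀ (M : Type u) [AddCommGroup M]
      [Module K M] [Module A M] [IsScalarTower K A M] [FiniteDimensional K M], Nontrivial M →
      (∀ φ : M →ₗ[A] M, φ ≠ 0 → Function.Bijective φ) →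
      (∀ i, finrank K (LinearMap.range (Algebra.lsmul K K M (e i))) = d i) →
      ∃ X ∈ L, Nonempty (M ≃ₗ[A] X)) : IsMF K A e := by
  refine isMF_of_classes he.idem fun d => ?_
  obtain ⟨L, hL⟩ := h d
  refine ⟨L.length, fun k X => Nonempty (X ≃ₗ[A] L.get k), ?_, ?_⟩
  · rintro k X Y ⟨ε⟩ ⟨ε'⟩
    exact ⟨ε ≪≫ₗ ε'.symm⟩
  · intro X hX hbr hdv
    obtain ⟨Y, ⟨ε⟩⟩ := exists_small X
    haveI : Nontrivial X := hX
    obtain ⟨Z, hZ, ⟨ε'⟩⟩ := hL Y ε.symm.toEquiv.nontrivial (fun φ hφ => by
      have h1 := hbr (ε.symm.toLinearMap ∘ₗ φ ∘ₗ ε.toLinearMap) (fun h0 => hφ (by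
        ext y
        have h2 := LinearMap.congr_fun h0 (ε.symm y)
        simpa using h2))
      have h2 : (φ : Y → Y) = ε ∘ (ε.symm.toLinearMap ∘ₗ φ ∘ₗ ε.toLinearMap) ∘ ε.symm := by
        funext y
        simp
      rw [h2]
      exact ε.bijective.comp (h1.comp ε.symm.bijective)) (fun i => by
      rw [← hdv i]
      exact (rk_congr (e i) ε).symm)
    obtain ⟨k, hk⟩ := List.mem_iff_get.1 hZ
    subst hk
    exact ⟨k, ⟨ε ≪≫ₗ ε'⟩⟩

/-- A multiplicity-free algebra has finitely many bricks in every dimension vector. -/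
theorem finite_of_isMF [Infinite K] [FiniteDimensional K A] (hCOORD : S_COORD K A)
    (hBRK : S_BRK K A) (he : CompleteOrthogonalIdempotents e)
    (hloc : ∀ i, IsLocalRing (he.idem i).Corner) (hMF : IsMF K A e) (d : Fin n → ℕ) :
    ∃ L : List (ModuleCat.{u} A), ∀ (M : Type u) [AddCommGroup M]
      [Module K M] [Module A M] [IsScalarTower K A M] [FiniteDimensional K M], Nontrivial M →
      (∀ φ : M →ₗ[A] M, φ ≠ 0 → Function.Bijective φ) →
      (∀ i, finrank K (LinearMap.range (Algebra.lsmul K K M (e i))) = d i) →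
      ∃ X ∈ L, Nonempty (M ≃ₗ[A] X) := by
  have hHR : HR K A := by
    intro P Q hP hQ
    haveI : Module.Finite A P := Module.Finite.of_restrictScalars_finite K A P
    haveI : Module.Finite A Q := Module.Finite.of_restrictScalars_finite K A Q
    exact rigid_of_classes K he (hasClasses_of_isMF K he hMF) P Q
      (isStd_of_projective K he hloc P) (isStd_of_projective K he hloc Q)
  obtain ⟨L, hL⟩ := bricks_of_brk hCOORD hBRK hHR (∑ i, d i)
  refine ⟨L.map fun X : FM K A => ModuleCat.of A X.C, ?_⟩
  intro M _ _ _ _ _ hM hbr hdv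
  let M' : FM K A := { C := M }
  obtain ⟨X, hX, hiso⟩ := hL M' ⟨hM, hbr⟩ (by
    show finrank K M = ∑ i, d i
    rw [finrank_eq_sum he M]
    exact Finset.sum_congr rfl fun i _ => hdv i)
  exact ⟨ModuleCat.of A X, List.mem_map.2 ⟨X, hX, rfl⟩, hiso⟩

/-- Over an algebraically closed field the bricks are the Schur modules. -/
theorem brick_iff_schur [IsAlgClosed K] (M : Type*) [AddCommGroup M] [Module K M] [Module A M]
    [IsScalarTower K A M] [FiniteDimensional K M] [Nontrivial M] :
    (∀ φ : M →ₗ[A] M, φ ≠ 0 → Function.Bijective φ) ↔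
      ∀ φ : M →ₗ[A] M, ∃ c : K, ∀ x, φ x = c • x := by
  constructor
  · intro h φ
    obtain ⟨c, hc⟩ := Module.End.exists_eigenvalue (φ.restrictScalars K : Module.End K M)
    obtain ⟨x, hx, hx0⟩ := hc.exists_hasEigenvector
    refine ⟨c, fun y => ?_⟩
    by_contra hne
    let ψ : M →ₗ[A] M :=
      { toFun := fun z => φ z - c • z
        map_add' := fun z z' => by rw [map_add, smul_add]; abel
        map_smul' := fun a z => by
          rw [map_smul, RingHom.id_apply, smul_sub]
          congr 1
          have h1 : c • (a • z) = (algebraMap K A c * a) • z := by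
            rw [mul_smul, algebraMap_smul]
          have h2 : a • (c • z) = (a * algebraMap K A c) • z := by
            rw [mul_smul, algebraMap_smul]
          rw [h1, h2, Algebra.commutes] }
    have h1 : ψ ≠ 0 := fun h0 => hne (by
      have := LinearMap.congr_fun h0 y
      exact sub_eq_zero.1 this)
    have h2 := (h ψ h1).1
    have h3 : ψ x = ψ 0 := by
      rw [map_zero]
      show φ x - c • x = 0
      have := Module.End.mem_eigenspace_iff.1 hx
      exact sub_eq_zero.2 this
    exact hx0 (h2 h3)
  · intro h φ hφ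
    obtain ⟨c, hc⟩ := h φ
    have hc0 : c ≠ 0 := by
      rintro rfl
      apply hφ
      ext x
      rw [hc, zero_smul]
      rfl
    constructor
    · intro x y hxy
      rw [hc, hc] at hxy
      exact smul_right_injective _ hc0 hxy
    · intro x
      exact ⟨c⁻¹ • x, by rw [hc, smul_smul, mul_inv_cancel₀ hc0, one_smul]⟩

end Pool.Agent.H13.MF
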