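import Pool.Agent.H13.MF.Stable
import Pool.Agent.H51.T2.Cover

/-! Finitely generated projective modules and idempotents: the dimension of `Hom (P, M)`. -/

set_option linter.unusedSectionVars false
set_option linter.style.haveILetI false

universe u v w

namespace Pool.Agent.H13.MF

open Module Pool.Agent.H51.T2

/-- The action of an element of the algebra as a linear map over the field. -/
def actK (K : Type*) [Field K] {A : Type*} [Ring A] [Algebra K A] (a : A) (M : Type*)
    [AddCommGroup M] [Module K M] [Module A M] [IsScalarTower K A M] : M →ₗ[K] M where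
  toFun m := a • m
  map_add' m m' := smul_add a m m'
  map_smul' c m := by
    show a • (c • m) = c • (a • m)
    rw [← algebraMap_smul A c m, ← algebraMap_smul A c (a • m), smul_smul, smul_smul,
      Algebra.commutes]

@[simp] theorem actK_apply {K : Type*} [Field K] {A : Type*} [Ring A] [Algebra K A] (a : A)
    {M : Type*} [AddCommGroup M] [Module K M] [Module A M] [IsScalarTower K A M] (m : M) :
    actK K a M m = a • m := rfl

/-- For a summand `E` of `A` there is an idempotent `ε` with `Hom (E, M) = ε M`. -/
theorem exists_idem_of_summand (K : Type v) [Field K] {A : Type u} [Ring A] [Algebra K A]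
    {E : Type u} [AddCommGroup E] [Module A E] [Module K E] [IsScalarTower K A E]
    (i : E →ₗ[A] A) (p : A →ₗ[A] E) (hpi : p ∘ₗ i = LinearMap.id) :
    ∃ ε : A, IsIdempotentElem ε ∧ ∀ (M : Type w) [AddCommGroup M] [Module K M] [Module A M]
      [IsScalarTower K A M] [FiniteDimensional K M],
      finrank K (E →ₗ[A] M) = finrank K (LinearMap.range (actK K ε M)) := by
  have hpi' : ∀ x, p (i x) = x := fun x => LinearMap.congr_fun hpi x
  set ε : A := i (p 1) with hε
  have hp : ∀ a : A, p a = a • p 1 := by
    intro a
    rw [← map_smul, smul_eq_mul, mul_one]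
  have hpε : p ε = p 1 := by rw [hε, hpi']
  have hi : ∀ a : A, i (p a) = a * ε := by
    intro a
    rw [hp a, map_smul, smul_eq_mul]
  refine ⟨ε, ?_, ?_⟩
  · show ε * ε = ε
    rw [← hi ε, hpε]
  · intro M _ _ _ _ _
    let F : (E →ₗ[A] M) →ₗ[K] LinearMap.range (actK K ε M) :=
      { toFun := fun k => ⟨k (p 1), ⟨k (p 1), by
          rw [actK_apply, ← map_smul, ← hp, hpε]⟩⟩
        map_add' := fun k k' => rfl
        map_smul' := fun c k => rfl }
    have hF : ∀ k : E →ₗ[A] M, ((F k : LinearMap.range (actK K ε M)) : M) = k (p 1) := fun k => rfl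
    have hb : Function.Bijective F := by
      constructor
      · intro k k' h
        have h1 : k (p 1) = k' (p 1) := by rw [← hF, ← hF, h]
        ext x
        obtain ⟨a, rfl⟩ : ∃ a, p a = x := ⟨i x, hpi' x⟩
        rw [hp a, map_smul, map_smul, h1]
      · rintro ⟨m, ⟨m', rfl⟩⟩
        refine ⟨LinearMap.toSpanSingleton A M m' ∘ₗ i, Subtype.ext ?_⟩
        rw [hF]
        simp [hε]
    exact LinearEquiv.finrank_eq (LinearEquiv.ofBijective F hb)

/-- The dimension of `Hom (P, M)` in terms of idempotents. -/
theorem exists_idems (K : Type v) [Field K] {A : Type u} [Ring A] [Algebra K A]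
    [FiniteDimensional K A] (n : ℕ) :
    ∀ (P : Type u) [AddCommGroup P] [Module A P] [Module.Finite A P] [Module.Projective A P],
      kdim (A := A) K P < n →
      ∃ (m : ℕ) (e : Fin m → A), (∀ j, IsIdempotentElem (e j)) ∧
        ∀ [Module K P] [IsScalarTower K A P] (M : Type w) [AddCommGroup M] [Module K M]
          [Module A M] [IsScalarTower K A M] [FiniteDimensional K M],
          finrank K (P →ₗ[A] M) = ∑ j, finrank K (LinearMap.range (actK K (e j) M)) := by
  haveI : IsNoetherianRing A := noeth_of_fd K
  induction n with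
  | zero => intro P _ _ _ _ h; exact absurd h (Nat.not_lt_zero _)
  | succ n ih =>
    intro P _ _ _ _ h
    rcases subsingleton_or_nontrivial P with hs | hs
    · refine ⟨0, Fin.elim0, fun j => j.elim0, ?_⟩
      intro _ _ M _ _ _ _ _
      haveI : Subsingleton (P →ₗ[A] M) := ⟨fun k k' => by
        ext x
        rw [Subsingleton.elim x 0, map_zero, map_zero]⟩
      rw [Module.finrank_zero_of_subsingleton]
      simp
    · obtain ⟨N, hN⟩ := IsCoatomic.exists_coatom (α := Submodule A P)
      haveI : IsSimpleModule A (P ⧸ N) := isSimpleModule_iff_isCoatom.2 hN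
      obtain ⟨E, i1, i2, i3, i4, π, hπ, hmin⟩ := exists_cover (A := A) K (P ⧸ N)
      obtain ⟨P', k1, k2, k3, k4, ⟨e⟩⟩ := split_cover K hπ hmin (Q := P) (ρ := N.mkQ)
        (Submodule.mkQ_surjective N)
      haveI hPN : Nontrivial (P ⧸ N) := IsSimpleModule.nontrivial A (P ⧸ N)
      haveI hEn : Nontrivial E := by
        obtain ⟨s, t, hst⟩ := hPN.exists_pair_ne
        obtain ⟨x, rfl⟩ := hπ s
        obtain ⟨y, rfl⟩ := hπ t
        exact ⟨x, y, fun h => hst (by rw [h])⟩
      obtain ⟨m, e', he', hm⟩ := ih P' (by
        rw [kdim_congr K e, kdim_prod] at h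
        have := kdim_pos (A := A) K E
        omega)
      -- the cover is a summand of the algebra
      obtain ⟨s, hs0⟩ := exists_ne (0 : P ⧸ N)
      have hsurj : Function.Surjective (LinearMap.toSpanSingleton A (P ⧸ N) s) := by
        refine (LinearMap.surjective_or_eq_zero _).resolve_right fun h0 => hs0 ?_
        have := LinearMap.congr_fun h0 1
        simpa using this
      obtain ⟨Q', l1, l2, l3, l4, ⟨a⟩⟩ := split_cover K hπ hmin (Q := A)
        (ρ := LinearMap.toSpanSingleton A (P ⧸ N) s) hsurj
      letI : Module K E := Module.compHom E (algebraMap K A)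
      haveI := tower_compHom (A := A) K E
      letI : Module K P' := Module.compHom P' (algebraMap K A)
      haveI := tower_compHom (A := A) K P'
      haveI : FiniteDimensional K E := Module.Finite.trans A E
      haveI : FiniteDimensional K P' := Module.Finite.trans A P'
      obtain ⟨ε, hε, hε'⟩ := exists_idem_of_summand.{u, v, w} K (E := E)
        (a.symm.toLinearMap ∘ₗ LinearMap.inl A E Q') (LinearMap.fst A E Q' ∘ₗ a.toLinearMap)
        (by ext x; simp)
      refine ⟨m + 1, Fin.cons ε e', ?_, ?_⟩
      · intro j
        refine Fin.cases ?_ (fun j => ?_) j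
        · simpa using hε
        · simpa using he' j
      · intro _ _ M _ _ _ _ _
        haveI : FiniteDimensional K (E →ₗ[A] M) := finite_hom
        haveI : FiniteDimensional K (P' →ₗ[A] M) := finite_hom
        rw [Fin.sum_univ_succ]
        change _ = finrank K (LinearMap.range (actK K ε M)) +
          ∑ j, finrank K (LinearMap.range (actK K (e' j) M))
        rw [← hε' M, ← hm M, ← Module.finrank_prod]
        refine LinearEquiv.finrank_eq (LinearEquiv.ofBijective
          ({ toFun := fun k => (k ∘ₗ e.symm.toLinearMap ∘ₗ LinearMap.inl A E P',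
              k ∘ₗ e.symm.toLinearMap ∘ₗ LinearMap.inr A E P')
             map_add' := fun k k' => rfl
             map_smul' := fun c k => rfl } :
            (P →ₗ[A] M) →ₗ[K] ((E →ₗ[A] M) × (P' →ₗ[A] M))) ⟨?_, ?_⟩)
        · intro k k' hkk
          have h1 := congrArg Prod.fst hkk
          have h2 := congrArg Prod.snd hkk
          ext x
          have h3 : x = e.symm ((e x).1, 0) + e.symm (0, (e x).2) := by
            rw [← map_add, Prod.mk_add_mk, add_zero, zero_add, Prod.mk.eta,
              LinearEquiv.symm_apply_apply]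
          rw [h3, map_add, map_add]
          have h4 : k (e.symm ((e x).1, 0)) = k' (e.symm ((e x).1, 0)) :=
            LinearMap.congr_fun h1 (e x).1
          have h5 : k (e.symm (0, (e x).2)) = k' (e.symm (0, (e x).2)) :=
            LinearMap.congr_fun h2 (e x).2
          rw [h4, h5]
        · rintro ⟨k₁, k₂⟩
          refine ⟨(k₁.coprod k₂) ∘ₗ e.toLinearMap, ?_⟩
          refine Prod.ext ?_ ?_
          · ext x
            show (k₁.coprod k₂) (e (e.symm (x, 0))) = k₁ x
            simp
          · ext x
            show (k₁.coprod k₂) (e (e.symm (0, x))) = k₂ x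
            simp

end Pool.Agent.H13.MF
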