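import Pool.Agent.H51.T2.Main

/-! Linear algebra: the tangent argument, generic ranks, and perturbation. -/

set_option linter.unusedSectionVars false

namespace Pool.Agent.H13.MF

open Module Pool.Agent.H51.T2

variable {K : Type*} [Field K] [Infinite K]
variable {U W : Type*} [AddCommGroup U] [Module K U] [AddCommGroup W] [Module K W]

theorem exists_functional {S : Submodule K W} {w : W} (h : w ∉ S) :
    ∃ ψ : W →ₗ[K] K, ψ w ≠ 0 ∧ ∀ x ∈ S, ψ x = 0 := by
  obtain ⟨ψ, h1, h2⟩ := Submodule.exists_le_ker_of_notMem h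
  exact ⟨ψ, h1, fun x hx => h2 hx⟩

variable [FiniteDimensional K U] [FiniteDimensional K W]

/-- The tangent argument: if the rank of `T₀ + t T` never exceeds the rank of `T₀`, then `T` maps
the kernel of `T₀` into its range. -/
theorem tangent {T₀ T : U →ₗ[K] W}
    (h : ∀ t : K, finrank K (LinearMap.range (T₀ + t • T)) ≤ finrank K (LinearMap.range T₀))
    {v : U} (hv : T₀ v = 0) : T v ∈ LinearMap.range T₀ := by
  by_contra hne
  obtain ⟨ψ, h1, h2⟩ := exists_functional hne
  set D : K → (U →ₗ[K] W) := fun t => T₀ + t • T with hD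
  have hDp : PolyMap D := (PolyMap.const T₀).add (PolyMap.id.smul (PolyMap.const T))
  have hD0 : D 0 = T₀ := by simp [hD]
  obtain ⟨u, hu, hu0, hfin⟩ := lift_kernel D hDp (by
    refine Set.finite_empty.subset fun t ht => ht ?_
    rw [hD0]; exact h t) (v := v) (by rw [hD0]; exact hv)
  have ha : PolyMap (fun t => ψ (T (u t))) := (hu.linear T).linear ψ
  have h3 := ha.finite_zeros (by simpa [hu0] using h1)
  obtain ⟨t, ht⟩ := ((h3.union (hfin.union (Set.finite_singleton 0))).infinite_compl).nonempty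
  simp only [Set.compl_union, Set.mem_inter_iff, Set.mem_compl_iff, Set.mem_ofPred_eq,
    not_not, Set.mem_singleton_iff] at ht
  obtain ⟨h4, h5, h6⟩ := ht
  apply h4
  have h7 : T₀ (u t) + t • T (u t) = 0 := h5
  have h8 := congrArg ψ h7
  rw [map_add, h2 _ ⟨_, rfl⟩, zero_add, map_smul, map_zero, smul_eq_mul] at h8
  exact (mul_eq_zero.1 h8).resolve_left h6

omit [FiniteDimensional K U] in
/-- A map that is polynomial along lines. -/
theorem exists_good_line {X : Type*} [AddCommGroup X] [Module K X] {ι : Type*} (s : Finset ι)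
    {V V' : ι → Type*} [∀ i, AddCommGroup (V i)] [∀ i, Module K (V i)]
    [∀ i, FiniteDimensional K (V i)]
    [∀ i, AddCommGroup (V' i)] [∀ i, Module K (V' i)] [∀ i, FiniteDimensional K (V' i)]
    (D : ∀ i, X → (V i →ₗ[K] V' i))
    (hD : ∀ i, ∀ x y : X, PolyMap (fun t : K => D i (x + t • (y - x)))) :
    ∃ x : X, ∀ i ∈ s, ∀ y : X,
      finrank K (LinearMap.range (D i y)) ≤ finrank K (LinearMap.range (D i x)) := by
  classical
  -- a point of maximal rank for one index
  have hmax : ∀ i, ∃ x : X, ∀ y : X,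
      finrank K (LinearMap.range (D i y)) ≤ finrank K (LinearMap.range (D i x)) := by
    intro i
    have hb : ∀ y : X, finrank K (LinearMap.range (D i y)) ≤ finrank K (V' i) := fun y =>
      Submodule.finrank_le _
    let S : Set ℕ := Set.range (fun y : X => finrank K (LinearMap.range (D i y)))
    have hS : S.Finite := (Set.finite_Iic (finrank K (V' i))).subset (by
      rintro _ ⟨y, rfl⟩; exact hb y)
    have hne : S.Nonempty := ⟨_, ⟨0, rfl⟩⟩
    obtain ⟨m, hm, hm2⟩ := Set.exists_max_image S id hS hne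
    obtain ⟨x, rfl⟩ := hm
    exact ⟨x, fun y => hm2 _ ⟨y, rfl⟩⟩
  induction s using Finset.induction_on with
  | empty => exact ⟨0, fun i hi => absurd hi (Finset.notMem_empty i)⟩
  | insert j s hj ih =>
    obtain ⟨x, hx⟩ := ih
    obtain ⟨y, hy⟩ := hmax j
    have h1 : ∀ i ∈ s, {t : K | ¬ finrank K (LinearMap.range (D i x)) ≤
        finrank K (LinearMap.range (D i (x + t • (y - x))))}.Finite := by
      intro i _
      have h0 := generic_rank_at _ (hD i x y) 0
      have e0 : finrank K (LinearMap.range (D i (x + (0 : K) • (y - x))))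
          = finrank K (LinearMap.range (D i x)) := by
        rw [zero_smul, add_zero]
      refine h0.subset fun t ht h1 => ht ?_
      exact e0.symm.trans_le h1
    have h2 : {t : K | ¬ finrank K (LinearMap.range (D j y)) ≤
        finrank K (LinearMap.range (D j (x + t • (y - x))))}.Finite := by
      have h0 := generic_rank_at _ (hD j x y) 1
      have e0 : finrank K (LinearMap.range (D j (x + (1 : K) • (y - x))))
          = finrank K (LinearMap.range (D j y)) := by
        rw [one_smul, add_sub_cancel]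
      refine h0.subset fun t ht h1 => ht ?_
      exact e0.symm.trans_le h1
    have h3 : (⋃ i ∈ s, {t : K | ¬ finrank K (LinearMap.range (D i x)) ≤
        finrank K (LinearMap.range (D i (x + t • (y - x))))}).Finite :=
      Set.Finite.biUnion (Finset.finite_toSet s) h1
    obtain ⟨t, ht⟩ := ((h3.union h2).infinite_compl).nonempty
    simp only [Set.compl_union, Set.mem_inter_iff, Set.mem_compl_iff, Set.mem_iUnion,
      Set.mem_ofPred_eq, not_exists, not_not] at ht
    refine ⟨x + t • (y - x), fun i hi z => ?_⟩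
    rcases Finset.mem_insert.1 hi with rfl | hi
    · exact (hy z).trans ht.2
    · exact (hx i hi z).trans (ht.1 i hi)

/-- A family of linear maps without common zero blocks contains a member of full rank. -/
theorem exists_full {X : Type*} [AddCommGroup X] [Module K X] (ρ : X →ₗ[K] (U →ₗ[K] W))
    (hns : ∀ φ : U, φ ≠ 0 → ∀ ψ : W →ₗ[K] K, ψ ≠ 0 → ∃ g : X, ψ (ρ g φ) ≠ 0) :
    ∃ g : X, Function.Injective (ρ g) ∨ Function.Surjective (ρ g) := by
  obtain ⟨g, hg⟩ := exists_good_line (K := K) (X := X) (ι := Unit) {()} (V := fun _ => U)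
    (V' := fun _ => W) (fun _ => ρ) (by
      intro _ x y
      exact ((PolyMap.const x).add (PolyMap.id.smul (PolyMap.const (y - x)))).linear ρ)
  refine ⟨g, ?_⟩
  by_contra hne
  rw [not_or] at hne
  obtain ⟨h1, h2⟩ := hne
  obtain ⟨φ, hφ, hφ0⟩ : ∃ φ : U, ρ g φ = 0 ∧ φ ≠ 0 := by
    by_contra hc
    push Not at hc
    exact h1 ((injective_iff_map_eq_zero _).2 hc)
  obtain ⟨w, hw⟩ : ∃ w : W, w ∉ LinearMap.range (ρ g) := by
    by_contra hc
    push Not at hc
    exact h2 hc
  obtain ⟨ψ, hψ, hψ'⟩ := exists_functional hw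
  obtain ⟨g', hg'⟩ := hns φ hφ0 ψ (fun h => hψ (by rw [h]; rfl))
  apply hg'
  apply hψ'
  refine tangent (K := K) (T₀ := ρ g) (T := ρ g') (fun t => ?_) hφ
  have := hg () (by simp) (g + t • g')
  rwa [map_add, map_smul] at this

/-- Perturbation: if `T` maps the kernel of `T₀` onto the cokernel of `T₀`, then `T₀ + t T` is
surjective for some `t`. -/
theorem perturb {T₀ T : U →ₗ[K] W}
    (h : ∀ w : W, ∃ k : U, T₀ k = 0 ∧ w - T k ∈ LinearMap.range T₀) :
    ∃ t : K, Function.Surjective (T₀ + t • T) := by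
  obtain ⟨q, hq⟩ := LinearMap.exists_leftInverse_of_injective (LinearMap.ker T₀).subtype
    (Submodule.ker_subtype _)
  set p : U →ₗ[K] U := (LinearMap.ker T₀).subtype ∘ₗ q with hp
  have hpk : ∀ k, T₀ k = 0 → p k = k := by
    intro k hk
    have := LinearMap.congr_fun hq ⟨k, hk⟩
    have := congrArg Subtype.val this
    simpa [hp] using this
  have hpT : ∀ u, T₀ (p u) = 0 := fun u => (q u).2
  have hpp : ∀ u, p (p u) = p u := fun u => hpk _ (hpT u)
  set D : K → (U →ₗ[K] W) := fun t => (T₀ + T ∘ₗ p) + t • (T ∘ₗ (LinearMap.id - p)) with hD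
  have hDp : PolyMap D := (PolyMap.const _).add (PolyMap.id.smul (PolyMap.const _))
  have hD0 : LinearMap.range (D 0) = ⊤ := by
    rw [eq_top_iff]
    intro w _
    obtain ⟨k, hk, u, hu⟩ := h w
    refine ⟨(u - p u) + k, ?_⟩
    have h1 : p (u - p u) = 0 := by
      rw [map_sub, hpk (p u) (hpT u), sub_self]
    simp only [hD, zero_smul, add_zero, LinearMap.add_apply, LinearMap.comp_apply, map_add,
      hpp, hpk k hk, map_zero, zero_add, hk, map_sub, hpT, sub_zero, hu]
    abel
  have h2 := generic_rank D hDp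
  rw [hD0, finrank_top] at h2
  obtain ⟨t, ht⟩ := ((h2.union (Set.finite_singleton 0)).infinite_compl).nonempty
  simp only [Set.compl_union, Set.mem_inter_iff, Set.mem_compl_iff, Set.mem_ofPred_eq,
    not_not, Set.mem_singleton_iff] at ht
  obtain ⟨h3, h4⟩ := ht
  refine ⟨t, ?_⟩
  have h5 : LinearMap.range (D t) = ⊤ :=
    Submodule.eq_top_of_finrank_eq (le_antisymm (Submodule.finrank_le _) h3)
  intro w
  obtain ⟨u, hu⟩ : w ∈ LinearMap.range (D t) := by rw [h5]; trivial
  refine ⟨t⁻¹ • p u + (u - p u), ?_⟩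
  rw [← hu]
  simp only [hD, LinearMap.add_apply, LinearMap.smul_apply, LinearMap.comp_apply, map_add,
    map_smul, map_sub, hpT, smul_zero, zero_add, LinearMap.sub_apply, LinearMap.id_apply, sub_zero,
    smul_add, inv_smul_smul₀ h4, smul_sub, hpp]
  abel

end Pool.Agent.H13.MF
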