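import Pool.Agent.H13.MF.VBase

/-! The module variety has finitely many irreducible components. -/

universe u v

namespace Pool.Agent.H13.MF

open Module

section NOE

variable {K : Type v} [Field K] {A : Type u} [Ring A] [Algebra K A] {n : ℕ}
  (e : Fin n → A) (d : Fin n → ℕ)

/-- the matrix entry -/
private def NOE_entry (a : A) (s t : Idx d) : ModVar K A e d → K := fun ρ => ρ.1 a s t

private theorem NOE_fg [FiniteDimensional K A] : (regular K A e d).FG := by
  classical
  set b := Module.finBasis K A with hb
  rw [Subalgebra.fg_def]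
  refine ⟨Set.range fun x : Fin (Module.finrank K A) × Idx d × Idx d =>
    NOE_entry e d (b x.1) x.2.1 x.2.2, Set.finite_range _, ?_⟩
  apply le_antisymm
  · apply Algebra.adjoin_mono
    rintro _ ⟨x, rfl⟩
    exact ⟨b x.1, x.2.1, x.2.2, rfl⟩
  · apply Algebra.adjoin_le
    rintro _ ⟨a, s, t, rfl⟩
    have h : (fun ρ : ModVar K A e d => ρ.1 a s t) =
        ∑ k, (b.repr a k) • NOE_entry e d (b k) s t := by
      funext ρ
      conv_lhs => rw [← b.sum_repr a]
      rw [map_sum, Matrix.sum_apply, Finset.sum_apply]
      refine Finset.sum_congr rfl fun k _ => ?_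
      rw [map_smul, Matrix.smul_apply, Pi.smul_apply]
      rfl
    show (fun ρ : ModVar K A e d => ρ.1 a s t) ∈ _
    rw [h]
    refine Subalgebra.sum_mem _ fun k _ => Subalgebra.smul_mem _ ?_ _
    exact Algebra.subset_adjoin ⟨(k, s, t), rfl⟩

/-- evaluation of regular functions at a point -/
private def NOE_ev (ρ : ModVar K A e d) : regular K A e d →+* K :=
  (Pi.evalRingHom (fun _ : ModVar K A e d => K) ρ).comp (regular K A e d).val.toRingHom

private theorem NOE_ev_apply (ρ : ModVar K A e d) (F : regular K A e d) :
    NOE_ev e d ρ F = F.1 ρ := rfl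

/-- the map to the prime spectrum -/
private def NOE_map (ρ : ModVar K A e d) : PrimeSpectrum (regular K A e d) :=
  ⟨RingHom.ker (NOE_ev e d ρ), RingHom.ker_isPrime _⟩

private theorem NOE_inducing : Topology.IsInducing (NOE_map (K := K) (A := A) e d) := by
  constructor
  rw [(PrimeSpectrum.isTopologicalBasis_basic_opens (R := regular K A e d)).eq_generateFrom,
    induced_generateFrom_eq]
  show TopologicalSpace.generateFrom _ = _
  congr 1
  ext U
  constructor
  · rintro ⟨F, hF, rfl⟩
    refine ⟨_, ⟨⟨F, hF⟩, rfl⟩, ?_⟩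
    ext ρ
    show ¬ (⟨F, hF⟩ : regular K A e d) ∈ RingHom.ker (NOE_ev e d ρ) ↔ _
    rw [RingHom.mem_ker, NOE_ev_apply]
    rfl
  · rintro ⟨_, ⟨F, rfl⟩, rfl⟩
    refine ⟨F.1, F.2, ?_⟩
    ext ρ
    show ¬ F ∈ RingHom.ker (NOE_ev e d ρ) ↔ _
    rw [RingHom.mem_ker, NOE_ev_apply]
    rfl

end NOE

/-- The module variety of a finite-dimensional algebra has finitely many irreducible
components: `regular K A e d` is a finitely generated algebra, hence Noetherian, and the Zariski
topology is induced from its prime spectrum. -/
theorem components_finite {K : Type v} [Field K] {A : Type u} [Ring A] [Algebra K A]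
    [FiniteDimensional K A] {n : ℕ} (e : Fin n → A) (d : Fin n → ℕ) :
    (irreducibleComponents (ModVar K A e d)).Finite := by
  have : Algebra.FiniteType K (regular K A e d) :=
    (Subalgebra.fg_iff_finiteType _).1 (NOE_fg e d)
  have : IsNoetherianRing (regular K A e d) := Algebra.FiniteType.isNoetherianRing K _
  have : TopologicalSpace.NoetherianSpace (ModVar K A e d) :=
    (NOE_inducing (K := K) (A := A) e d).noetherianSpace
  exact TopologicalSpace.NoetherianSpace.finite_irreducibleComponents

end Pool.Agent.H13.MF
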