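import Pool.Agent.H13.MF.VBase

/-! Points of the module variety: the action, isomorphisms, polynomial curves. -/

set_option linter.unusedSectionVars false
set_option linter.style.haveILetI false

universe u v w

namespace Pool.Agent.H13.MF

open Module

variable {K : Type v} [Field K] {A : Type u} [Ring A] [Algebra K A] {n : ℕ} {e : Fin n → A}
  {d : Fin n → ℕ}

/-- The module of a point of the module variety. -/
def Pt (_ρ : ModVar K A e d) : Type v := Idx d → K

section pt

private theorem pt_one (φ : A →ₐ[K] Matrix (Idx d) (Idx d) K) (x : Idx d → K) :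
    (φ 1).mulVec x = x := by
  rw [map_one, Matrix.one_mulVec]

private theorem pt_mul (φ : A →ₐ[K] Matrix (Idx d) (Idx d) K) (a b : A) (x : Idx d → K) :
    (φ (a * b)).mulVec x = (φ a).mulVec ((φ b).mulVec x) := by
  rw [map_mul, Matrix.mulVec_mulVec]

private theorem pt_add (φ : A →ₐ[K] Matrix (Idx d) (Idx d) K) (a b : A) (x : Idx d → K) :
    (φ (a + b)).mulVec x = (φ a).mulVec x + (φ b).mulVec x := by
  rw [map_add, Matrix.add_mulVec]

private theorem pt_zero (φ : A →ₐ[K] Matrix (Idx d) (Idx d) K) (x : Idx d → K) :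
    (φ 0).mulVec x = 0 := by
  rw [map_zero, Matrix.zero_mulVec]

private theorem pt_sc (φ : A →ₐ[K] Matrix (Idx d) (Idx d) K) (c : K) (a : A) (x : Idx d → K) :
    (φ (c • a)).mulVec x = c • (φ a).mulVec x := by
  rw [map_smul, Matrix.smul_mulVec]

variable (ρ : ModVar K A e d)

instance : AddCommGroup (Pt ρ) := inferInstanceAs (AddCommGroup (Idx d → K))
instance : Module K (Pt ρ) := inferInstanceAs (Module K (Idx d → K))
instance : FiniteDimensional K (Pt ρ) := inferInstanceAs (FiniteDimensional K (Idx d → K))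
instance : Module A (Pt ρ) where
  smul a x := (ρ.1 a).mulVec x
  one_smul x := pt_one ρ.1 x
  mul_smul a b x := pt_mul ρ.1 a b x
  smul_zero _ := Matrix.mulVec_zero _
  smul_add _ _ _ := Matrix.mulVec_add _ _ _
  add_smul a b x := pt_add ρ.1 a b x
  zero_smul x := pt_zero ρ.1 x

theorem pt_smul (a : A) (x : Pt ρ) : a • x = ((ρ.1 a).mulVec x : Idx d → K) := rfl

instance : IsScalarTower K A (Pt ρ) := ⟨fun c a x => pt_sc ρ.1 c a x⟩

end pt

theorem blk_mul (g h : ∀ i : Fin n, GL (Fin (d i)) K) : blk (g * h) = blk g * blk h := by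
  rw [blk, blk, blk, ← Matrix.blockDiagonal'_mul]
  rfl

theorem act_act (g h : ∀ i : Fin n, GL (Fin (d i)) K) (ρ : ModVar K A e d) :
    act g (act h ρ) = act (g * h) ρ := by
  apply Subtype.ext
  apply AlgHom.ext
  intro a
  show blk g * (blk h * ρ.1 a * blk (fun i => (h i)⁻¹)) * blk (fun i => (g i)⁻¹) =
    blk (g * h) * ρ.1 a * blk (fun i => ((g * h) i)⁻¹)
  have h1 : (fun i => ((g * h) i)⁻¹) = (fun i => (h i)⁻¹) * (fun i => (g i)⁻¹) := by
    funext i
    simp
  rw [h1, blk_mul, blk_mul]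
  simp only [mul_assoc]

/-- The character of a weight. -/
def chi (θ : Fin n → ℤ) (g : ∀ i : Fin n, GL (Fin (d i)) K) : K :=
  ∏ i, (Matrix.det (g i : Matrix (Fin (d i)) (Fin (d i)) K)) ^ (θ i)

theorem chi_mul (θ : Fin n → ℤ) (g h : ∀ i : Fin n, GL (Fin (d i)) K) :
    chi θ (g * h) = chi θ g * chi θ h := by
  rw [chi, chi, chi, ← Finset.prod_mul_distrib]
  refine Finset.prod_congr rfl fun i _ => ?_
  rw [← mul_zpow, ← Matrix.det_mul]
  rfl

/-- Semi-invariance along the orbit of a point. -/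
def SA (θ : Fin n → ℤ) (F : ModVar K A e d → K) (ρ : ModVar K A e d) : Prop :=
  ∀ g : ∀ i : Fin n, GL (Fin (d i)) K, F (act g ρ) = chi θ g * F ρ

theorem SA.act {θ : Fin n → ℤ} {F : ModVar K A e d → K} {ρ : ModVar K A e d} (h : SA θ F ρ)
    (k : ∀ i : Fin n, GL (Fin (d i)) K) : SA θ F (act k ρ) := by
  intro g
  rw [act_act, h, h, chi_mul, mul_assoc]

/-- Isomorphic points are in one orbit. -/
theorem exists_act (ρ σ : ModVar K A e d) (ε : Pt ρ ≃ₗ[A] Pt σ) :
    ∃ g : ∀ i : Fin n, GL (Fin (d i)) K, act g ρ = σ := by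
  classical
  let f : (Idx d → K) →ₗ[K] (Idx d → K) := (ε.restrictScalars K).toLinearMap
  let f' : (Idx d → K) →ₗ[K] (Idx d → K) := (ε.symm.restrictScalars K).toLinearMap
  have hf : ∀ (a : A) (x : Idx d → K), f ((ρ.1 a).mulVec x) = (σ.1 a).mulVec (f x) :=
    fun a x => ε.map_smul a x
  have hf' : ∀ (a : A) (x : Idx d → K), f' ((σ.1 a).mulVec x) = (ρ.1 a).mulVec (f' x) :=
    fun a x => ε.symm.map_smul a x
  have hff' : ∀ x, f (f' x) = x := fun x => ε.apply_symm_apply x
  have hf'f : ∀ x, f' (f x) = x := fun x => ε.symm_apply_apply x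
  let T := LinearMap.toMatrix' f
  let T' := LinearMap.toMatrix' f'
  have hTx : ∀ x, T.mulVec x = f x := fun x => LinearMap.toMatrix'_mulVec f x
  have hTx' : ∀ x, T'.mulVec x = f' x := fun x => LinearMap.toMatrix'_mulVec f' x
  have hext : ∀ M N : Matrix (Idx d) (Idx d) K, (∀ x, M.mulVec x = N.mulVec x) → M = N :=
    fun M N h => Matrix.mulVec_injective (funext h)
  have hTT' : T * T' = 1 := hext _ _ fun x => by
    rw [← Matrix.mulVec_mulVec, hTx', hTx, hff', Matrix.one_mulVec]
  have hT'T : T' * T = 1 := hext _ _ fun x => by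
    rw [← Matrix.mulVec_mulVec, hTx, hTx', hf'f, Matrix.one_mulVec]
  have hTρ : ∀ a, T * ρ.1 a = σ.1 a * T := fun a => hext _ _ fun x => by
    rw [← Matrix.mulVec_mulVec, ← Matrix.mulVec_mulVec, hTx, hTx, hf]
  have hTσ : ∀ a, T' * σ.1 a = ρ.1 a * T' := fun a => hext _ _ fun x => by
    rw [← Matrix.mulVec_mulVec, ← Matrix.mulVec_mulVec, hTx', hTx', hf']
  -- the matrices are block diagonal
  have hblk : ∀ (M : Matrix (Idx d) (Idx d) K),
      (∀ i, M * Matrix.diagonal (fun s : Idx d => if s.1 = i then (1 : K) else 0) =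
        Matrix.diagonal (fun s : Idx d => if s.1 = i then (1 : K) else 0) * M) →
      M = Matrix.blockDiagonal' (Matrix.blockDiag' M) := by
    intro M hM
    ext ⟨i, s⟩ ⟨j, t⟩
    by_cases h : i = j
    · subst h
      rw [Matrix.blockDiagonal'_apply_eq]
      rfl
    · rw [Matrix.blockDiagonal'_apply_ne _ _ _ h]
      have h1 := congrFun (congrFun (hM j) ⟨i, s⟩) ⟨j, t⟩
      rw [Matrix.mul_diagonal, Matrix.diagonal_mul] at h1
      simpa [h] using h1
  have hT : T = Matrix.blockDiagonal' (Matrix.blockDiag' T) := hblk T fun i => by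
    have := hTρ (e i)
    rwa [ρ.2 i, σ.2 i] at this
  have hT' : T' = Matrix.blockDiagonal' (Matrix.blockDiag' T') := hblk T' fun i => by
    have := hTσ (e i)
    rwa [ρ.2 i, σ.2 i] at this
  have h1 : ∀ i, Matrix.blockDiag' T i * Matrix.blockDiag' T' i = 1 := by
    have : Matrix.blockDiagonal' (fun i => Matrix.blockDiag' T i * Matrix.blockDiag' T' i) =
        Matrix.blockDiagonal' (1 : ∀ i, Matrix (Fin (d i)) (Fin (d i)) K) := by
      rw [Matrix.blockDiagonal'_mul, ← hT, ← hT', hTT', Matrix.blockDiagonal'_one]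
    exact fun i => congrFun (Matrix.blockDiagonal'_injective this) i
  have h2 : ∀ i, Matrix.blockDiag' T' i * Matrix.blockDiag' T i = 1 := by
    have : Matrix.blockDiagonal' (fun i => Matrix.blockDiag' T' i * Matrix.blockDiag' T i) =
        Matrix.blockDiagonal' (1 : ∀ i, Matrix (Fin (d i)) (Fin (d i)) K) := by
      rw [Matrix.blockDiagonal'_mul, ← hT, ← hT', hT'T, Matrix.blockDiagonal'_one]
    exact fun i => congrFun (Matrix.blockDiagonal'_injective this) i
  let g : ∀ i : Fin n, GL (Fin (d i)) K := fun i =>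
    ⟨Matrix.blockDiag' T i, Matrix.blockDiag' T' i, h1 i, h2 i⟩
  refine ⟨g, Subtype.ext (AlgHom.ext fun a => ?_)⟩
  show blk g * ρ.1 a * blk (fun i => (g i)⁻¹) = σ.1 a
  have h3 : blk g = T := hT.symm
  have h4 : blk (fun i => (g i)⁻¹) = T' := hT'.symm
  rw [h3, h4, hTρ, mul_assoc, hTT', mul_one]

/-- A polynomial curve. -/
def Cv (c : K → ModVar K A e d) : Prop :=
  ∀ (a : A) (s s' : Idx d), ∃ p : Polynomial K, ∀ t, (c t).1 a s s' = p.eval t

theorem Cv.regular {c : K → ModVar K A e d} (hc : Cv c) {F : ModVar K A e d → K}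
    (hF : F ∈ regular K A e d) : ∃ p : Polynomial K, ∀ t, F (c t) = p.eval t := by
  induction hF using Algebra.adjoin_induction with
  | mem F hF =>
    obtain ⟨a, s, s', rfl⟩ := hF
    exact hc a s s'
  | algebraMap r => exact ⟨Polynomial.C r, fun t => by rw [Polynomial.eval_C]; rfl⟩
  | add F G _ _ h1 h2 =>
    obtain ⟨p, hp⟩ := h1
    obtain ⟨q, hq⟩ := h2
    exact ⟨p + q, fun t => by rw [Polynomial.eval_add, ← hp, ← hq]; rfl⟩
  | mul F G _ _ h1 h2 =>
    obtain ⟨p, hp⟩ := h1
    obtain ⟨q, hq⟩ := h2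
    exact ⟨p * q, fun t => by rw [Polynomial.eval_mul, ← hp, ← hq]; rfl⟩

theorem Cv.act {c : K → ModVar K A e d} (hc : Cv c) (g : ∀ i : Fin n, GL (Fin (d i)) K) :
    Cv (fun t => act g (c t)) := by
  intro a s s'
  choose p hp using hc a
  refine ⟨∑ k, (∑ l, Polynomial.C (blk g s l) * p l k) *
    Polynomial.C (blk (fun i => (g i)⁻¹) k s'), fun t => ?_⟩
  show (blk g * (c t).1 a * blk (fun i => (g i)⁻¹)) s s' = _
  rw [Matrix.mul_apply, Polynomial.eval_finsetSum]
  refine Finset.sum_congr rfl fun k _ => ?_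
  rw [Polynomial.eval_mul, Polynomial.eval_C, Matrix.mul_apply, Polynomial.eval_finsetSum]
  congr 1
  refine Finset.sum_congr rfl fun l _ => ?_
  rw [Polynomial.eval_mul, Polynomial.eval_C, hp]

theorem eval_zero_of_ne [Infinite K] (p q : Polynomial K)
    (h : ∀ t : K, t ≠ 0 → p.eval t = q.eval t) : p = q := by
  apply Polynomial.eq_of_infinite_eval_eq
  refine ((Set.finite_singleton (0 : K)).infinite_compl).mono ?_
  intro t ht
  exact h t ht

end Pool.Agent.H13.MF
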