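import Pool.Agent.H13.MF.PGood

/-! An algebra with finitely many bricks in every dimension vector is multiplicity-free. -/

set_option linter.unusedSectionVars false
set_option linter.style.haveILetI false

universe u v w

namespace Pool.Agent.H13.MF

open Module

theorem forall2_join {α β : Type*} {R : α → β → Prop} {S : β → β → Prop}
    (h : ∀ a b b', R a b → R a b' → S b b') : ∀ {l : List α} {L L' : List β},
    List.Forall₂ R l L → List.Forall₂ R l L' → List.Forall₂ S L L'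
  | [], _, _, .nil, .nil => .nil
  | _ :: _, _, _, .cons h1 h2, .cons h1' h2' => .cons (h _ _ _ h1 h1') (forall2_join h h2 h2')

theorem exists_forall2 {α β : Type*} {R : α → β → Prop} :
    ∀ L : List β, (∀ b ∈ L, ∃ a, R a b) → ∃ l : List α, List.Forall₂ R l L ∧ l.length = L.length
  | [], _ => ⟨[], .nil, rfl⟩
  | b :: L, h => by
    obtain ⟨a, ha⟩ := h b List.mem_cons_self
    obtain ⟨l, h1, h2⟩ := exists_forall2 L fun b' hb' => h b' (List.mem_cons_of_mem b hb')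
    exact ⟨a :: l, .cons ha h1, by rw [List.length_cons, List.length_cons, h2]⟩

variable {K : Type v} [Field K] {A : Type u} [Ring A] [Algebra K A] {n : ℕ} {e : Fin n → A}

theorem isOpen_ne {d : Fin n → ℕ} {F : ModVar K A e d → K} (hF : F ∈ regular K A e d) :
    IsOpen {ρ : ModVar K A e d | F ρ ≠ 0} :=
  TopologicalSpace.isOpen_generateFrom_of_mem ⟨F, hF, rfl⟩

theorem isMF_of_classes [Infinite K] (he : ∀ i, IsIdempotentElem (e i))
    (h : ∀ d : Fin n → ℕ, ∃ (N : ℕ) (Cl : Fin N → BM.{u, v, v} K A → Prop),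
      (∀ k X Y, Cl k X → Cl k Y → BIso X Y) ∧
      ∀ X : BM.{u, v, v} K A, Nontrivial X → (∀ φ : X →ₗ[A] X, φ ≠ 0 → Function.Bijective φ) →
        (∀ i, finrank K (LinearMap.range (eK K (e i) X)) = d i) → ∃ k, Cl k X) :
    IsMF K A e := by
  classical
  intro d C hC θ F G hF hG
  have hF0 : F ∈ regular K A e d := hF.1
  have hG0 : G ∈ regular K A e d := hG.1
  have hFSA : ∀ ρ ∈ C, SA θ F ρ := fun ρ hρ g => hF.2 g ρ hρ
  have hGSA : ∀ ρ ∈ C, SA θ G ρ := fun ρ hρ g => hG.2 g ρ hρ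
  choose N Cl hCl hex using h
  let J := Σ d' : {d' : Fin n → ℕ // d' ≤ d}, Fin (N d'.1)
  haveI : Finite {d' : Fin n → ℕ // d' ≤ d} := (Set.finite_Iic d).to_subtype
  haveI : Finite J := inferInstance
  let R : J → BM.{u, v, v} K A → Prop := fun j X => Cl j.1.1 j.2 X
  have hR : ∀ j X Y, R j X → R j Y → BIso X Y := fun j X Y => hCl j.1.1 j.2 X Y
  let D := finrank K (Idx d → K)
  let T : Set (List J) := {l | l.length ≤ D}
  have hT : T.Finite := List.finite_length_le J D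
  let Rel : List J → ModVar K A e d → Prop := fun l ρ =>
    ∃ L : List (BM.{u, v, v} K A), List.Forall₂ R l L ∧ Good θ F G (F ρ) (G ρ) (BM.prodL L)
  have hrel : ∀ ρ ∈ C, (F ρ ≠ 0 ∨ G ρ ≠ 0) → ∃ l ∈ T, Rel l ρ := by
    intro ρ hρ hne
    let X : BM.{u, v, v} K A := { C := Pt ρ }
    have hX : Good θ F G (F ρ) (G ρ) X :=
      ⟨ρ, ⟨LinearEquiv.refl A _⟩, hFSA ρ hρ, hGSA ρ hρ, rfl, rfl⟩
    have hss : SSt e θ X := hX.sst hF0 hG0 hne
    obtain ⟨L, h1, h2, h3⟩ := exists_dec (x := F ρ) (y := G ρ) he hF0 hG0 (finrank K X) X le_rfl hss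
    have h4 : Good θ F G (F ρ) (G ρ) (BM.prodL L) := by
      let O : BM.{u, v, v} K A := { C := PUnit.{v + 1} }
      have h5 : ∀ Y : BM.{u, v, v} K A, BIso (Y.prod O) Y := fun Y => by
        refine ⟨?_⟩
        exact
          { toFun := fun a => a.1
            invFun := fun a => (a, PUnit.unit)
            map_add' := fun _ _ => rfl
            map_smul' := fun _ _ => rfl
            left_inv := fun _ => rfl
            right_inv := fun _ => rfl }
      exact (h3 O (hX.iso (h5 X).symm)).iso (h5 _)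
    have hdv : ∀ i, finrank K (LinearMap.range (eK K (e i) X)) ≤ d i := by
      intro i
      have h6 : finrank K (LinearMap.range (eK K (e i) (⊤ : Submodule A (Pt ρ)))) =
          finrank K (LinearMap.range (eK K (e i) X)) :=
        rk_congr (e i) (Submodule.topEquiv (R := A) (M := Pt ρ))
      rw [← h6, ← finrank_VU]
      refine (Submodule.finrank_le _).trans ?_
      rw [Module.finrank_fin_fun]
    obtain ⟨l, h6, h7⟩ := exists_forall2 (R := R) L (fun B hB => by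
      obtain ⟨hst, hle⟩ := h1 B hB
      obtain ⟨k, hk⟩ := hex (fun i => finrank K (LinearMap.range (eK K (e i) B))) B hst.1
        (fun φ hφ => hst.brick he φ hφ) (fun i => rfl)
      exact ⟨⟨⟨fun i => finrank K (LinearMap.range (eK K (e i) B)),
        fun i => (hle i).trans (hdv i)⟩, k⟩, hk⟩)
    refine ⟨l, ?_, L, h6, h4⟩
    show l.length ≤ D
    rw [h7]
    exact h2
  have huniq : ∀ l ρ ρ', Rel l ρ → Rel l ρ' → F ρ * G ρ' = F ρ' * G ρ := by
    rintro l ρ ρ' ⟨L, h1, h2⟩ ⟨L', h1', h2'⟩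
    exact h2.unique (h2'.iso (prodL_congr (forall2_join hR h1' h1)))
  by_cases hz : ∀ ρ ∈ C, F ρ = 0 ∧ G ρ = 0
  · exact ⟨1, 0, Or.inl one_ne_zero, fun ρ hρ => by rw [(hz ρ hρ).1, mul_zero, zero_mul, add_zero]⟩
  push Not at hz
  obtain ⟨ρ₀, hρ₀, hz⟩ := hz
  -- a function which does not vanish identically
  obtain ⟨E, hE, hE0, hEne⟩ : ∃ E ∈ regular K A e d, E ρ₀ ≠ 0 ∧
      ∀ ρ, E ρ ≠ 0 → (F ρ ≠ 0 ∨ G ρ ≠ 0) := by
    by_cases hF1 : F ρ₀ = 0
    · exact ⟨G, hG0, hz hF1, fun ρ h => Or.inr h⟩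
    · exact ⟨F, hF0, hF1, fun ρ h => Or.inl h⟩
  -- codes which occur
  let T' : Finset (List J) := hT.toFinset.filter fun l =>
    ∃ ρ ∈ C, (F ρ ≠ 0 ∨ G ρ ≠ 0) ∧ Rel l ρ
  have hT' : ∀ l, l ∈ T' ↔ l ∈ T ∧ ∃ ρ ∈ C, (F ρ ≠ 0 ∨ G ρ ≠ 0) ∧ Rel l ρ := fun l => by
    simp only [T', Finset.mem_filter, Set.Finite.mem_toFinset]
  have hchoose : ∀ l : List J, ∃ ρ : ModVar K A e d, l ∈ T' → ρ ∈ C ∧ (F ρ ≠ 0 ∨ G ρ ≠ 0) ∧
      Rel l ρ := by
    intro l
    by_cases hl : l ∈ T'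
    · obtain ⟨-, ρ, h1, h2, h3⟩ := (hT' l).1 hl
      exact ⟨ρ, fun _ => ⟨h1, h2, h3⟩⟩
    · exact ⟨ρ₀, fun h => absurd h hl⟩
  choose r hr using hchoose
  let H : List J → ModVar K A e d → K := fun l => G (r l) • F - F (r l) • G
  have hH : ∀ l, H l ∈ regular K A e d := fun l =>
    Subalgebra.sub_mem _ (Subalgebra.smul_mem _ hF0 _) (Subalgebra.smul_mem _ hG0 _)
  have hHval : ∀ l ρ, H l ρ = G (r l) * F ρ - F (r l) * G ρ := fun l ρ => rfl
  by_cases hex0 : ∃ l ∈ T', ∀ ρ ∈ C, H l ρ = 0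
  · obtain ⟨l, hl, hl0⟩ := hex0
    refine ⟨G (r l), -F (r l), ?_, fun ρ hρ => ?_⟩
    · rcases (hr l hl).2.1 with h1 | h1
      · exact Or.inr (neg_ne_zero.2 h1)
      · exact Or.inl h1
    · have := hl0 ρ hρ
      rw [hHval] at this
      rw [neg_mul, ← sub_eq_add_neg]
      exact this
  · exfalso
    push Not at hex0
    have hirr : IsIrreducible C := hC.1
    let S : Finset (Set (ModVar K A e d)) :=
      insert {ρ | E ρ ≠ 0} (T'.image fun l => {ρ | H l ρ ≠ 0})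
    obtain ⟨ρ, hρC, hρ⟩ := (isIrreducible_iff_sInter.1 hirr) S (by
      intro U hU
      rcases Finset.mem_insert.1 hU with rfl | hU
      · exact isOpen_ne hE
      · obtain ⟨l, -, rfl⟩ := Finset.mem_image.1 hU
        exact isOpen_ne (hH l)) (by
      intro U hU
      rcases Finset.mem_insert.1 hU with rfl | hU
      · exact ⟨ρ₀, hρ₀, hE0⟩
      · obtain ⟨l, hl, rfl⟩ := Finset.mem_image.1 hU
        obtain ⟨ρ, h1, h2⟩ := hex0 l hl
        exact ⟨ρ, h1, h2⟩)
    have hE1 : E ρ ≠ 0 := hρ _ (Finset.mem_coe.2 (Finset.mem_insert_self _ _))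
    have hne := hEne ρ hE1
    obtain ⟨l, hlT, hl⟩ := hrel ρ hρC hne
    have hlT' : l ∈ T' := (hT' l).2 ⟨hlT, ρ, hρC, hne, hl⟩
    have h1 : H l ρ ≠ 0 := hρ _ (Finset.mem_coe.2 (Finset.mem_insert_of_mem
      (Finset.mem_image_of_mem _ hlT')))
    apply h1
    rw [hHval, sub_eq_zero, mul_comm, mul_comm]
    have h2 := huniq l ρ (r l) hl (hr l hlT').2.2
    rw [mul_comm (G (r l)), h2]

end Pool.Agent.H13.MF
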