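import Pool.Agent.H13.MF.PMod

/-! Semistable modules degenerate to direct sums of stable modules. -/

set_option linter.unusedSectionVars false
set_option linter.style.haveILetI false

universe u v w

namespace Pool.Agent.H13.MF

open Module

variable {K : Type v} [Field K] {A : Type u} [Ring A] [Algebra K A] {n : ℕ}
variable {e : Fin n → A} {d : Fin n → ℕ} {θ : Fin n → ℤ} {F G : ModVar K A e d → K} {x y x' y' : K}
variable {X Y Z W : BM.{u, v, v} K A}

instance (X : BM.{u, v, w} K A) (S : Submodule A X) : FiniteDimensional K S := (X.sub S).i5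

instance (X : BM.{u, v, w} K A) (S : Submodule A X) : FiniteDimensional K (X ⧸ S) := (X.quot S).i5

/-- `X` is isomorphic to a point with given values. -/
def Good (θ : Fin n → ℤ) (F G : ModVar K A e d → K) (x y : K) (X : BM.{u, v, v} K A) : Prop :=
  ∃ ρ : ModVar K A e d, Nonempty (X ≃ₗ[A] Pt ρ) ∧ SA θ F ρ ∧ SA θ G ρ ∧ F ρ = x ∧ G ρ = y

theorem Good.iso (h : Good θ F G x y X) (hXY : BIso X Y) : Good θ F G x y Y := by
  obtain ⟨ρ, ⟨ε⟩, h1⟩ := h
  obtain ⟨ε'⟩ := hXY
  exact ⟨ρ, ⟨ε'.symm ≪≫ₗ ε⟩, h1⟩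

theorem Good.unique (h : Good θ F G x y X) (h' : Good θ F G x' y' X) : x * y' = x' * y := by
  obtain ⟨ρ, ⟨ε⟩, h1, h2, rfl, rfl⟩ := h
  obtain ⟨ρ', ⟨ε'⟩, h1', h2', rfl, rfl⟩ := h'
  obtain ⟨g, rfl⟩ := exists_act ρ ρ' (ε.symm ≪≫ₗ ε')
  rw [h1 g, h2 g]
  ring

theorem sum_VU (ρ : ModVar K A e d) (ε : X ≃ₗ[A] Pt ρ) (U : Submodule A X) :
    ∑ i, θ i * (finrank K (VU ρ (U.map ε.toLinearMap) i) : ℤ) = th e θ (X.sub U) := by
  refine Finset.sum_congr rfl fun i _ => ?_
  rw [finrank_VU, rk_congr (e i) (ε.submoduleMap U)]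

theorem Good.sst [Infinite K] (hF : F ∈ regular K A e d) (hG : G ∈ regular K A e d)
    (h : Good θ F G x y X) (hxy : x ≠ 0 ∨ y ≠ 0) : SSt e θ X := by
  obtain ⟨ρ, ⟨ε⟩, h1, h2, rfl, rfl⟩ := h
  constructor
  · have h3 := (exists_step ρ ((⊤ : Submodule A X).map ε.toLinearMap) θ).2.2 (by
      rw [Submodule.map_top, LinearMap.range_eq_top]
      exact ε.surjective)
    rw [sum_VU] at h3
    have h4 : BIso (X.sub ⊤) X := ⟨Submodule.topEquiv⟩
    rw [th_congr e θ h4] at h3
    rcases hxy with hxy | hxy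
    · exact h3 F h1 hxy
    · exact h3 G h2 hxy
  · intro U
    have h3 := (exists_step ρ (U.map ε.toLinearMap) θ).1
    rw [sum_VU] at h3
    rcases hxy with hxy | hxy
    · exact h3 F hF h1 hxy
    · exact h3 G hG h2 hxy

theorem Good.step [Infinite K] (hF : F ∈ regular K A e d) (hG : G ∈ regular K A e d)
    (h : Good θ F G x y X) (U : Submodule A X) (hU : th e θ (X.sub U) = 0) :
    Good θ F G x y ((X.sub U).prod (X.quot U)) := by
  obtain ⟨ρ, ⟨ε⟩, h1, h2, rfl, rfl⟩ := h
  have h3 := (exists_step ρ (U.map ε.toLinearMap) θ).2.1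
  rw [sum_VU] at h3
  obtain ⟨σ, ⟨ε'⟩, hσ⟩ := h3 hU
  obtain ⟨h4, h5⟩ := hσ F hF h1
  obtain ⟨h6, h7⟩ := hσ G hG h2
  refine ⟨σ, ⟨?_ ≪≫ₗ ε'⟩, h5, h7, h4, h6⟩
  exact LinearEquiv.prodCongr (ε.submoduleMap U) (Submodule.Quotient.equiv U _ ε rfl)

/-- Degeneration in all contexts. -/
def Dg (θ : Fin n → ℤ) (F G : ModVar K A e d → K) (x y : K) (X Y : BM.{u, v, v} K A) : Prop :=
  ∀ Z : BM.{u, v, v} K A, Good θ F G x y (X.prod Z) → Good θ F G x y (Y.prod Z)

theorem Dg.iso (h : BIso X Y) : Dg θ F G x y X Y := fun Z hZ =>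
  hZ.iso (h.prod (BIso.refl Z))

theorem Dg.trans (h : Dg θ F G x y X Y) (h' : Dg θ F G x y Y Z) : Dg θ F G x y X Z :=
  fun W hW => h' W (h W hW)

theorem Dg.left (h : Dg θ F G x y X Y) (W : BM.{u, v, v} K A) :
    Dg θ F G x y (X.prod W) (Y.prod W) := fun Z hZ =>
  (h (W.prod Z) (hZ.iso (prod_assoc' X W Z))).iso (prod_assoc' Y W Z).symm

theorem Dg.right (h : Dg θ F G x y X Y) (W : BM.{u, v, v} K A) :
    Dg θ F G x y (W.prod X) (W.prod Y) :=
  (Dg.iso (prod_comm' W X)).trans ((h.left W).trans (Dg.iso (prod_comm' Y W)))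

theorem Dg.step [Infinite K] (hF : F ∈ regular K A e d) (hG : G ∈ regular K A e d)
    (U : Submodule A X) (hU : th e θ (X.sub U) = 0) :
    Dg θ F G x y X ((X.sub U).prod (X.quot U)) := by
  intro Z hZ
  let U' : Submodule A (X.prod Z) := U.prod ⊥
  have h1 : BIso ((X.prod Z).sub U') (X.sub U) := by
    refine ⟨LinearEquiv.symm ?_⟩
    exact
      { toFun := fun u => ⟨(u.1, 0), u.2, rfl⟩
        invFun := fun u => ⟨u.1.1, u.2.1⟩
        map_add' := fun u u' => by
          apply Subtype.ext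
          exact Prod.ext rfl (add_zero (0 : Z)).symm
        map_smul' := fun a u => by
          apply Subtype.ext
          exact Prod.ext rfl (smul_zero (A := Z) a).symm
        left_inv := fun u => rfl
        right_inv := fun u => by
          apply Subtype.ext
          exact Prod.ext rfl u.2.2.symm }
  let φ : (X.prod Z) →ₗ[A] ((X.quot U).prod Z) :=
    LinearMap.prod (U.mkQ ∘ₗ LinearMap.fst A X Z) (LinearMap.snd A X Z)
  have hφ : Function.Surjective φ := by
    rintro ⟨q, z⟩
    obtain ⟨q, rfl⟩ := Submodule.mkQ_surjective U q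
    exact ⟨(q, z), rfl⟩
  have hk : LinearMap.ker φ = U' := by
    ext ⟨a, z⟩
    constructor
    · intro ha
      have h3 : U.mkQ a = 0 := congrArg Prod.fst ha
      have h4 : z = 0 := congrArg Prod.snd ha
      rw [Submodule.mkQ_apply, Submodule.Quotient.mk_eq_zero] at h3
      exact ⟨h3, h4⟩
    · rintro ⟨ha, hz⟩
      refine Prod.ext ?_ hz
      show U.mkQ a = 0
      rw [Submodule.mkQ_apply, Submodule.Quotient.mk_eq_zero]
      exact ha
  have h2 : BIso ((X.prod Z).quot U') ((X.quot U).prod Z) := by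
    rw [← hk]
    exact ⟨LinearMap.quotKerEquivOfSurjective φ hφ⟩
  have h3 := hZ.step hF hG U' (by rw [th_congr e θ h1, hU])
  exact (h3.iso (h1.prod h2)).iso (prod_assoc' (X.sub U) (X.quot U) Z).symm

/-- A semistable module degenerates to a direct sum of stable modules. -/
theorem exists_dec [Infinite K] (he : ∀ i, IsIdempotentElem (e i)) (hF : F ∈ regular K A e d)
    (hG : G ∈ regular K A e d) (N : ℕ) : ∀ X : BM.{u, v, v} K A, finrank K X ≤ N → SSt e θ X →
    ∃ L : List (BM.{u, v, v} K A), (∀ B ∈ L, St e θ B ∧ ∀ i,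
      finrank K (LinearMap.range (eK K (e i) B)) ≤ finrank K (LinearMap.range (eK K (e i) X))) ∧
      L.length ≤ finrank K X ∧ Dg θ F G x y X (BM.prodL L) := by
  induction N with
  | zero =>
    intro X hX _
    have h0 : finrank K X = 0 := Nat.le_zero.1 hX
    haveI : Subsingleton X := Module.finrank_zero_iff.1 h0
    refine ⟨[], fun B hB => absurd hB List.not_mem_nil, Nat.zero_le _, Dg.iso ⟨?_⟩⟩
    exact
      { toFun := fun _ => PUnit.unit
        invFun := fun _ => 0
        map_add' := fun _ _ => rfl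
        map_smul' := fun _ _ => rfl
        left_inv := fun _ => Subsingleton.elim _ _
        right_inv := fun _ => rfl }
  | succ N ih =>
    intro X hX hss
    by_cases hle : finrank K X ≤ N
    · exact ih X hle hss
    have hN : finrank K X = N + 1 := by omega
    haveI hnt : Nontrivial X := Module.nontrivial_of_finrank_pos (R := K) (by omega)
    by_cases hst : St e θ X
    · refine ⟨[X], fun B hB => ?_, by simp; omega, Dg.iso ⟨?_⟩⟩
      · rw [List.mem_singleton] at hB
        subst hB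
        exact ⟨hst, fun i => le_rfl⟩
      · exact
          { toFun := fun a => (a, PUnit.unit)
            invFun := fun a => a.1
            map_add' := fun _ _ => rfl
            map_smul' := fun _ _ => rfl
            left_inv := fun _ => rfl
            right_inv := fun _ => rfl }
    · obtain ⟨U, hU0, hU1, hU⟩ : ∃ U : Submodule A X, U ≠ ⊥ ∧ U ≠ ⊤ ∧ th e θ (X.sub U) = 0 := by
        by_contra hne
        push Not at hne
        refine hst ⟨hnt, hss.1, fun U h0 h1 => ?_⟩
        exact lt_of_le_of_ne (hss.2 U) (Ne.symm (hne U h0 h1))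
      have hadd : finrank K (X.quot U) + finrank K (X.sub U) = finrank K X :=
        Submodule.finrank_quotient_add_finrank (U.restrictScalars K)
      haveI : FiniteDimensional K (X.sub U) := (X.sub U).i5
      haveI : FiniteDimensional K (X.quot U) := (X.quot U).i5
      haveI hn1 : Nontrivial (X.sub U) := (Submodule.nontrivial_iff_ne_bot).2 hU0
      haveI hn2 : Nontrivial (X.quot U) := Submodule.Quotient.nontrivial_iff.2 hU1
      have hp1 : 0 < finrank K (X.sub U) := Module.finrank_pos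
      have hp2 : 0 < finrank K (X.quot U) := Module.finrank_pos
      obtain ⟨L1, h1, h2, h3⟩ := ih (X.sub U) (by omega) (hss.sub hU)
      obtain ⟨L2, h4, h5, h6⟩ := ih (X.quot U) (by omega) (hss.quot he hU)
      refine ⟨L1 ++ L2, fun B hB => ?_, by rw [List.length_append]; omega, ?_⟩
      · rcases List.mem_append.1 hB with hB | hB
        · refine ⟨(h1 B hB).1, fun i => ((h1 B hB).2 i).trans ?_⟩
          rw [rk_add (e i) U (he i)]
          exact Nat.le_add_right _ _
        · refine ⟨(h4 B hB).1, fun i => ((h4 B hB).2 i).trans ?_⟩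
          rw [rk_add (e i) U (he i)]
          exact Nat.le_add_left _ _
      · exact (Dg.step hF hG U hU).trans ((h3.left _).trans ((h6.right _).trans
          (Dg.iso (prodL_append L1 L2).symm)))

end Pool.Agent.H13.MF
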