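import Pool.Agent.H13.MF.PStep

/-! Semistable modules degenerate to direct sums of stable modules. -/

set_option linter.unusedSectionVars false
set_option linter.style.haveILetI false

universe u v w

namespace Pool.Agent.H13.MF

open Module

section dv

variable {K : Type*} [Field K] {A : Type*} [Ring A] [Algebra K A]
variable {M : Type*} [AddCommGroup M] [Module K M] [Module A M] [IsScalarTower K A M]
  [FiniteDimensional K M]
variable {N : Type*} [AddCommGroup N] [Module K N] [Module A N] [IsScalarTower K A N]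

theorem rk_congr (a : A) (ε : M ≃ₗ[A] N) :
    finrank K (LinearMap.range (eK K a M)) = finrank K (LinearMap.range (eK K a N)) := by
  have h : LinearMap.range (eK K a N) =
      (LinearMap.range (eK K a M)).map (ε.restrictScalars K).toLinearMap := by
    ext x
    constructor
    · rintro ⟨y, rfl⟩
      refine ⟨a • ε.symm y, ⟨ε.symm y, rfl⟩, ?_⟩
      show ε (a • ε.symm y) = a • y
      rw [map_smul, LinearEquiv.apply_symm_apply]
    · rintro ⟨_, ⟨y, rfl⟩, rfl⟩
      exact ⟨ε y, (ε.map_smul a y).symm⟩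
  rw [h]
  exact LinearEquiv.finrank_eq ((ε.restrictScalars K).submoduleMap (LinearMap.range (eK K a M)))

theorem rk_add (a : A) (U : Submodule A M) (ha : IsIdempotentElem a) :
    finrank K (LinearMap.range (eK K a M)) =
      finrank K (LinearMap.range (eK K a U)) + finrank K (LinearMap.range (eK K a (M ⧸ U))) := by
  let g : LinearMap.range (eK K a M) →ₗ[K] (M ⧸ U) :=
    (U.mkQ.restrictScalars K) ∘ₗ (LinearMap.range (eK K a M)).subtype
  have h1 : LinearMap.range g = LinearMap.range (eK K a (M ⧸ U)) := by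
    ext x
    constructor
    · rintro ⟨⟨_, ⟨y, rfl⟩⟩, rfl⟩
      exact ⟨U.mkQ y, rfl⟩
    · rintro ⟨y, rfl⟩
      obtain ⟨y, rfl⟩ := Submodule.mkQ_surjective U y
      exact ⟨⟨a • y, ⟨y, rfl⟩⟩, rfl⟩
  let f : LinearMap.range (eK K a U) →ₗ[K] LinearMap.range (eK K a M) :=
    { toFun := fun x => ⟨x.1.1, by
        obtain ⟨_, ⟨y, rfl⟩⟩ := x
        exact ⟨y.1, rfl⟩⟩
      map_add' := fun _ _ => rfl
      map_smul' := fun _ _ => rfl }
  have hf : Function.Injective f := by
    intro x y h
    have h1 : (f x).1 = (f y).1 := by rw [h]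
    exact Subtype.ext (Subtype.ext h1)
  have h2 : LinearMap.range f = LinearMap.ker g := by
    ext x
    constructor
    · rintro ⟨y, rfl⟩
      show U.mkQ y.1.1 = 0
      rw [Submodule.mkQ_apply, Submodule.Quotient.mk_eq_zero]
      exact y.1.2
    · intro hx
      have hx' : U.mkQ x.1 = 0 := hx
      rw [Submodule.mkQ_apply, Submodule.Quotient.mk_eq_zero] at hx'
      obtain ⟨_, ⟨y, rfl⟩⟩ := x
      have h3 : a • (a • y) = a • y := by rw [smul_smul, ha.eq]
      exact ⟨⟨a • (⟨a • y, hx'⟩ : U), ⟨⟨a • y, hx'⟩, rfl⟩⟩, Subtype.ext h3⟩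
  have h4 := LinearMap.finrank_range_add_finrank_ker g
  rw [h1, ← h2, LinearMap.finrank_range_of_inj hf] at h4
  rw [← h4, add_comm]

theorem rk_le (a : A) : finrank K (LinearMap.range (eK K a M)) ≤ finrank K M :=
  Submodule.finrank_le _

end dv

/-- A finite-dimensional module. -/
structure BM (K : Type v) [Field K] (A : Type u) [Ring A] [Algebra K A] where
  C : Type w
  [i1 : AddCommGroup C]
  [i2 : Module K C]
  [i3 : Module A C]
  [i4 : IsScalarTower K A C]
  [i5 : FiniteDimensional K C]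

attribute [instance] BM.i1 BM.i2 BM.i3 BM.i4 BM.i5

variable {K : Type v} [Field K] {A : Type u} [Ring A] [Algebra K A] {n : ℕ}

instance : CoeSort (BM.{u, v, w} K A) (Type w) := ⟨BM.C⟩

/-- The value of a weight. -/
noncomputable def th (e : Fin n → A) (θ : Fin n → ℤ) (M : BM.{u, v, w} K A) : ℤ :=
  ∑ i, θ i * (finrank K (LinearMap.range (eK K (e i) M)) : ℤ)

/-- A submodule. -/
abbrev BM.sub (X : BM.{u, v, w} K A) (S : Submodule A X) : BM.{u, v, w} K A :=
  { C := S
    i5 := Module.Finite.of_injective (S.subtype.restrictScalars K) (Submodule.injective_subtype S) }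

/-- A quotient. -/
abbrev BM.quot (X : BM.{u, v, w} K A) (S : Submodule A X) : BM.{u, v, w} K A :=
  { C := X ⧸ S
    i5 := Module.Finite.of_surjective (S.mkQ.restrictScalars K) (Submodule.mkQ_surjective S) }

/-- A product. -/
abbrev BM.prod (X Y : BM.{u, v, w} K A) : BM.{u, v, w} K A := { C := X × Y }

/-- The product of a list. -/
def BM.prodL : List (BM.{u, v, w} K A) → BM.{u, v, w} K A
  | [] => { C := PUnit.{w + 1} }
  | X :: L => X.prod (BM.prodL L)

/-- Isomorphic modules. -/
def BIso (X Y : BM.{u, v, w} K A) : Prop := Nonempty (X ≃ₗ[A] Y)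

theorem BIso.refl (X : BM.{u, v, w} K A) : BIso X X := ⟨LinearEquiv.refl A X⟩

theorem BIso.symm {X Y : BM.{u, v, w} K A} (h : BIso X Y) : BIso Y X := h.map fun ε => ε.symm

theorem BIso.trans {X Y Z : BM.{u, v, w} K A} (h : BIso X Y) (h' : BIso Y Z) : BIso X Z := by
  obtain ⟨ε⟩ := h
  obtain ⟨ε'⟩ := h'
  exact ⟨ε ≪≫ₗ ε'⟩

theorem BIso.prod {X Y X' Y' : BM.{u, v, w} K A} (h : BIso X X') (h' : BIso Y Y') :
    BIso (X.prod Y) (X'.prod Y') := by
  obtain ⟨ε⟩ := h
  obtain ⟨ε'⟩ := h'
  exact ⟨LinearEquiv.prodCongr ε ε'⟩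

theorem prod_comm' (X Y : BM.{u, v, w} K A) : BIso (X.prod Y) (Y.prod X) :=
  ⟨LinearEquiv.prodComm A X Y⟩

theorem prod_assoc' (X Y Z : BM.{u, v, w} K A) :
    BIso ((X.prod Y).prod Z) (X.prod (Y.prod Z)) :=
  ⟨LinearEquiv.prodAssoc A X Y Z⟩

theorem prodL_congr {L L' : List (BM.{u, v, w} K A)} (h : List.Forall₂ BIso L L') :
    BIso (BM.prodL L) (BM.prodL L') := by
  induction h with
  | nil => exact BIso.refl _
  | cons h _ ih => exact h.prod ih

theorem prodL_append (L L' : List (BM.{u, v, w} K A)) :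
    BIso (BM.prodL (L ++ L')) ((BM.prodL L).prod (BM.prodL L')) := by
  induction L with
  | nil =>
    refine ⟨?_⟩
    exact
      { toFun := fun x => (PUnit.unit, x)
        invFun := fun x => x.2
        map_add' := fun _ _ => rfl
        map_smul' := fun _ _ => rfl
        left_inv := fun _ => rfl
        right_inv := fun _ => rfl }
  | cons X L ih =>
    exact ((BIso.refl X).prod ih).trans (prod_assoc' X (BM.prodL L) (BM.prodL L')).symm

theorem th_congr (e : Fin n → A) (θ : Fin n → ℤ) {X Y : BM.{u, v, w} K A} (h : BIso X Y) :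
    th e θ X = th e θ Y := by
  obtain ⟨ε⟩ := h
  refine Finset.sum_congr rfl fun i _ => ?_
  rw [rk_congr (e i) ε]

theorem th_add (e : Fin n → A) (he : ∀ i, IsIdempotentElem (e i)) (θ : Fin n → ℤ)
    (X : BM.{u, v, w} K A) (U : Submodule A X) :
    th e θ X = th e θ (X.sub U) + th e θ (X.quot U) := by
  rw [th, th, th, ← Finset.sum_add_distrib]
  refine Finset.sum_congr rfl fun i _ => ?_
  rw [rk_add (e i) U (he i), Nat.cast_add, mul_add]

/-- Semistability. -/
def SSt (e : Fin n → A) (θ : Fin n → ℤ) (X : BM.{u, v, w} K A) : Prop :=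
  th e θ X = 0 ∧ ∀ U : Submodule A X, 0 ≤ th e θ (X.sub U)

/-- Stability. -/
def St (e : Fin n → A) (θ : Fin n → ℤ) (X : BM.{u, v, w} K A) : Prop :=
  Nontrivial X ∧ th e θ X = 0 ∧ ∀ U : Submodule A X, U ≠ ⊥ → U ≠ ⊤ → 0 < th e θ (X.sub U)

theorem sub_sub_iso (X : BM.{u, v, w} K A) (U : Submodule A X) (V : Submodule A (X.sub U)) :
    BIso ((X.sub U).sub V) (X.sub (V.map U.subtype)) :=
  ⟨(Submodule.equivMapOfInjective U.subtype (Submodule.injective_subtype U) V)⟩

theorem SSt.sub {e : Fin n → A} {θ : Fin n → ℤ} {X : BM.{u, v, w} K A} (h : SSt e θ X)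
    {U : Submodule A X} (hU : th e θ (X.sub U) = 0) : SSt e θ (X.sub U) := by
  refine ⟨hU, fun V => ?_⟩
  rw [th_congr e θ (sub_sub_iso X U V)]
  exact h.2 _

theorem SSt.quot {e : Fin n → A} (he : ∀ i, IsIdempotentElem (e i)) {θ : Fin n → ℤ}
    {X : BM.{u, v, w} K A} (h : SSt e θ X)
    {U : Submodule A X} (hU : th e θ (X.sub U) = 0) : SSt e θ (X.quot U) := by
  constructor
  · have h1 := th_add e he θ X U
    rw [h.1, hU, zero_add] at h1
    exact h1.symm
  · intro V
    let W : Submodule A X := V.comap U.mkQ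
    have hUW : U ≤ W := by
      intro x hx
      show U.mkQ x ∈ V
      rw [Submodule.mkQ_apply, (Submodule.Quotient.mk_eq_zero U).2 hx]
      exact V.zero_mem
    let φ : W →ₗ[A] V := (U.mkQ ∘ₗ W.subtype).codRestrict V (fun x => x.2)
    have hφ : Function.Surjective φ := by
      rintro ⟨y, hy⟩
      obtain ⟨x, rfl⟩ := Submodule.mkQ_surjective U y
      exact ⟨⟨x, hy⟩, rfl⟩
    have h1 := th_add e he θ (X.sub W) (LinearMap.ker φ)
    have h2 : BIso ((X.sub W).quot (LinearMap.ker φ)) ((X.quot U).sub V) :=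
      ⟨LinearMap.quotKerEquivOfSurjective φ hφ⟩
    have h3 : BIso ((X.sub W).sub (LinearMap.ker φ)) (X.sub U) := by
      refine (sub_sub_iso X W (LinearMap.ker φ)).trans ?_
      have h4 : (LinearMap.ker φ).map W.subtype = U := by
        ext x
        constructor
        · rintro ⟨y, hy, rfl⟩
          have h5 : U.mkQ y.1 = 0 := congrArg Subtype.val hy
          rw [Submodule.mkQ_apply, Submodule.Quotient.mk_eq_zero] at h5
          exact h5
        · intro hx
          refine ⟨⟨x, hUW hx⟩, ?_, rfl⟩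
          apply Subtype.ext
          show U.mkQ x = 0
          rw [Submodule.mkQ_apply, Submodule.Quotient.mk_eq_zero]
          exact hx
      rw [h4]
      exact BIso.refl _
    rw [th_congr e θ h2, th_congr e θ h3, hU, zero_add] at h1
    rw [← h1]
    exact h.2 W

/-- A stable module is a brick. -/
theorem St.brick {e : Fin n → A} (he : ∀ i, IsIdempotentElem (e i)) {θ : Fin n → ℤ}
    {X : BM.{u, v, w} K A} (h : St e θ X) (φ : X →ₗ[A] X) (hφ : φ ≠ 0) :
    Function.Bijective φ := by
  have h1 := th_add e he θ X (LinearMap.ker φ)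
  have h2 : BIso (X.quot (LinearMap.ker φ)) (X.sub (LinearMap.range φ)) :=
    ⟨φ.quotKerEquivRange⟩
  rw [h.2.1, th_congr e θ h2] at h1
  have hk : LinearMap.ker φ ≠ ⊤ := fun hk => hφ (LinearMap.ker_eq_top.1 hk)
  have hr : LinearMap.range φ ≠ ⊥ := fun hr => hφ (LinearMap.range_eq_bot.1 hr)
  have h3 : 0 ≤ th e θ (X.sub (LinearMap.range φ)) := by
    by_cases ht : LinearMap.range φ = ⊤
    · have h4 : BIso (X.sub (LinearMap.range φ)) X := by
        rw [ht]
        exact ⟨Submodule.topEquiv⟩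
      rw [th_congr e θ h4, h.2.1]
    · exact (h.2.2 _ hr ht).le
  have h4 : LinearMap.ker φ = ⊥ := by
    by_contra hb
    have := h.2.2 _ hb hk
    omega
  have hinj : Function.Injective φ := LinearMap.ker_eq_bot.1 h4
  exact ⟨hinj, LinearMap.surjective_of_injective (f := φ.restrictScalars K) hinj⟩

end Pool.Agent.H13.MF
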