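import Pool.Agent.H13.MF.PBase

/-! Degeneration of a module to the direct sum of a submodule and its quotient. -/

set_option linter.unusedSectionVars false
set_option linter.style.haveILetI false

universe u v w

namespace Pool.Agent.H13.MF

open Module

section linear

variable {K : Type v} [Field K]

/-- A projection onto a subspace, as a product of matrices. -/
theorem exists_fac {m : ℕ} (V : Submodule K (Fin m → K)) :
    ∃ (B : Matrix (Fin m) (Fin (finrank K V)) K) (B' : Matrix (Fin (finrank K V)) (Fin m) K),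
      B' * B = 1 ∧ (∀ x ∈ V, (B * B').mulVec x = x) ∧ ∀ x, (B * B').mulVec x ∈ V := by
  classical
  let b := Module.finBasis K V
  let f : (Fin (finrank K V) → K) →ₗ[K] (Fin m → K) := V.subtype ∘ₗ b.equivFun.symm.toLinearMap
  have hfi : Function.Injective f :=
    (Submodule.injective_subtype V).comp b.equivFun.symm.injective
  obtain ⟨f', hf'⟩ := LinearMap.exists_leftInverse_of_injective f (LinearMap.ker_eq_bot.2 hfi)
  have hBx : ∀ x, (LinearMap.toMatrix' f).mulVec x = f x := fun x => LinearMap.toMatrix'_mulVec f x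
  have hBx' : ∀ x, (LinearMap.toMatrix' f').mulVec x = f' x :=
    fun x => LinearMap.toMatrix'_mulVec f' x
  have h1 : ∀ x, (LinearMap.toMatrix' f * LinearMap.toMatrix' f').mulVec x = f (f' x) := fun x => by
    rw [← Matrix.mulVec_mulVec, hBx', hBx]
  refine ⟨LinearMap.toMatrix' f, LinearMap.toMatrix' f', ?_, ?_, ?_⟩
  · rw [← LinearMap.toMatrix'_comp, hf', LinearMap.toMatrix'_id]
  · intro x hx
    rw [h1]
    have h2 : x = f (b.equivFun ⟨x, hx⟩) := by
      show x = (b.equivFun.symm (b.equivFun ⟨x, hx⟩) : V)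
      rw [LinearEquiv.symm_apply_apply]
    have h3 : ∀ y, f' (f y) = y := fun y => LinearMap.congr_fun hf' y
    rw [h2, h3]
  · intro x
    rw [h1]
    exact (b.equivFun.symm (f' x)).2

theorem prod_zpow_sum {ι : Type*} (s : Finset ι) (t : K) (ht : t ≠ 0) (f : ι → ℤ) :
    ∏ i ∈ s, t ^ f i = t ^ ∑ i ∈ s, f i := by
  classical
  induction s using Finset.induction_on with
  | empty => simp
  | insert i s hi ih => rw [Finset.prod_insert hi, Finset.sum_insert hi, ih, zpow_add₀ ht]

end linear

variable {K : Type v} [Field K] {A : Type u} [Ring A] [Algebra K A] {n : ℕ} {e : Fin n → A}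
  {d : Fin n → ℕ}

/-- The inclusion of a block. -/
def inc (d : Fin n → ℕ) (i : Fin n) : (Fin (d i) → K) →ₗ[K] (Idx d → K) where
  toFun y s := if h : s.1 = i then y (h ▸ s.2) else 0
  map_add' x y := by
    funext s
    by_cases h : s.1 = i
    · simp [h]
    · simp [h]
  map_smul' c y := by
    funext s
    by_cases h : s.1 = i
    · simp [h]
    · simp [h]

theorem inc_same (i : Fin n) (y : Fin (d i) → K) (s : Fin (d i)) : inc d i y ⟨i, s⟩ = y s := by
  simp [inc]

theorem inc_ne {i j : Fin n} (h : j ≠ i) (y : Fin (d i) → K) (s : Fin (d j)) :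
    inc d i y ⟨j, s⟩ = 0 := by
  simp [inc, h]

/-- The restriction to a block. -/
def res (d : Fin n → ℕ) (i : Fin n) (x : Idx d → K) : Fin (d i) → K := fun s => x ⟨i, s⟩

theorem res_inc (i : Fin n) (y : Fin (d i) → K) : res d i (inc d i y) = y := by
  funext s
  exact inc_same i y s

theorem diag_mulVec (i : Fin n) (x : Idx d → K) :
    (Matrix.diagonal fun s : Idx d => if s.1 = i then (1 : K) else 0).mulVec x =
      inc d i (res d i x) := by
  funext ⟨j, s⟩
  rw [Matrix.mulVec_diagonal]
  by_cases h : j = i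
  · subst h
    rw [inc_same]
    simp [res]
  · rw [inc_ne h]
    simp [h]

theorem sum_inc (x : Idx d → K) : ∑ i, inc d i (res d i x) = x := by
  funext ⟨j, s⟩
  rw [Finset.sum_apply, Finset.sum_eq_single j]
  · exact inc_same j _ s
  · intro i _ hi
    exact inc_ne (Ne.symm hi) _ s
  · intro h
    exact absurd (Finset.mem_univ _) h

theorem res_blockDiagonal (π : ∀ i, Matrix (Fin (d i)) (Fin (d i)) K) (i : Fin n)
    (x : Idx d → K) :
    res d i ((Matrix.blockDiagonal' π).mulVec x) = (π i).mulVec (res d i x) := by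
  funext s
  show (Matrix.blockDiagonal' π).mulVec x ⟨i, s⟩ = _
  rw [Matrix.mulVec, dotProduct, Fintype.sum_sigma, Finset.sum_eq_single i]
  · rw [Matrix.mulVec, dotProduct]
    refine Finset.sum_congr rfl fun s' _ => ?_
    rw [Matrix.blockDiagonal'_apply_eq]
    rfl
  · intro j _ hj
    refine Finset.sum_eq_zero fun s' _ => ?_
    rw [Matrix.blockDiagonal'_apply_ne _ _ _ (Ne.symm hj), zero_mul]
  · intro h
    exact absurd (Finset.mem_univ _) h

section degen

variable (ρ : ModVar K A e d) (P : Matrix (Idx d) (Idx d) K)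

/-- The curve `ρ + (t - 1) (P ρ - ρ P)`. -/
def degen (hP : P * P = P) (hinv : ∀ a, P * ρ.1 a * P = ρ.1 a * P)
    (hcomm : ∀ i, P * ρ.1 (e i) = ρ.1 (e i) * P) (t : K) : ModVar K A e d :=
  ⟨{ toFun := fun a => ρ.1 a + (t - 1) • (P * ρ.1 a - ρ.1 a * P)
     map_one' := by rw [map_one, mul_one, one_mul, sub_self, smul_zero, add_zero]
     map_mul' := fun a b => by
       have h0 : (P * ρ.1 a - ρ.1 a * P) * (P * ρ.1 b - ρ.1 b * P) = 0 := by
         have h1 : (P * ρ.1 a - ρ.1 a * P) * (P * ρ.1 b - ρ.1 b * P) =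
             P * ρ.1 a * P * ρ.1 b - P * ρ.1 a * ρ.1 b * P - ρ.1 a * (P * P) * ρ.1 b +
               ρ.1 a * (P * ρ.1 b * P) := by noncomm_ring
         have h2 : P * ρ.1 a * ρ.1 b * P = ρ.1 a * ρ.1 b * P := by
           have := hinv (a * b)
           rw [map_mul] at this
           rw [mul_assoc P, this]
         rw [h1, hinv a, hinv b, hP, h2]
         noncomm_ring
       rw [map_mul]
       have h3 : (ρ.1 a + (t - 1) • (P * ρ.1 a - ρ.1 a * P)) *
           (ρ.1 b + (t - 1) • (P * ρ.1 b - ρ.1 b * P)) =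
           ρ.1 a * ρ.1 b + (t - 1) • (P * ρ.1 a * ρ.1 b - ρ.1 a * ρ.1 b * P) +
             ((t - 1) * (t - 1)) • ((P * ρ.1 a - ρ.1 a * P) * (P * ρ.1 b - ρ.1 b * P)) := by
         rw [add_mul, mul_add, mul_add, smul_mul_assoc, smul_mul_smul_comm, mul_smul_comm]
         have h4 : P * ρ.1 a * ρ.1 b - ρ.1 a * ρ.1 b * P =
             (P * ρ.1 a - ρ.1 a * P) * ρ.1 b + ρ.1 a * (P * ρ.1 b - ρ.1 b * P) := by
           noncomm_ring
         rw [h4, smul_add]
         abel
       rw [h3, h0, smul_zero, add_zero, mul_assoc P]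
     map_zero' := by rw [map_zero, mul_zero, zero_mul, sub_self, smul_zero, add_zero]
     map_add' := fun a b => by
       rw [map_add, mul_add, add_mul]
       rw [show P * ρ.1 a + P * ρ.1 b - (ρ.1 a * P + ρ.1 b * P) =
         (P * ρ.1 a - ρ.1 a * P) + (P * ρ.1 b - ρ.1 b * P) by abel, smul_add]
       abel
     commutes' := fun r => by
       rw [AlgHom.commutes, Algebra.algebraMap_eq_smul_one, mul_smul_comm, smul_mul_assoc,
         mul_one, one_mul, sub_self, smul_zero, add_zero] },
   fun i => by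
     show ρ.1 (e i) + (t - 1) • (P * ρ.1 (e i) - ρ.1 (e i) * P) = _
     rw [hcomm i, sub_self, smul_zero, add_zero, ρ.2 i]⟩

variable (hP : P * P = P) (hinv : ∀ a, P * ρ.1 a * P = ρ.1 a * P)
    (hcomm : ∀ i, P * ρ.1 (e i) = ρ.1 (e i) * P)

theorem degen_apply (t : K) (a : A) :
    (degen ρ P hP hinv hcomm t).1 a = ρ.1 a + (t - 1) • (P * ρ.1 a - ρ.1 a * P) := rfl

theorem degen_cv : Cv (degen ρ P hP hinv hcomm) := by
  intro a s s'
  refine ⟨Polynomial.C (ρ.1 a s s') + (Polynomial.X - Polynomial.C 1) *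
    Polynomial.C ((P * ρ.1 a - ρ.1 a * P) s s'), fun t => ?_⟩
  rw [degen_apply, Matrix.add_apply, Matrix.smul_apply]
  simp

end degen

theorem ext_res {x y : Idx d → K} (h : ∀ i, res d i x = res d i y) : x = y := by
  funext ⟨i, s⟩
  exact congrFun (h i) s

/-- The action of an element on a module. -/
noncomputable abbrev eK (K : Type*) [Field K] {A : Type*} [Ring A] [Algebra K A] (a : A)
    (M : Type*) [AddCommGroup M] [Module K M] [Module A M] [IsScalarTower K A M] : M →ₗ[K] M :=
  Algebra.lsmul K K M a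

section step

variable (ρ : ModVar K A e d) (U : Submodule A (Pt ρ))

theorem e_smul (i : Fin n) (x : Pt ρ) : e i • x = (inc d i (res d i x) : Idx d → K) := by
  have h : ∀ y : Idx d → K, (ρ.1 (e i)).mulVec y = inc d i (res d i y) := fun y => by
    rw [ρ.2 i, diag_mulVec]
  exact h x

/-- The part of a submodule in a block. -/
def VU (i : Fin n) : Submodule K (Fin (d i) → K) :=
  Submodule.comap (inc d i) (show Submodule K (Idx d → K) from U.restrictScalars K)

theorem mem_VU (i : Fin n) (y : Fin (d i) → K) :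
    y ∈ VU ρ U i ↔ (show Pt ρ from inc d i y) ∈ U := Iff.rfl

theorem res_mem (i : Fin n) {x : Pt ρ} (hx : x ∈ U) : res d i x ∈ VU ρ U i := by
  rw [mem_VU]
  have := U.smul_mem (e i) hx
  rw [e_smul] at this
  exact this

theorem mem_of_res {x : Pt ρ} (h : ∀ i, res d i x ∈ VU ρ U i) : x ∈ U := by
  have h1 : (∑ i, (show Pt ρ from inc d i (res d i x))) ∈ U :=
    Submodule.sum_mem _ fun i _ => h i
  have h2 : (∑ i, (show Pt ρ from inc d i (res d i x))) = x := sum_inc (d := d) x
  rwa [h2] at h1

theorem finrank_VU (i : Fin n) :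
    finrank K (VU ρ U i) = finrank K (LinearMap.range (eK K (e i) U)) := by
  let f : VU ρ U i →ₗ[K] U :=
    { toFun := fun y => ⟨(show Pt ρ from inc d i y), y.2⟩
      map_add' := fun x y => Subtype.ext (map_add (inc d i) x.1 y.1)
      map_smul' := fun c y => Subtype.ext (map_smul (inc d i) c y.1) }
  have hf : Function.Injective f := by
    intro x y h
    apply Subtype.ext
    have h1 : inc d i x.1 = inc d i y.1 := congrArg Subtype.val h
    rw [← res_inc i x.1, h1, res_inc]
  have hr : LinearMap.range f = LinearMap.range (eK K (e i) U) := by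
    ext z
    constructor
    · rintro ⟨y, rfl⟩
      refine ⟨f y, ?_⟩
      apply Subtype.ext
      show e i • (show Pt ρ from inc d i y.1) = _
      rw [e_smul, res_inc]
      rfl
    · rintro ⟨y, rfl⟩
      refine ⟨⟨res d i y.1, res_mem ρ U i y.2⟩, ?_⟩
      apply Subtype.ext
      show (show Pt ρ from inc d i (res d i y.1)) = e i • y.1
      rw [e_smul]
  rw [← hr, LinearMap.finrank_range_of_inj hf]

theorem exists_step [Infinite K] (θ : Fin n → ℤ) :
    (∀ F ∈ regular K A e d, SA θ F ρ → F ρ ≠ 0 →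
      0 ≤ ∑ i, θ i * (finrank K (VU ρ U i) : ℤ)) ∧
    (∑ i, θ i * (finrank K (VU ρ U i) : ℤ) = 0 → ∃ σ : ModVar K A e d,
      Nonempty ((U × (Pt ρ ⧸ U)) ≃ₗ[A] Pt σ) ∧
      ∀ F ∈ regular K A e d, SA θ F ρ → F σ = F ρ ∧ SA θ F σ) ∧
    (U = ⊤ → ∀ F : ModVar K A e d → K, SA θ F ρ → F ρ ≠ 0 →
      ∑ i, θ i * (finrank K (VU ρ U i) : ℤ) = 0) := by
  classical
  choose B B' hB1 hB2 hB3 using fun i => exists_fac (VU ρ U i)
  let π : ∀ i, Matrix (Fin (d i)) (Fin (d i)) K := fun i => B i * B' i
  have hπ : ∀ i, π i * π i = π i := fun i => by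
    show B i * B' i * (B i * B' i) = B i * B' i
    rw [Matrix.mul_assoc, ← Matrix.mul_assoc (B' i), hB1, Matrix.one_mul]
  let P : Matrix (Idx d) (Idx d) K := Matrix.blockDiagonal' π
  have hP : P * P = P := by
    show Matrix.blockDiagonal' π * Matrix.blockDiagonal' π = Matrix.blockDiagonal' π
    rw [← Matrix.blockDiagonal'_mul]
    congr 1
    funext i
    exact hπ i
  have hres : ∀ i x, res d i (P.mulVec x) = (π i).mulVec (res d i x) :=
    fun i x => res_blockDiagonal π i x
  have hPU : ∀ x : Pt ρ, (show Pt ρ from P.mulVec x) ∈ U := by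
    intro x
    refine mem_of_res ρ U fun i => ?_
    have := hres i x
    show res d i (P.mulVec x) ∈ _
    rw [this]
    exact hB3 i _
  have hUP : ∀ x : Pt ρ, x ∈ U → P.mulVec x = x := by
    intro x hx
    refine ext_res fun i => ?_
    rw [hres i x]
    exact hB2 i _ (res_mem ρ U i hx)
  have hext : ∀ M N : Matrix (Idx d) (Idx d) K, (∀ x, M.mulVec x = N.mulVec x) → M = N :=
    fun M N h => Matrix.mulVec_injective (funext h)
  have hinv : ∀ a, P * ρ.1 a * P = ρ.1 a * P := by
    intro a
    refine hext _ _ fun x => ?_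
    rw [← Matrix.mulVec_mulVec, ← Matrix.mulVec_mulVec, ← Matrix.mulVec_mulVec]
    exact hUP _ (U.smul_mem a (hPU x))
  have hcomm : ∀ i, P * ρ.1 (e i) = ρ.1 (e i) * P := by
    intro i
    refine hext _ _ fun x => ?_
    rw [← Matrix.mulVec_mulVec, ← Matrix.mulVec_mulVec, ρ.2 i, diag_mulVec, diag_mulVec]
    refine ext_res fun j => ?_
    rw [hres]
    by_cases h : j = i
    · subst h
      rw [res_inc, res_inc, hres]
    · have h0 : ∀ y : Fin (d i) → K, res d j (inc d i y) = 0 := fun y => by
        funext s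
        exact inc_ne h y s
      rw [h0, h0, Matrix.mulVec_zero]
  -- the group elements
  have hgl : ∀ (t t' : K) (i : Fin n), t * t' = 1 →
      (1 + (t - 1) • π i) * (1 + (t' - 1) • π i) = 1 := by
    intro t t' i htt
    rw [add_mul, mul_add, mul_add, one_mul, mul_one, one_mul, smul_mul_smul_comm, hπ]
    have h1 : (t' - 1) • π i + ((t - 1) • π i + ((t - 1) * (t' - 1)) • π i) = 0 := by
      rw [← add_smul, ← add_smul]
      have : t' - 1 + (t - 1 + (t - 1) * (t' - 1)) = t * t' - 1 := by ring
      rw [this, htt, sub_self, zero_smul]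
    rw [add_assoc, h1, add_zero]
  let g : ∀ t : K, t ≠ 0 → ∀ i : Fin n, GL (Fin (d i)) K := fun t ht i =>
    ⟨1 + (t - 1) • π i, 1 + (t⁻¹ - 1) • π i, hgl t t⁻¹ i (mul_inv_cancel₀ ht),
      hgl t⁻¹ t i (inv_mul_cancel₀ ht)⟩
  have hblk : ∀ t : K, Matrix.blockDiagonal' (fun i => 1 + (t - 1) • π i) = 1 + (t - 1) • P := by
    intro t
    have h1 : (fun i => 1 + (t - 1) • π i) =
        (1 : ∀ i, Matrix (Fin (d i)) (Fin (d i)) K) + (t - 1) • π := rfl
    rw [h1, Matrix.blockDiagonal'_add, Matrix.blockDiagonal'_one, Matrix.blockDiagonal'_smul]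
  have hact : ∀ (t : K) (ht : t ≠ 0), act (g t ht) ρ = degen ρ P hP hinv hcomm t := by
    intro t ht
    apply Subtype.ext
    apply AlgHom.ext
    intro a
    show blk (g t ht) * ρ.1 a * blk (fun i => (g t ht i)⁻¹) =
      ρ.1 a + (t - 1) • (P * ρ.1 a - ρ.1 a * P)
    have h1 : blk (g t ht) = 1 + (t - 1) • P := hblk t
    have h2 : blk (g t ht) * ρ.1 a =
        (ρ.1 a + (t - 1) • (P * ρ.1 a - ρ.1 a * P)) * blk (g t ht) := by
      rw [h1, add_mul, one_mul, smul_mul_assoc, mul_add, mul_one, mul_smul_comm, add_mul,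
        smul_mul_assoc, sub_mul, hinv, mul_assoc, hP, sub_self, smul_zero, add_zero, smul_sub]
      abel
    rw [h2, mul_assoc, blk_mul_blk_inv, mul_one]
  have hdet : ∀ (t : K) (i : Fin n), Matrix.det (1 + (t - 1) • π i) = t ^ finrank K (VU ρ U i) := by
    intro t i
    show Matrix.det (1 + (t - 1) • (B i * B' i)) = _
    rw [← Matrix.smul_mul, Matrix.det_one_add_mul_comm, Matrix.mul_smul, hB1]
    have h1 : (1 : Matrix (Fin (finrank K (VU ρ U i))) (Fin (finrank K (VU ρ U i))) K) +
        (t - 1) • 1 = t • 1 := by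
      rw [sub_smul, one_smul]
      abel
    rw [h1, Matrix.det_smul, Matrix.det_one, mul_one, Fintype.card_fin]
  set w : ℤ := ∑ i, θ i * (finrank K (VU ρ U i) : ℤ) with hw
  have hchi : ∀ (t : K) (ht : t ≠ 0), chi θ (g t ht) = t ^ w := by
    intro t ht
    rw [chi, hw, ← prod_zpow_sum _ t ht]
    refine Finset.prod_congr rfl fun i _ => ?_
    have h1 : Matrix.det (g t ht i : Matrix (Fin (d i)) (Fin (d i)) K) =
        t ^ finrank K (VU ρ U i) := hdet t i
    rw [h1, ← zpow_natCast, ← zpow_mul, mul_comm]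
  have hF : ∀ F, SA θ F ρ → ∀ t : K, t ≠ 0 → F (degen ρ P hP hinv hcomm t) = t ^ w * F ρ := by
    intro F hF t ht
    rw [← hact t ht, hF, hchi t ht]
  refine ⟨?_, ?_, ?_⟩
  · intro F hreg hSA hne
    by_contra hlt
    push Not at hlt
    obtain ⟨p, hp⟩ := (degen_cv ρ P hP hinv hcomm).regular hreg
    obtain ⟨k, hk⟩ : ∃ k : ℕ, w = -((k + 1 : ℕ) : ℤ) := ⟨(-w).toNat - 1, by omega⟩
    have h1 : Polynomial.X ^ (k + 1) * p = Polynomial.C (F ρ) := by
      refine eval_zero_of_ne _ _ fun t ht => ?_
      rw [Polynomial.eval_mul, Polynomial.eval_pow, Polynomial.eval_X, Polynomial.eval_C, ← hp,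
        hF F hSA t ht, hk, zpow_neg, zpow_natCast, ← mul_assoc,
        mul_inv_cancel₀ (pow_ne_zero _ ht), one_mul]
    have h2 := congrArg (Polynomial.eval 0) h1
    rw [Polynomial.eval_mul, Polynomial.eval_pow, Polynomial.eval_X, Polynomial.eval_C,
      zero_pow (Nat.succ_ne_zero k), zero_mul] at h2
    exact hne h2.symm
  · intro hw0
    refine ⟨degen ρ P hP hinv hcomm 0, ?_, ?_⟩
    · have ha : ∀ (a : A) (x : Idx d → K),
          ((degen ρ P hP hinv hcomm 0).1 a).mulVec x =
            (ρ.1 a).mulVec x - P.mulVec ((ρ.1 a).mulVec x) + (ρ.1 a).mulVec (P.mulVec x) := by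
        intro a x
        rw [degen_apply, Matrix.mulVec_mulVec, Matrix.mulVec_mulVec, ← Matrix.sub_mulVec,
          ← Matrix.add_mulVec]
        congr 1
        rw [zero_sub, neg_smul, one_smul]
        abel
      have hPP : ∀ x : Idx d → K, P.mulVec (P.mulVec x) = P.mulVec x := fun x => by
        rw [Matrix.mulVec_mulVec, hP]
      have hPaP : ∀ (a : A) (x : Idx d → K),
          P.mulVec ((ρ.1 a).mulVec (P.mulVec x)) = (ρ.1 a).mulVec (P.mulVec x) := fun a x =>
        hUP _ (U.smul_mem a (hPU x))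
      have hl1 : ∀ (a : A) (x : Idx d → K),
          P.mulVec (((degen ρ P hP hinv hcomm 0).1 a).mulVec x) = (ρ.1 a).mulVec (P.mulVec x) :=
        fun a x => by
          rw [ha, Matrix.mulVec_add, Matrix.mulVec_sub, hPP, sub_self, zero_add, hPaP]
      have hl2 : ∀ (a : A) (x : Idx d → K),
          ((degen ρ P hP hinv hcomm 0).1 a).mulVec x - (ρ.1 a).mulVec x =
            (ρ.1 a).mulVec (P.mulVec x) - P.mulVec ((ρ.1 a).mulVec x) := fun a x => by
        rw [ha]
        abel
      have hl3 : ∀ (u y : Idx d → K), P.mulVec u = u → P.mulVec (u + (y - P.mulVec y)) = u :=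
        fun u y hu => by
          rw [Matrix.mulVec_add, Matrix.mulVec_sub, hPP, sub_self, add_zero, hu]
      let Pm : Pt ρ → Pt ρ := fun x => P.mulVec x
      have hPm : ∀ x, Pm x ∈ U := hPU
      let f : Pt (degen ρ P hP hinv hcomm 0) →ₗ[A] (U × (Pt ρ ⧸ U)) :=
        { toFun := fun x => (⟨(show Pt ρ from P.mulVec x), hPU x⟩, U.mkQ (show Pt ρ from x))
          map_add' := fun x y => by
            refine Prod.ext (Subtype.ext ?_) ?_
            · exact Matrix.mulVec_add P x y
            · exact map_add U.mkQ (show Pt ρ from x) (show Pt ρ from y)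
          map_smul' := fun a x => by
            refine Prod.ext (Subtype.ext ?_) ?_
            · exact hl1 a x
            · show U.mkQ (show Pt ρ from ((degen ρ P hP hinv hcomm 0).1 a).mulVec x) =
                a • U.mkQ (show Pt ρ from x)
              rw [← map_smul, ← sub_eq_zero, ← map_sub, Submodule.mkQ_apply,
                Submodule.Quotient.mk_eq_zero]
              have h1 : (show Pt ρ from ((degen ρ P hP hinv hcomm 0).1 a).mulVec x) -
                  a • (show Pt ρ from x) = a • Pm x - Pm (a • (show Pt ρ from x)) := hl2 a x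
              rw [h1]
              exact U.sub_mem (U.smul_mem a (hPm _)) (hPm _) }
      have hfi : Function.Injective f := by
        rw [← LinearMap.ker_eq_bot, LinearMap.ker_eq_bot']
        intro x hx
        have h1 : (show Pt ρ from P.mulVec x) = 0 := congrArg Subtype.val (congrArg Prod.fst hx)
        have h2 : U.mkQ (show Pt ρ from x) = 0 := congrArg Prod.snd hx
        rw [Submodule.mkQ_apply, Submodule.Quotient.mk_eq_zero] at h2
        have h3 := hUP _ h2
        exact h3.symm.trans h1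
      have hfs : Function.Surjective f := by
        rintro ⟨u, y⟩
        obtain ⟨y, rfl⟩ := Submodule.mkQ_surjective U y
        refine ⟨(u.1 + (y - Pm y) : Pt ρ), ?_⟩
        refine Prod.ext (Subtype.ext ?_) ?_
        · exact hl3 u.1 y (hUP _ u.2)
        · show U.mkQ (u.1 + (y - Pm y) : Pt ρ) = U.mkQ y
          rw [← sub_eq_zero, ← map_sub, Submodule.mkQ_apply, Submodule.Quotient.mk_eq_zero]
          have h1 : (u.1 + (y - Pm y) : Pt ρ) - y = u.1 - Pm y := by abel
          rw [h1]
          exact U.sub_mem u.2 (hPm y)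
      exact ⟨(LinearEquiv.ofBijective f ⟨hfi, hfs⟩).symm⟩
    · intro F hreg hSA
      obtain ⟨p, hp⟩ := (degen_cv ρ P hP hinv hcomm).regular hreg
      have h1 : p = Polynomial.C (F ρ) := by
        refine eval_zero_of_ne _ _ fun t ht => ?_
        rw [← hp, hF F hSA t ht, hw0, zpow_zero, one_mul, Polynomial.eval_C]
      refine ⟨by rw [hp, h1, Polynomial.eval_C], fun h => ?_⟩
      obtain ⟨q, hq⟩ := ((degen_cv ρ P hP hinv hcomm).act h).regular hreg
      have h2 : q = Polynomial.C (chi θ h) * p := by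
        refine eval_zero_of_ne _ _ fun t ht => ?_
        rw [← hq, Polynomial.eval_mul, Polynomial.eval_C, ← hp, ← hact t ht]
        exact hSA.act (g t ht) h
      have h3 := hq 0
      rw [h2, Polynomial.eval_mul, Polynomial.eval_C, ← hp] at h3
      exact h3
  · intro hU F hSA hne
    have hP1 : P = 1 := hext _ _ fun x => by
      rw [Matrix.one_mulVec]
      exact hUP x (by rw [hU]; trivial)
    have h1 : ∀ t : K, degen ρ P hP hinv hcomm t = ρ := by
      intro t
      apply Subtype.ext
      apply AlgHom.ext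
      intro a
      rw [degen_apply, hP1, one_mul, mul_one, sub_self, smul_zero, add_zero]
    have h2 : ∀ t : K, t ≠ 0 → t ^ w = 1 := by
      intro t ht
      have h3 := hF F hSA t ht
      rw [h1] at h3
      exact mul_right_cancel₀ hne (by rw [one_mul]; exact h3.symm)
    have h4 : ∀ k : ℕ, (∀ t : K, t ≠ 0 → t ^ k = 1) → k = 0 := by
      intro k hk
      by_contra hk0
      have h5 : (Polynomial.X : Polynomial K) ^ k = Polynomial.C 1 := by
        refine eval_zero_of_ne _ _ fun t ht => ?_
        rw [Polynomial.eval_pow, Polynomial.eval_X, Polynomial.eval_C, hk t ht]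
      have h6 := congrArg (Polynomial.eval 0) h5
      rw [Polynomial.eval_pow, Polynomial.eval_X, Polynomial.eval_C, zero_pow hk0] at h6
      exact zero_ne_one h6
    obtain ⟨k, hk | hk⟩ := Int.eq_nat_or_neg w
    · have h7 := h4 k fun t ht => by
        have := h2 t ht
        rwa [hk, zpow_natCast] at this
      rw [hk, h7]
      rfl
    · have h7 := h4 k fun t ht => by
        have := h2 t ht
        rwa [hk, zpow_neg, zpow_natCast, inv_eq_one] at this
      rw [hk, h7]
      rfl

end step

end Pool.Agent.H13.MF
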