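import Pool.Agent.H13.MF.Idem

/-! Modules and representations on `Fin D → K`; infinite families of stable representations. -/

set_option linter.unusedSectionVars false
set_option linter.style.haveILetI false

universe u v w

namespace Pool.Agent.H13.MF

open Module Pool.Agent.H51.T2

section rep

variable {K : Type v} [Field K] {A : Type u} [Ring A] [Algebra K A] {D : ℕ}

/-- The module of a representation. -/
def RepMod (_φ : A →ₐ[K] Module.End K (Fin D → K)) : Type v := Fin D → K

variable (φ : A →ₐ[K] Module.End K (Fin D → K))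

instance : AddCommGroup (RepMod φ) := inferInstanceAs (AddCommGroup (Fin D → K))
instance : Module K (RepMod φ) := inferInstanceAs (Module K (Fin D → K))
instance : FiniteDimensional K (RepMod φ) := inferInstanceAs (FiniteDimensional K (Fin D → K))
instance : Module A (RepMod φ) := Module.compHom (Fin D → K) (φ : A →+* Module.End K (Fin D → K))

theorem repMod_smul (a : A) (v : RepMod φ) : a • v = φ a v := rfl

instance : IsScalarTower K A (RepMod φ) := ⟨fun c a v => by
  rw [repMod_smul, repMod_smul, map_smul]
  rfl⟩

instance : Module.Finite A (RepMod φ) := Module.Finite.of_restrictScalars_finite K A (RepMod φ)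

theorem finrank_repMod : finrank K (RepMod φ) = D := by
  show finrank K (Fin D → K) = D
  simp

/-- Every module of dimension `D` comes from a representation. -/
theorem exists_rep (N : Type w) [AddCommGroup N] [Module K N] [Module A N] [IsScalarTower K A N]
    [FiniteDimensional K N] (hN : finrank K N = D) :
    ∃ φ : A →ₐ[K] Module.End K (Fin D → K), Nonempty (N ≃ₗ[A] RepMod φ) := by
  let ε : N ≃ₗ[K] (Fin D → K) := (Module.finBasisOfFinrankEq K N hN).equivFun
  let φ : A →ₐ[K] Module.End K (Fin D → K) :=
    (ε.conjAlgEquiv K).toAlgHom.comp (Algebra.lsmul K K N)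
  have hφ : ∀ a v, φ a v = ε (a • ε.symm v) := fun a v => rfl
  refine ⟨φ, ⟨{ toFun := fun n => ε n
                invFun := fun v => ε.symm v
                map_add' := fun x y => map_add ε x y
                map_smul' := fun a x => ?_
                left_inv := fun x => ε.symm_apply_apply x
                right_inv := fun x => ε.apply_symm_apply x }⟩⟩
  show ε (a • x) = φ a (ε x)
  rw [hφ, LinearEquiv.symm_apply_apply]

theorem repIso_iff (ψ : A →ₐ[K] Module.End K (Fin D → K)) :
    Nonempty (RepMod φ ≃ₗ[A] RepMod ψ) ↔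
      ∃ g : (Fin D → K) ≃ₗ[K] (Fin D → K), ∀ (a : A) (v : Fin D → K), g (φ a v) = ψ a (g v) := by
  constructor
  · rintro ⟨g⟩
    exact ⟨g.restrictScalars K, fun a v => g.map_smul a v⟩
  · rintro ⟨g, hg⟩
    exact ⟨{ toFun := fun n => g n
             invFun := fun v => g.symm v
             map_add' := fun x y => map_add g x y
             map_smul' := fun a x => hg a x
             left_inv := fun x => g.symm_apply_apply x
             right_inv := fun x => g.apply_symm_apply x }⟩

/-- The subspaces `e U` of a submodule. -/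
theorem finrank_map_rep (U : Submodule A (RepMod φ)) (a : A) :
    finrank K (Submodule.map (φ a) (U.restrictScalars K : Submodule K (Fin D → K))) =
      finrank K (LinearMap.range (actK K a U)) := by
  have h : Submodule.map (φ a) (U.restrictScalars K : Submodule K (Fin D → K)) =
      Submodule.map (U.subtype.restrictScalars K) (LinearMap.range (actK K a U)) := by
    ext x
    constructor
    · rintro ⟨y, hy, rfl⟩
      exact ⟨a • (⟨y, hy⟩ : U), ⟨⟨y, hy⟩, rfl⟩, rfl⟩
    · rintro ⟨_, ⟨y, rfl⟩, rfl⟩
      exact ⟨y.1, y.2, rfl⟩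
  rw [h]
  exact (LinearEquiv.finrank_eq (Submodule.equivMapOfInjective (U.subtype.restrictScalars K)
    (Subtype.val_injective) (LinearMap.range (actK K a U)))).symm

end rep

section stableQ

variable (K : Type*) [Field K] (A : Type*) [Ring A] [Algebra K A]
variable (P Q N : Type*)
variable [AddCommGroup P] [Module K P] [Module A P] [IsScalarTower K A P]
variable [AddCommGroup Q] [Module K Q] [Module A Q] [IsScalarTower K A Q]
variable [AddCommGroup N] [Module K N] [Module A N] [IsScalarTower K A N]

/-- Stability for the weight `dim N · θ - θ(N) · dim`, where `θ = [Q] - [P]`. -/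
def StableQ : Prop := ∀ U : Submodule A N, U ≠ ⊥ → U ≠ ⊤ →
  (finrank K N : ℤ) * wtQ K A P Q U - wtQ K A P Q N * finrank K U < 0

variable {K A P Q N}
variable {N' : Type*} [AddCommGroup N'] [Module K N'] [Module A N'] [IsScalarTower K A N']

theorem finrank_hom_congr (e : N ≃ₗ[A] N') :
    finrank K (P →ₗ[A] N) = finrank K (P →ₗ[A] N') := by
  refine LinearEquiv.finrank_eq
    { toFun := fun k => e.toLinearMap ∘ₗ k
      invFun := fun k => e.symm.toLinearMap ∘ₗ k
      map_add' := fun k k' => by ext x; simp
      map_smul' := fun c k => by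
        ext x
        exact LinearMap.map_smul_of_tower e.toLinearMap c (k x)
      left_inv := fun k => by ext x; simp
      right_inv := fun k => by ext x; simp }

theorem wtQ_congr (e : N ≃ₗ[A] N') : wtQ K A P Q N = wtQ K A P Q N' := by
  simp only [wtQ, finrank_hom_congr (K := K) (P := P) e, finrank_hom_congr (K := K) (P := Q) e]

theorem StableQ.congr (e : N ≃ₗ[A] N') (h : StableQ K A P Q N) : StableQ K A P Q N' := by
  intro U h0 h1
  let U' : Submodule A N := U.comap e.toLinearMap
  have e' : U' ≃ₗ[A] U := LinearEquiv.ofSubmodule' e U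
  have h2 : U' ≠ ⊥ := by
    intro h3
    apply h0
    rw [eq_bot_iff]
    intro x hx
    have : e.symm x ∈ U' := by
      show e (e.symm x) ∈ U
      simpa using hx
    rw [h3, Submodule.mem_bot] at this
    rw [Submodule.mem_bot]
    simpa using this
  have h3 : U' ≠ ⊤ := by
    intro h3
    apply h1
    rw [eq_top_iff]
    intro x _
    have : e.symm x ∈ U' := by rw [h3]; trivial
    have h4 : e (e.symm x) ∈ U := this
    simpa using h4
  have h4 := h U' h2 h3
  rw [wtQ_congr (K := K) (P := P) (Q := Q) e', wtQ_congr (K := K) (P := P) (Q := Q) e,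
    LinearEquiv.finrank_eq (e.restrictScalars K), LinearEquiv.finrank_eq (e'.restrictScalars K)]
    at h4
  exact h4

end stableQ

/-- If there is no rigid map between two finitely generated projective modules, there is an
infinite family of stable representations. -/
theorem exists_stable_reps {K : Type} [Field K] [Infinite K] {A : Type} [Ring A] [Algebra K A]
    [FiniteDimensional K A] (P Q : Type) [AddCommGroup P] [Module A P] [AddCommGroup Q]
    [Module A Q] [Module.Finite A P] [Module.Finite A Q] [Module.Projective A P]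
    [Module.Projective A Q] (hno : ∀ f : P →ₗ[A] Q, ¬ Rigid f) :
    ∃ (m : ℕ) (e : Fin m → A) (c : Fin m → ℤ), (∀ j, IsIdempotentElem (e j)) ∧
        ∃ d : ℕ, ∃ f : ℕ → (A →ₐ[K] Module.End K (Fin d → K)),
          (∀ i j : ℕ, i ≠ j →
            ¬ ∃ g : (Fin d → K) ≃ₗ[K] (Fin d → K), ∀ (a : A) (v : Fin d → K),
              g (f i a v) = f j a (g v)) ∧
          ∀ i : ℕ,
            (∑ j : Fin m, c j *
              ((Module.finrank K ((⊤ : Submodule K (Fin d → K)).map (f i (e j))) : ℕ) : ℤ)) = 0 ∧
            ∀ W : Submodule K (Fin d → K), (∀ (a : A), ∀ v ∈ W, f i a v ∈ W) →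
              W ≠ ⊥ → W ≠ ⊤ →
              (∑ j : Fin m, c j *
                ((Module.finrank K (W.map (f i (e j))) : ℕ) : ℤ)) < 0 := by
  classical
  letI : Module K P := Module.compHom P (algebraMap K A)
  haveI := tower_compHom (A := A) K P
  letI : Module K Q := Module.compHom Q (algebraMap K A)
  haveI := tower_compHom (A := A) K Q
  haveI : FiniteDimensional K P := Module.Finite.trans A P
  haveI : FiniteDimensional K Q := Module.Finite.trans A Q
  obtain ⟨mP, eP, heP, hP⟩ := exists_idems.{0, 0, 0} (A := A) K _ P (Nat.lt_succ_self _)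
  obtain ⟨mQ, eQ, heQ, hQ⟩ := exists_idems.{0, 0, 0} (A := A) K _ Q (Nat.lt_succ_self _)
  obtain ⟨D, t, hfam⟩ := exists_family (K := K) (A := A) hno
  let e : Fin (mQ + mP + 1) → A := Fin.append (Fin.append eQ eP) (fun _ : Fin 1 => (1 : A))
  let c : Fin (mQ + mP + 1) → ℤ :=
    Fin.append (Fin.append (fun _ => (D : ℤ)) (fun _ => -(D : ℤ))) (fun _ : Fin 1 => -t)
  have hQR : ∀ R : Submodule A Q, FiniteDimensional K (Q ⧸ R) := fun R =>
    Module.Finite.of_surjective (R.mkQ.restrictScalars K) (Submodule.mkQ_surjective R)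
  -- the weight in terms of idempotents
  have hsum : ∀ (φ : A →ₐ[K] Module.End K (Fin D → K)) (U : Submodule A (RepMod φ)),
      (∑ j, c j * ((finrank K (Submodule.map (φ (e j))
        (U.restrictScalars K : Submodule K (Fin D → K))) : ℕ) : ℤ)) =
        (D : ℤ) * wtQ K A P Q U - t * finrank K U := by
    intro φ U
    haveI : FiniteDimensional K U := inferInstanceAs (FiniteDimensional K (U.restrictScalars K))
    have h1 : finrank K (LinearMap.range (actK K (1 : A) U)) = finrank K U := by
      have : LinearMap.range (actK K (1 : A) U) = ⊤ := by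
        rw [LinearMap.range_eq_top]
        intro x
        exact ⟨x, by simp⟩
      rw [this, finrank_top]
    have h2 := hP U
    have h3 := hQ U
    let w : A → ℤ := fun a => ((finrank K (LinearMap.range (actK K a U)) : ℕ) : ℤ)
    have hw : (∑ j, c j * ((finrank K (Submodule.map (φ (e j))
        (U.restrictScalars K : Submodule K (Fin D → K))) : ℕ) : ℤ)) = ∑ j, c j * w (e j) :=
      Finset.sum_congr rfl fun j _ => by rw [finrank_map_rep]
    have h1' : w 1 = finrank K U := by simp only [w, h1]
    have h2' : ((finrank K (P →ₗ[A] U) : ℕ) : ℤ) = ∑ j, w (eP j) := by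
      rw [h2, Nat.cast_sum]
    have h3' : ((finrank K (Q →ₗ[A] U) : ℕ) : ℤ) = ∑ j, w (eQ j) := by
      rw [h3, Nat.cast_sum]
    rw [hw, Fin.sum_univ_add, Fin.sum_univ_add, wtQ, h2', h3', ← h1']
    simp only [e, c, Fin.append_left, Fin.append_right, Finset.univ_unique, Fin.default_eq_zero,
      Fin.isValue, Finset.sum_singleton]
    rw [← Finset.mul_sum, ← Finset.mul_sum]
    ring
  -- the predicate of stability
  let Pr : (A →ₐ[K] Module.End K (Fin D → K)) → Prop := fun φ =>
    ∃ (R : Submodule A Q), Nonempty ((Q ⧸ R) ≃ₗ[A] RepMod φ) ∧ StableQ K A P Q (Q ⧸ R) ∧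
      wtQ K A P Q (Q ⧸ R) = t
  have hnext : ∀ s : Finset (A →ₐ[K] Module.End K (Fin D → K)), (∀ x ∈ s, Pr x) →
      ∃ y, Pr y ∧ ∀ x ∈ s, ¬ Nonempty (RepMod x ≃ₗ[A] RepMod y) := by
    intro s hs
    have hch : ∀ x : A →ₐ[K] Module.End K (Fin D → K), ∃ R : Submodule A Q, x ∈ s →
        Nonempty ((Q ⧸ R) ≃ₗ[A] RepMod x) := by
      intro x
      by_cases hx : x ∈ s
      · obtain ⟨R, h, -⟩ := hs x hx
        exact ⟨R, fun _ => h⟩
      · exact ⟨⊥, fun h => absurd h hx⟩
    choose r hr using hch
    obtain ⟨f, R, hR, hD, ht, hR'⟩ := hfam (r '' (s : Set _)) (s.finite_toSet.image r)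
    haveI := hQR R
    obtain ⟨y, ⟨ey⟩⟩ := exists_rep (A := A) (Q ⧸ R) hD
    refine ⟨y, ⟨R, ⟨ey⟩, ?_, ht⟩, ?_⟩
    · intro U h0 h1
      exact hR.stable U h0 h1
    · rintro x hx ⟨exy⟩
      obtain ⟨ex⟩ := hr x hx
      exact hR' (r x) ⟨x, hx, rfl⟩ ⟨ey ≪≫ₗ exy.symm ≪≫ₗ ex.symm⟩
  obtain ⟨F, hF1, hF2⟩ := exists_seq_of_forall_finset_exists Pr _ hnext
  refine ⟨mQ + mP + 1, e, c, ?_, D, F, ?_, ?_⟩
  · intro j
    refine Fin.addCases (fun j => ?_) (fun j => ?_) j
    · refine Fin.addCases (fun j => ?_) (fun j => ?_) j
      · simp only [e, Fin.append_left]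
        exact heQ j
      · simp only [e, Fin.append_left, Fin.append_right]
        exact heP j
    · simp only [e, Fin.append_right]
      exact mul_one 1
  · intro i j hij
    rw [← repIso_iff]
    rcases lt_or_gt_of_ne hij with h | h
    · exact hF2 i j h
    · rintro ⟨g⟩
      exact hF2 j i h ⟨g.symm⟩
  · intro i
    obtain ⟨R, ⟨eR⟩, hst, ht⟩ := hF1 i
    have hst' : StableQ K A P Q (RepMod (F i)) := hst.congr eR
    have ht' : wtQ K A P Q (RepMod (F i)) = t := by
      rw [← wtQ_congr (K := K) (P := P) (Q := Q) eR]; exact ht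
    constructor
    · have h1 := hsum (F i) ⊤
      have h2 : wtQ K A P Q (⊤ : Submodule A (RepMod (F i))) = t := by
        rw [wtQ_congr (K := K) (P := P) (Q := Q) (Submodule.topEquiv (R := A)
          (M := RepMod (F i)))]
        exact ht'
      have h3 : finrank K (⊤ : Submodule A (RepMod (F i))) = D := by
        rw [LinearEquiv.finrank_eq ((Submodule.topEquiv (R := A)
          (M := RepMod (F i))).restrictScalars K)]
        exact finrank_repMod (F i)
      rw [h2, h3] at h1
      rw [show (D : ℤ) * t - t * (D : ℤ) = 0 by ring] at h1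
      exact h1
    · intro W hW h0 h1
      let U : Submodule A (RepMod (F i)) :=
        { carrier := (W : Set (Fin D → K))
          add_mem' := fun {a b} ha hb => W.add_mem ha hb
          zero_mem' := W.zero_mem
          smul_mem' := fun a v hv => hW a v hv }
      have hU0 : U ≠ ⊥ := by
        intro h
        apply h0
        rw [eq_bot_iff]
        intro x hx
        have : (x : RepMod (F i)) ∈ U := hx
        rw [h] at this
        exact this
      have hU1 : U ≠ ⊤ := by
        intro h
        apply h1
        rw [eq_top_iff]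
        intro x _
        have : (x : RepMod (F i)) ∈ U := by rw [h]; trivial
        exact this
      have h2 := hsum (F i) U
      have h3 := hst' U hU0 hU1
      rw [finrank_repMod, ht'] at h3
      rw [← h2] at h3
      exact h3

end Pool.Agent.H13.MF
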