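import Pool.Agent.H13.MF.Rep
import Pool.Agent.H13.MF.Fin

/-! The stable brick conjecture. -/

set_option linter.unusedSectionVars false
set_option linter.style.haveILetI false

universe u v

namespace Pool.Agent.H13.MF

open Module Pool.Agent.H51.T2 Pool.Agent.H51.MF

/-- The stable brick conjecture (from the finiteness of bricks for algebras all of whose lattice
points are rigid). -/
theorem stable_brick (K : Type) [Field K] [IsAlgClosed K] (A : Type) [Ring A] [Algebra K A]
    [FiniteDimensional K A] (hCOORD : S_COORD K A) (hBRK : S_BRK K A)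
    (hbricks : ∃ d : ℕ, ∃ f : ℕ → (A →ₐ[K] Module.End K (Fin d → K)),
        (∀ i j : ℕ, i ≠ j →
          ¬ ∃ g : (Fin d → K) ≃ₗ[K] (Fin d → K), ∀ (a : A) (v : Fin d → K),
            g (f i a v) = f j a (g v)) ∧
        ∀ i : ℕ, ∀ φ : Module.End K (Fin d → K), (∀ a : A, φ * f i a = f i a * φ) →
          ∃ c : K, φ = algebraMap K (Module.End K (Fin d → K)) c) :
      ∃ (m : ℕ) (e : Fin m → A) (c : Fin m → ℤ), (∀ j, IsIdempotentElem (e j)) ∧
        ∃ d : ℕ, ∃ f : ℕ → (A →ₐ[K] Module.End K (Fin d → K)),
          (∀ i j : ℕ, i ≠ j →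
            ¬ ∃ g : (Fin d → K) ≃ₗ[K] (Fin d → K), ∀ (a : A) (v : Fin d → K),
              g (f i a v) = f j a (g v)) ∧
          ∀ i : ℕ,
            (∑ j : Fin m, c j *
              ((Module.finrank K ((⊤ : Submodule K (Fin d → K)).map (f i (e j))) : ℕ) : ℤ)) = 0 ∧
            ∀ W : Submodule K (Fin d → K), (∀ (a : A), ∀ v ∈ W, f i a v ∈ W) →
              W ≠ ⊥ → W ≠ ⊤ →
              (∑ j : Fin m, c j *
                ((Module.finrank K (W.map (f i (e j))) : ℕ) : ℤ)) < 0 := by
  classical
  haveI : Infinite K := IsAlgClosed.instInfinite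
  by_cases h : HR K A
  · exfalso
    obtain ⟨d, f, hne, hbr⟩ := hbricks
    obtain ⟨L, hL⟩ := bricks_of_brk hCOORD hBRK h d
    let M : ℕ → FM K A := fun i => { C := RepMod (f i) }
    have hd : 0 < d := by
      rcases Nat.eq_zero_or_pos d with rfl | hd
      · exact absurd ⟨LinearEquiv.refl K _, fun a v => Subsingleton.elim _ _⟩
          (hne 0 1 Nat.zero_ne_one)
      · exact hd
    have hM : ∀ i, Brick A (M i) := by
      intro i
      constructor
      · show Nontrivial (Fin d → K)
        haveI : Nonempty (Fin d) := ⟨⟨0, hd⟩⟩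
        infer_instance
      · intro φ hφ
        let ψ : Module.End K (Fin d → K) := (φ : RepMod (f i) →ₗ[A] RepMod (f i)).restrictScalars K
        obtain ⟨c, hc⟩ := hbr i ψ (fun a => by
          refine LinearMap.ext fun v => ?_
          exact φ.map_smul a v)
        have hφc : ∀ v : RepMod (f i), φ v = c • v := fun v => by
          have h0 : ∀ w : Fin d → K, ψ w = c • w := fun w => by
            rw [hc, Module.algebraMap_end_apply]
          exact h0 v
        have hc0 : c ≠ 0 := by
          rintro rfl
          apply hφ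
          ext v
          rw [hφc, zero_smul]
          rfl
        constructor
        · intro v w hvw
          rw [hφc, hφc] at hvw
          exact smul_right_injective _ hc0 hvw
        · intro v
          exact ⟨(c⁻¹ • (show RepMod (f i) from v) : RepMod (f i)), by
            rw [hφc, smul_smul, mul_inv_cancel₀ hc0, one_smul]⟩
    have hex : ∀ i, ∃ X : {X // X ∈ L}, Nonempty (M i ≃ₗ[A] X.1) := by
      intro i
      obtain ⟨X, hX, e⟩ := hL (M i) (hM i) (finrank_repMod (f i))
      exact ⟨⟨X, hX⟩, e⟩
    choose F hF using hex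
    haveI : Finite {X // X ∈ L} := (List.finite_toSet L).to_subtype
    obtain ⟨i, j, hij, hFij⟩ := Finite.exists_ne_map_eq_of_infinite F
    apply hne i j hij
    rw [← repIso_iff]
    obtain ⟨e1⟩ := hF i
    obtain ⟨e2⟩ := hF j
    rw [hFij] at e1
    exact ⟨e1 ≪≫ₗ e2.symm⟩
  · rw [HR] at h
    push Not at h
    obtain ⟨P, Q, hP, hQ, hno⟩ := h
    haveI : Module.Finite A P := Module.Finite.of_restrictScalars_finite K A P
    haveI : Module.Finite A Q := Module.Finite.of_restrictScalars_finite K A Q
    exact exists_stable_reps (K := K) (A := A) P Q hno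

end Pool.Agent.H13.MF
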