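import Pool.Agent.H3.MFS.Conv
import Pool.Agent.H13.MF.Abstract
import Pool.Agent.H13.MF.CLA
import Pool.Agent.H51.T2.Bricks

/-! Short forms of LatticePointsRigid and TwoSimples (MP_5504b7_al). -/

set_option autoImplicit false

universe u v

namespace Pool.Agent.H13.MFS

open Pool.Agent.H3.MFS

theorem rigid (K : Type v) [Field K] [Infinite K] (A : Type u) [Ring A] [Algebra K A]
    [FiniteDimensional K A] (n : ℕ) (e : Fin n → A) (he : CompleteOrthogonalIdempotents e)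
    (hloc : ∀ i, IsLocalRing (he.idem i).Corner) (hMF : IsMF K e)
    (P Q : Type u) [AddCommGroup P] [Module A P] [AddCommGroup Q] [Module A Q]
    [Module.Finite A P] [Module.Finite A Q] [Module.Projective A P] [Module.Projective A Q] :
    ∃ f : P →ₗ[A] Q, ∀ h : P →ₗ[A] Q, ∃ (s : P →ₗ[A] P) (t : Q →ₗ[A] Q),
      ∀ x, h x = f (s x) + t (f x) := by
  obtain ⟨f, hf⟩ := Pool.Agent.H13.MF.rigid_of_classes K he
    (Pool.Agent.H13.MF.hasClasses_of_isMF K he (isMF_iff.1 hMF)) P Q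
    (Pool.Agent.H13.MF.isStd_of_projective K he hloc P)
    (Pool.Agent.H13.MF.isStd_of_projective K he hloc Q)
  refine ⟨f, fun h => ?_⟩
  obtain ⟨s, t, hst⟩ := hf h
  exact ⟨s, -t, fun x => by rw [hst]; simp [sub_eq_add_neg]⟩

theorem two (K : Type v) [Field K] [Infinite K] (A : Type u) [Ring A] [Algebra K A]
    [FiniteDimensional K A] (n : ℕ) (e : Fin n → A) (he : CompleteOrthogonalIdempotents e)
    (hloc : ∀ i, IsLocalRing (he.idem i).Corner) (hMF : IsMF K e)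
    (S₁ S₂ : Type u) [AddCommGroup S₁] [Module A S₁] [AddCommGroup S₂] [Module A S₂]
    [IsSimpleModule A S₁] [IsSimpleModule A S₂]
    (hS : ∀ (S : Type u) [AddCommGroup S] [Module A S] [IsSimpleModule A S],
      Nonempty (S ≃ₗ[A] S₁) ∨ Nonempty (S ≃ₗ[A] S₂)) :
    ∃ N : ℕ, ∀ (M : Fin (N + 1) → Type u) [∀ i, AddCommGroup (M i)] [∀ i, Module A (M i)]
      [∀ i, Module.Finite A (M i)],
      (∀ i, Nontrivial (M i) ∧ ∀ φ : M i →ₗ[A] M i, φ ≠ 0 → Function.Bijective φ) →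
      ∃ i j, i ≠ j ∧ Nonempty (M i ≃ₗ[A] M j) := by
  obtain ⟨L, hL⟩ := Pool.Agent.H51.T2.main_bricks K A S₁ S₂ hS (fun P Q _ _ _ _ _ _ _ _ =>
    Pool.Agent.H13.MF.rigid_of_classes K he
      (Pool.Agent.H13.MF.hasClasses_of_isMF K he (isMF_iff.1 hMF)) P Q
      (Pool.Agent.H13.MF.isStd_of_projective K he hloc P)
      (Pool.Agent.H13.MF.isStd_of_projective K he hloc Q))
  refine ⟨L.length, ?_⟩
  intro M _ _ _ hM
  have h1 : ∀ i, ∃ k : Fin L.length, Nonempty (M i ≃ₗ[A] L.get k) := by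
    intro i
    obtain ⟨X, hX, hi⟩ := hL (M i) ⟨(hM i).1, (hM i).2⟩
    obtain ⟨k, hk⟩ := List.mem_iff_get.1 hX
    exact ⟨k, by rw [hk]; exact hi⟩
  choose k hk using h1
  obtain ⟨i, j, hij, hkij⟩ := Fintype.exists_ne_map_eq_of_card_lt k (by simp)
  refine ⟨i, j, hij, ?_⟩
  obtain ⟨a⟩ := hk i
  obtain ⟨b⟩ := hk j
  rw [hkij] at a
  exact ⟨a.trans b.symm⟩

end Pool.Agent.H13.MFS
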