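import Pool.Agent.H13.MF.Core

/-! The quotients attached to non-rigid maps are stable, and there are infinitely many of them in
one dimension. -/

set_option linter.unusedSectionVars false
set_option linter.style.haveILetI false

namespace Pool.Agent.H13.MF

open Module Pool.Agent.H51.T2

section wt

variable (K : Type*) [Field K] {A : Type*} [Ring A] [Algebra K A]
variable (P Q N : Type*)
variable [AddCommGroup P] [Module K P] [Module A P] [IsScalarTower K A P]
variable [AddCommGroup Q] [Module K Q] [Module A Q] [IsScalarTower K A Q]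
variable [AddCommGroup N] [Module K N] [Module A N] [IsScalarTower K A N]

/-- The weight `[Q] - [P]` evaluated at `N`. -/
noncomputable def wtQ (A : Type*) [Ring A] [Algebra K A] (P Q N : Type*)
    [AddCommGroup P] [Module K P] [Module A P] [IsScalarTower K A P]
    [AddCommGroup Q] [Module K Q] [Module A Q] [IsScalarTower K A Q]
    [AddCommGroup N] [Module K N] [Module A N] [IsScalarTower K A N] : ℤ :=
  (finrank K (Q →ₗ[A] N) : ℤ) - finrank K (P →ₗ[A] N)

variable {P Q N}

theorem finrank_hom_add [FiniteDimensional K P] [FiniteDimensional K N] [Module.Projective A P]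
    (U : Submodule A N) :
    finrank K (P →ₗ[A] U) + finrank K (P →ₗ[A] (N ⧸ U)) = finrank K (P →ₗ[A] N) := by
  haveI : FiniteDimensional K (P →ₗ[A] N) := finite_hom
  let g : (P →ₗ[A] N) →ₗ[K] (P →ₗ[A] (N ⧸ U)) := compB K P N (N ⧸ U) U.mkQ
  let i : (P →ₗ[A] U) →ₗ[K] (P →ₗ[A] N) := compB K P U N U.subtype
  have hg : Function.Surjective g := fun k =>
    Module.projective_lifting_property U.mkQ k (Submodule.mkQ_surjective U)
  have hi : Function.Injective i := by
    intro k k' h
    ext x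
    exact LinearMap.congr_fun h x
  have hr : LinearMap.range i = LinearMap.ker g := by
    ext k
    rw [LinearMap.mem_range, LinearMap.mem_ker]
    constructor
    · rintro ⟨k, rfl⟩
      ext x
      simp [g, i]
    · intro h
      have h1 : ∀ x, k x ∈ U := by
        intro x
        have := LinearMap.congr_fun h x
        simpa [g] using this
      exact ⟨LinearMap.codRestrict U k h1, by ext x; simp [i]⟩
  have h1 := LinearMap.finrank_range_add_finrank_ker g
  rw [LinearMap.range_eq_top.2 hg, finrank_top, ← hr, LinearMap.finrank_range_of_inj hi] at h1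
  omega

theorem finrank_quot_add [FiniteDimensional K N] (U : Submodule A N) :
    finrank K U + finrank K (N ⧸ U) = finrank K N := by
  have h := Submodule.finrank_quotient_add_finrank (U.restrictScalars K)
  have h9 : finrank K (N ⧸ U) = finrank K (N ⧸ (U.restrictScalars K)) := rfl
  have h10 : finrank K U = finrank K (U.restrictScalars K) := rfl
  omega

end wt

section stable

variable {K : Type*} [Field K] {A : Type*} [Ring A] [Algebra K A]
variable {P Q : Type*}
variable [AddCommGroup P] [Module K P] [Module A P] [IsScalarTower K A P]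
variable [AddCommGroup Q] [Module K Q] [Module A Q] [IsScalarTower K A Q]

theorem sm_codRestrict {N : Type*} [AddCommGroup N] [Module A N] (U : Submodule A N) (n : U)
    (u : P →ₗ[A] A) : U.subtype ∘ₗ sm u n = sm u (n : N) := by
  ext x
  simp

/-- Proper nonzero submodules have negative weight. -/
theorem MinQuot.neg [FiniteDimensional K P] [FiniteDimensional K Q] {f : P →ₗ[A] Q}
    {R : Submodule A Q} (h : MinQuot K f R) (U : Submodule A (Q ⧸ R)) (h0 : U ≠ ⊥)
    (h1 : U ≠ ⊤) : finrank K (Q →ₗ[A] U) < finrank K (P →ₗ[A] U) := by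
  haveI : FiniteDimensional K (Q ⧸ R) :=
    Module.Finite.of_surjective (R.mkQ.restrictScalars K) (Submodule.mkQ_surjective R)
  haveI : FiniteDimensional K U :=
    inferInstanceAs (FiniteDimensional K (U.restrictScalars K))
  haveI : FiniteDimensional K (Q →ₗ[A] U) := finite_hom
  haveI : FiniteDimensional K (P →ₗ[A] U) := finite_hom
  let F : (Q →ₗ[A] U) →ₗ[K] (P →ₗ[A] U) := homF K P Q U f
  have hF : ∀ φ, F φ = φ ∘ₗ f := fun φ => rfl
  have hinj : Function.Injective F := by
    rw [injective_iff_map_eq_zero]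
    intro φ hφ
    by_contra hne
    have h2 : (U.subtype ∘ₗ φ) ∘ₗ f = 0 := by
      rw [LinearMap.comp_assoc, ← hF, hφ, LinearMap.comp_zero]
    have h3 : U.subtype ∘ₗ φ ≠ 0 := by
      intro h4
      apply hne
      ext x
      exact LinearMap.congr_fun h4 x
    have h4 := h.surj _ h2 h3
    apply h1
    rw [eq_top_iff]
    intro y _
    obtain ⟨x, hx⟩ := h4 y
    rw [← hx]
    exact (φ x).2
  have hns : ¬ Function.Surjective F := by
    intro hs
    obtain ⟨ψ, hψ, hψ0⟩ := h.exi
    obtain ⟨n, hn, hn0⟩ := Submodule.exists_mem_ne_zero_of_ne_bot h0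
    obtain ⟨u, hu⟩ := h.inj ψ hψ hψ0 n hn0
    obtain ⟨φ, hφ⟩ := hs (sm u (⟨n, hn⟩ : U))
    apply hu
    have h5 : sm u n = (U.subtype ∘ₗ φ) ∘ₗ f := by
      rw [LinearMap.comp_assoc, ← hF, hφ, sm_codRestrict]
    rw [h5]
    exact hψ _
  refine lt_of_le_of_ne (LinearMap.finrank_le_finrank_of_injective hinj) fun he => hns ?_
  have hk := LinearMap.injective_iff_surjective_of_finrank_eq_finrank (K := K)
    (V := Q →ₗ[A] U) (V₂ := P →ₗ[A] U) (f := F) he
  exact hk.1 hinj

/-- Proper nonzero quotients have positive weight. -/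
theorem MinQuot.pos [FiniteDimensional K P] [FiniteDimensional K Q] [Module.Projective A P]
    {f : P →ₗ[A] Q} {R : Submodule A Q} (h : MinQuot K f R) (U : Submodule A (Q ⧸ R)) (h0 : U ≠ ⊥)
    (h1 : U ≠ ⊤) :
    finrank K (P →ₗ[A] ((Q ⧸ R) ⧸ U)) < finrank K (Q →ₗ[A] ((Q ⧸ R) ⧸ U)) := by
  haveI : FiniteDimensional K (Q ⧸ R) :=
    Module.Finite.of_surjective (R.mkQ.restrictScalars K) (Submodule.mkQ_surjective R)
  haveI : FiniteDimensional K ((Q ⧸ R) ⧸ U) :=
    Module.Finite.of_surjective (U.mkQ.restrictScalars K) (Submodule.mkQ_surjective U)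
  haveI : FiniteDimensional K (Q →ₗ[A] ((Q ⧸ R) ⧸ U)) := finite_hom
  haveI : FiniteDimensional K (P →ₗ[A] ((Q ⧸ R) ⧸ U)) := finite_hom
  let F : (Q →ₗ[A] ((Q ⧸ R) ⧸ U)) →ₗ[K] (P →ₗ[A] ((Q ⧸ R) ⧸ U)) := homF K P Q _ f
  have hF : ∀ φ, F φ = φ ∘ₗ f := fun φ => rfl
  have hsurj : Function.Surjective F := by
    by_contra hns
    obtain ⟨w, hw⟩ : ∃ w, w ∉ LinearMap.range F := by
      by_contra hc
      push Not at hc
      exact hns hc
    obtain ⟨χ, hχ, hχ'⟩ := Submodule.exists_le_ker_of_notMem hw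
    let G : (P →ₗ[A] (Q ⧸ R)) →ₗ[K] (P →ₗ[A] ((Q ⧸ R) ⧸ U)) := compB K P (Q ⧸ R) _ U.mkQ
    have hG : ∀ k, G k = U.mkQ ∘ₗ k := fun k => rfl
    have h2 : ∀ φ : Q →ₗ[A] (Q ⧸ R), (χ ∘ₗ G) (φ ∘ₗ f) = 0 := by
      intro φ
      rw [LinearMap.comp_apply, hG, ← LinearMap.comp_assoc]
      exact hχ' ⟨U.mkQ ∘ₗ φ, rfl⟩
    have h3 : χ ∘ₗ G ≠ 0 := by
      intro h4
      obtain ⟨w', hw'⟩ := Module.projective_lifting_property U.mkQ w (Submodule.mkQ_surjective U)
      apply hχ
      rw [← hw', ← hG]
      exact LinearMap.congr_fun h4 w'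
    obtain ⟨n, hn, hn0⟩ := Submodule.exists_mem_ne_zero_of_ne_bot h0
    obtain ⟨u, hu⟩ := h.inj _ h2 h3 n hn0
    apply hu
    have h4 : U.mkQ n = 0 := by
      rw [Submodule.mkQ_apply, Submodule.Quotient.mk_eq_zero]
      exact hn
    rw [LinearMap.comp_apply, hG, sm_comp, h4]
    have : sm u (0 : (Q ⧸ R) ⧸ U) = 0 := by ext; simp
    rw [this, map_zero]
  have hni : ¬ Function.Injective F := by
    intro hi
    have h2 : F (U.mkQ ∘ₗ R.mkQ) = 0 := by
      rw [hF, LinearMap.comp_assoc]
      have h3 : R.mkQ ∘ₗ f = 0 := by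
        ext x
        rw [LinearMap.comp_apply, LinearMap.zero_apply, Submodule.mkQ_apply,
          Submodule.Quotient.mk_eq_zero]
        exact h.map_mem x
      rw [h3, LinearMap.comp_zero]
    have h4 := hi (h2.trans (map_zero F).symm)
    apply h1
    rw [eq_top_iff]
    intro y _
    obtain ⟨x, rfl⟩ := Submodule.mkQ_surjective R y
    have h5 := LinearMap.congr_fun h4 x
    rw [LinearMap.comp_apply, LinearMap.zero_apply, Submodule.mkQ_apply,
      Submodule.Quotient.mk_eq_zero] at h5
    exact h5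
  have hle : finrank K (P →ₗ[A] ((Q ⧸ R) ⧸ U)) ≤ finrank K (Q →ₗ[A] ((Q ⧸ R) ⧸ U)) :=
    LinearMap.finrank_le_finrank_of_surjective hsurj
  refine lt_of_le_of_ne hle fun he => hni ?_
  exact (LinearMap.injective_iff_surjective_of_finrank_eq_finrank (f := F) he.symm).2 hsurj

/-- Stability for the weight `dim N · θ - θ(N) · dim`. -/
theorem MinQuot.stable [FiniteDimensional K P] [FiniteDimensional K Q] [Module.Projective A P]
    [Module.Projective A Q] {f : P →ₗ[A] Q} {R : Submodule A Q} (h : MinQuot K f R)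
    (U : Submodule A (Q ⧸ R)) (h0 : U ≠ ⊥) (h1 : U ≠ ⊤) :
    (finrank K (Q ⧸ R) : ℤ) * wtQ K A P Q U - wtQ K A P Q (Q ⧸ R) * finrank K U < 0 := by
  haveI : FiniteDimensional K (Q ⧸ R) :=
    Module.Finite.of_surjective (R.mkQ.restrictScalars K) (Submodule.mkQ_surjective R)
  haveI : FiniteDimensional K U :=
    inferInstanceAs (FiniteDimensional K (U.restrictScalars K))
  have e1 := finrank_hom_add K (P := P) U
  have e2 := finrank_hom_add K (P := Q) U
  have e3 := finrank_quot_add K (A := A) U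
  have i1 := h.neg U h0 h1
  have i2 := h.pos U h0 h1
  haveI : Nontrivial U := Submodule.nontrivial_iff_ne_bot.2 h0
  haveI : Nontrivial ((Q ⧸ R) ⧸ U) := Submodule.Quotient.nontrivial_iff.2 h1
  haveI : FiniteDimensional K ((Q ⧸ R) ⧸ U) :=
    Module.Finite.of_surjective (U.mkQ.restrictScalars K) (Submodule.mkQ_surjective U)
  have p1 : 0 < finrank K U := Module.finrank_pos
  have p2 : 0 < finrank K ((Q ⧸ R) ⧸ U) := Module.finrank_pos
  have w1 : wtQ K A P Q (Q ⧸ R) = wtQ K A P Q U + wtQ K A P Q ((Q ⧸ R) ⧸ U) := by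
    simp only [wtQ]
    push_cast [← e1, ← e2]
    ring
  have w2 : wtQ K A P Q U < 0 := by
    simp only [wtQ]
    omega
  have w3 : 0 < wtQ K A P Q ((Q ⧸ R) ⧸ U) := by
    simp only [wtQ]
    omega
  have q : (finrank K (Q ⧸ R) : ℤ) = finrank K U + finrank K ((Q ⧸ R) ⧸ U) := by
    rw [← e3]; push_cast; ring
  rw [w1, q]
  have p1' : (0 : ℤ) < finrank K U := by exact_mod_cast p1
  have p2' : (0 : ℤ) < finrank K ((Q ⧸ R) ⧸ U) := by exact_mod_cast p2
  have m1 := mul_neg_of_pos_of_neg p2' w2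
  have m2 := mul_pos p1' w3
  nlinarith [m1, m2]

/-- If no map `P → Q` is rigid, there are a dimension `D` and a weight `t` such that the attached
quotients of dimension `D` and weight `t` do not fit in any finite list. -/
theorem exists_family [Infinite K] [FiniteDimensional K P] [FiniteDimensional K Q]
    [Module.Finite A P] [Module.Projective A P] [Module.Projective A Q]
    (hno : ∀ f : P →ₗ[A] Q, ¬ Rigid f) :
    ∃ (D : ℕ) (t : ℤ), ∀ (s : Set (Submodule A Q)), s.Finite →
      ∃ (f : P →ₗ[A] Q) (R : Submodule A Q), MinQuot K f R ∧ finrank K (Q ⧸ R) = D ∧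
        wtQ K A P Q (Q ⧸ R) = t ∧ ∀ R' ∈ s, ¬ Nonempty ((Q ⧸ R) ≃ₗ[A] (Q ⧸ R')) := by
  classical
  by_contra hc
  push Not at hc
  have hfin : ∀ R : Submodule A Q, FiniteDimensional K (Q ⧸ R) := fun R =>
    Module.Finite.of_surjective (R.mkQ.restrictScalars K) (Submodule.mkQ_surjective R)
  have hle : ∀ R : Submodule A Q, finrank K (Q ⧸ R) ≤ finrank K Q := fun R =>
    LinearMap.finrank_le_finrank_of_surjective (f := R.mkQ.restrictScalars K)
      (Submodule.mkQ_surjective R)
  choose S hS hS' using hc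
  have hhom : ∀ (X : Type _) [AddCommGroup X] [Module K X] [Module A X] [IsScalarTower K A X]
      [FiniteDimensional K X] (R : Submodule A Q),
      finrank K (X →ₗ[A] (Q ⧸ R)) ≤ finrank K X * finrank K Q := by
    intro X _ _ _ _ _ R
    haveI := hfin R
    haveI : FiniteDimensional K (X →ₗ[A] (Q ⧸ R)) := finite_hom
    have h1 := LinearMap.finrank_le_finrank_of_injective (R := K)
      (f := LinearMap.restrictScalarsₗ K A X (Q ⧸ R) K)
      (LinearMap.restrictScalars_injective K)
    have h2 : finrank K (X →ₗ[K] (Q ⧸ R)) = finrank K X * finrank K (Q ⧸ R) :=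
      Module.finrank_linearMap K K X (Q ⧸ R)
    rw [h2] at h1
    exact h1.trans (Nat.mul_le_mul_left _ (hle R))
  set B : ℤ := (((finrank K P + finrank K Q) * finrank K Q : ℕ) : ℤ) with hB
  -- the union of the finite sets
  let T : Set (Submodule A Q) := ⋃ D ∈ Finset.range (finrank K Q + 1),
    ⋃ t ∈ Finset.Icc (-B) B, S D t
  have hT : T.Finite := by
    refine Set.Finite.biUnion (Finset.finite_toSet _) fun D _ => ?_
    exact Set.Finite.biUnion (Finset.finite_toSet _) fun t _ => hS D t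
  obtain ⟨f, hf⟩ := core (K := K) (A := A) (P := P) (Q := Q) hT.toFinset
    (fun R' : Submodule A Q => Q ⧸ R')
  obtain ⟨R, hR⟩ := exists_minQuot (K := K) (hno f)
  have h2 : finrank K (Q ⧸ R) ∈ Finset.range (finrank K Q + 1) := by
    rw [Finset.mem_range]
    exact Nat.lt_succ_of_le (hle R)
  have h3 : wtQ K A P Q (Q ⧸ R) ∈ Finset.Icc (-B) B := by
    have g1 : finrank K (P →ₗ[A] (Q ⧸ R)) ≤ finrank K P * finrank K Q := by
      haveI := hfin R
      haveI : FiniteDimensional K (P →ₗ[A] (Q ⧸ R)) := finite_hom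
      have h1 := LinearMap.finrank_le_finrank_of_injective (R := K)
        (f := LinearMap.restrictScalarsₗ K A P (Q ⧸ R) K)
        (LinearMap.restrictScalars_injective K)
      have h2 : finrank K (P →ₗ[K] (Q ⧸ R)) = finrank K P * finrank K (Q ⧸ R) :=
        Module.finrank_linearMap K K P (Q ⧸ R)
      rw [h2] at h1
      exact h1.trans (Nat.mul_le_mul_left _ (hle R))
    have g2 := hhom Q R
    rw [Finset.mem_Icc]
    simp only [wtQ, hB]
    push_cast
    constructor
    · have : (finrank K (P →ₗ[A] (Q ⧸ R)) : ℤ) ≤ finrank K P * finrank K Q := by exact_mod_cast g1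
      nlinarith [Nat.zero_le (finrank K Q), Nat.zero_le (finrank K P)]
    · have : (finrank K (Q →ₗ[A] (Q ⧸ R)) : ℤ) ≤ finrank K Q * finrank K Q := by exact_mod_cast g2
      nlinarith [Nat.zero_le (finrank K Q), Nat.zero_le (finrank K P)]
  obtain ⟨R', hR', he⟩ := hS' _ _ f R hR rfl rfl
  refine hf R hR R' ?_ he
  rw [Set.Finite.mem_toFinset]
  simp only [T, Set.mem_iUnion]
  exact ⟨_, h2, _, h3, hR'⟩

end stable

end Pool.Agent.H13.MF
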