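import Pool.Agent.H13.MF.Lin

/-! The two square systems used in the proof that MF algebras have only rigid classes. -/

set_option linter.unusedSectionVars false

namespace Pool.Agent.H13.MF

open Module Pool.Agent.H51.T2

variable {K : Type*} [Field K] [Infinite K]
variable {U W : Type*} [AddCommGroup U] [Module K U] [AddCommGroup W] [Module K W]
variable [FiniteDimensional K U] [FiniteDimensional K W]
variable {X Y V : Type*} [AddCommGroup X] [Module K X] [AddCommGroup Y] [Module K Y]
  [AddCommGroup V] [Module K V] [FiniteDimensional K V]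

/-- The system for nonnegative defect. -/
def sysPos (k δ : ℕ) (F : X →ₗ[K] (U →ₗ[K] W)) (ev : Y →ₗ[K] (U →ₗ[K] V)) (x : X)
    (G : Fin δ → Fin k → Y) : (Fin k → U) →ₗ[K] ((Fin k → W) × (Fin δ → V)) :=
  LinearMap.prod (LinearMap.pi fun j => F x ∘ₗ LinearMap.proj j)
    (LinearMap.pi fun i => ∑ j, ev (G i j) ∘ₗ LinearMap.proj j)

/-- The system for nonpositive defect. -/
def sysNeg (k δ : ℕ) (F : X →ₗ[K] (U →ₗ[K] W)) (η : Y →ₗ[K] (V →ₗ[K] W)) (x : X)
    (G : Fin δ → Fin k → Y) : ((Fin k → U) × (Fin δ → V)) →ₗ[K] (Fin k → W) :=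
  LinearMap.pi fun j => F x ∘ₗ LinearMap.proj j ∘ₗ LinearMap.fst K _ _ +
    ∑ i, η (G i j) ∘ₗ LinearMap.proj i ∘ₗ LinearMap.snd K _ _

omit [Infinite K] [FiniteDimensional K U] [FiniteDimensional K W] [FiniteDimensional K V] in
theorem sysPos_apply (k δ : ℕ) (F : X →ₗ[K] (U →ₗ[K] W)) (ev : Y →ₗ[K] (U →ₗ[K] V)) (x : X)
    (G : Fin δ → Fin k → Y) (φ : Fin k → U) :
    sysPos k δ F ev x G φ = (fun j => F x (φ j), fun i => ∑ j, ev (G i j) (φ j)) := by
  ext i
  · simp [sysPos]
  · simp [sysPos, LinearMap.sum_apply]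

omit [Infinite K] [FiniteDimensional K U] [FiniteDimensional K W] [FiniteDimensional K V] in
theorem sysNeg_apply (k δ : ℕ) (F : X →ₗ[K] (U →ₗ[K] W)) (η : Y →ₗ[K] (V →ₗ[K] W)) (x : X)
    (G : Fin δ → Fin k → Y) (φ : (Fin k → U) × (Fin δ → V)) :
    sysNeg k δ F η x G φ = fun j => F x (φ.1 j) + ∑ i, η (G i j) (φ.2 i) := by
  ext i
  simp [sysNeg, LinearMap.sum_apply]

/-- The map induced from the kernel to the cokernel of `T₀`. -/
def kerCok (F : X →ₗ[K] (U →ₗ[K] W)) (f : X) :
    X →ₗ[K] (LinearMap.ker (F f) →ₗ[K] (W ⧸ LinearMap.range (F f))) :=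
  { toFun := fun g => (LinearMap.range (F f)).mkQ ∘ₗ F g ∘ₗ (LinearMap.ker (F f)).subtype
    map_add' := fun g g' => by ext; simp
    map_smul' := fun c g => by ext; simp }

theorem kerCok_full (F : X →ₗ[K] (U →ₗ[K] W)) (f : X)
    (ha : ∀ φ : U, F f φ = 0 → φ ≠ 0 → ∀ ψ : W →ₗ[K] K, (∀ u, ψ (F f u) = 0) → ψ ≠ 0 →
      ∃ g, ψ (F g φ) ≠ 0) :
    ∃ g, Function.Injective (kerCok F f g) ∨ Function.Surjective (kerCok F f g) := by
  refine exists_full (kerCok F f) fun φ hφ ψ hψ => ?_
  obtain ⟨g, hg⟩ := ha φ.1 φ.2 (fun h => hφ (Subtype.ext h)) (ψ ∘ₗ (LinearMap.range (F f)).mkQ)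
    (fun u => by
      have : (LinearMap.range (F f)).mkQ (F f u) = 0 := by
        rw [Submodule.mkQ_apply, Submodule.Quotient.mk_eq_zero]
        exact ⟨u, rfl⟩
      rw [LinearMap.comp_apply, this, map_zero])
    (fun h => hψ (by
      ext w
      exact LinearMap.congr_fun h w))
  exact ⟨g, hg⟩

theorem finrank_ker_cok (T : U →ₗ[K] W) :
    finrank K (LinearMap.ker T) + finrank K W =
      finrank K U + finrank K (W ⧸ LinearMap.range T) := by
  have h1 := LinearMap.finrank_range_add_finrank_ker T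
  have h2 := Submodule.finrank_quotient_add_finrank (LinearMap.range T)
  omega

theorem lemmaM_pos {k δ : ℕ} (hk : finrank K V = k) (hδ : finrank K U = finrank K W + δ)
    (F : X →ₗ[K] (U →ₗ[K] W)) (ev : Y →ₗ[K] (U →ₗ[K] V)) (f : X)
    (ha : ∀ φ : U, F f φ = 0 → φ ≠ 0 → ∀ ψ : W →ₗ[K] K, (∀ u, ψ (F f u) = 0) → ψ ≠ 0 →
      ∃ g, ψ (F g φ) ≠ 0)
    (hb : ∀ φ : U, F f φ = 0 → φ ≠ 0 → ∀ v : V, ∃ y : Y, ev y φ = v) :
    ∃ (x : X) (G : Fin δ → Fin k → Y), Function.Bijective (sysPos k δ F ev x G) := by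
  classical
  obtain ⟨g, hg⟩ := kerCok_full F f ha
  have hdim := finrank_ker_cok (F f)
  have hsurj : Function.Surjective (kerCok F f g) := by
    rcases hg with hg | hg
    · have h1 := LinearMap.finrank_le_finrank_of_injective hg
      exact (LinearMap.injective_iff_surjective_of_finrank_eq_finrank (by omega)).1 hg
    · exact hg
  set H' := LinearMap.ker (kerCok F f g) with hH'
  have hH'd : finrank K H' = δ := by
    have h1 : finrank K (LinearMap.range (kerCok F f g)) + finrank K H'
        = finrank K (LinearMap.ker (F f)) := LinearMap.finrank_range_add_finrank_ker _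
    rw [LinearMap.range_eq_top.2 hsurj, finrank_top] at h1
    omega
  -- the second family
  let ρ : (Fin δ → Fin k → Y) →ₗ[K] ((Fin k → H') →ₗ[K] (Fin δ → V)) :=
    { toFun := fun G => LinearMap.pi fun i => ∑ j, (ev (G i j) ∘ₗ (LinearMap.ker (F f)).subtype ∘ₗ
        H'.subtype) ∘ₗ LinearMap.proj j
      map_add' := fun G G' => by
        refine LinearMap.ext fun φ => funext fun i => ?_
        simp [LinearMap.sum_apply, Finset.sum_add_distrib]
      map_smul' := fun c G => by
        refine LinearMap.ext fun φ => funext fun i => ?_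
        simp [LinearMap.sum_apply, Finset.smul_sum] }
  have hρ : ∀ G φ i, ρ G φ i = ∑ j, ev (G i j) ((φ j).1.1) := by
    intro G φ i
    simp [ρ, LinearMap.sum_apply]
  obtain ⟨G, hG⟩ := exists_full ρ (by
    intro φ hφ ψ hψ
    obtain ⟨j₀, hj₀⟩ : ∃ j, φ j ≠ 0 := by
      by_contra hc
      push Not at hc
      exact hφ (funext hc)
    obtain ⟨v, hv⟩ : ∃ v, ψ v ≠ 0 := by
      by_contra hc
      push Not at hc
      exact hψ (LinearMap.ext hc)
    have hne : ((φ j₀).1.1 : U) ≠ 0 := fun h => hj₀ (Subtype.ext (Subtype.ext h))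
    choose y hy using fun i => hb (φ j₀).1.1 (φ j₀).1.2 hne (v i)
    refine ⟨fun i j => if j = j₀ then y i else 0, ?_⟩
    have h1 : ρ (fun i j => if j = j₀ then y i else 0) φ = v := by
      funext i
      rw [hρ, Finset.sum_eq_single j₀]
      · simp [hy]
      · intro j _ hj
        simp [hj]
      · intro h
        exact absurd (Finset.mem_univ _) h
    rwa [h1])
  have hGs : Function.Surjective (ρ G) := by
    rcases hG with hG | hG
    · refine (LinearMap.injective_iff_surjective_of_finrank_eq_finrank ?_).1 hG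
      rw [Module.finrank_pi_fintype, Module.finrank_pi_fintype]
      simp [hH'd, hk, mul_comm]
    · exact hG
  -- perturbation
  have hsys : ∀ t : K, sysPos k δ F ev f 0 + t • sysPos k δ F ev g G
      = sysPos k δ F ev (f + t • g) (t • G) := by
    intro t
    refine LinearMap.ext fun φ => ?_
    rw [LinearMap.add_apply, LinearMap.smul_apply, sysPos_apply, sysPos_apply, sysPos_apply]
    ext i
    · simp
    · simp [Finset.smul_sum]
  obtain ⟨t, ht⟩ := perturb (K := K) (T₀ := sysPos k δ F ev f 0) (T := sysPos k δ F ev g G) (by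
    rintro ⟨w, v⟩
    -- first solve modulo the range
    have h1 : ∀ j, ∃ φ : LinearMap.ker (F f), w j - F g φ.1 ∈ LinearMap.range (F f) := by
      intro j
      obtain ⟨φ, hφ⟩ := hsurj ((LinearMap.range (F f)).mkQ (w j))
      refine ⟨φ, ?_⟩
      rw [← Submodule.Quotient.mk_eq_zero, Submodule.Quotient.mk_sub, sub_eq_zero]
      exact hφ.symm
    choose φ₀ hφ₀ using h1
    obtain ⟨φ', hφ'⟩ := hGs (v - fun i => ∑ j, ev (G i j) (φ₀ j).1)
    refine ⟨fun j => (φ₀ j).1 + (φ' j).1.1, ?_, ?_⟩
    · rw [sysPos_apply]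
      ext i
      · have e1 : F f (φ₀ i).1 = 0 := (φ₀ i).2
        have e2 : F f (φ' i).1.1 = 0 := (φ' i).1.2
        simp [e1, e2]
      · simp
    · have h2 : ∀ j, w j - F g ((φ₀ j).1 + (φ' j).1.1) ∈ LinearMap.range (F f) := by
        intro j
        have e1 : F g (φ' j).1.1 ∈ LinearMap.range (F f) := by
          rw [← Submodule.Quotient.mk_eq_zero]
          exact (φ' j).2
        have e2 := Submodule.sub_mem _ (hφ₀ j) e1
        rw [map_add]
        rwa [sub_sub] at e2
      choose u hu using h2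
      refine ⟨u, ?_⟩
      rw [sysPos_apply, sysPos_apply]
      ext i
      · simp [hu]
      · have e3 := congrFun hφ' i
        rw [hρ] at e3
        simp only [Pi.sub_apply] at e3
        simp only [Pi.zero_apply, map_zero, LinearMap.zero_apply, Finset.sum_const_zero,
          Prod.snd_sub, Pi.sub_apply, map_add, Finset.sum_add_distrib]
        rw [e3]
        abel)
  refine ⟨f + t • g, t • G, ?_⟩
  rw [hsys] at ht
  refine ⟨(LinearMap.injective_iff_surjective_of_finrank_eq_finrank ?_).2 ht, ht⟩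
  rw [Module.finrank_prod, Module.finrank_pi_fintype, Module.finrank_pi_fintype,
    Module.finrank_pi_fintype]
  simp only [Finset.sum_const, Finset.card_univ, Fintype.card_fin, smul_eq_mul, hδ, hk]
  ring

theorem lemmaM_neg {k δ : ℕ} (hk : finrank K V = k) (hδ : finrank K W = finrank K U + δ)
    (F : X →ₗ[K] (U →ₗ[K] W)) (η : Y →ₗ[K] (V →ₗ[K] W)) (f : X)
    (ha : ∀ φ : U, F f φ = 0 → φ ≠ 0 → ∀ ψ : W →ₗ[K] K, (∀ u, ψ (F f u) = 0) → ψ ≠ 0 →
      ∃ g, ψ (F g φ) ≠ 0)
    (hb : ∀ ψ : W →ₗ[K] K, (∀ u, ψ (F f u) = 0) → ψ ≠ 0 → ∀ n : V, n ≠ 0 →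
      ∃ y : Y, ψ (η y n) ≠ 0) :
    ∃ (x : X) (G : Fin δ → Fin k → Y), Function.Bijective (sysNeg k δ F η x G) := by
  classical
  obtain ⟨g, hg⟩ := kerCok_full F f ha
  have hdim := finrank_ker_cok (F f)
  have hinj : Function.Injective (kerCok F f g) := by
    rcases hg with hg | hg
    · exact hg
    · have h1 := LinearMap.finrank_range_le (kerCok F f g)
      rw [LinearMap.range_eq_top.2 hg, finrank_top] at h1
      exact (LinearMap.injective_iff_surjective_of_finrank_eq_finrank (by omega)).2 hg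
  let C := (W ⧸ LinearMap.range (F f)) ⧸ LinearMap.range (kerCok F f g)
  have hCd : finrank K C = δ := by
    have h1 : finrank K C + finrank K (LinearMap.range (kerCok F f g))
        = finrank K (W ⧸ LinearMap.range (F f)) :=
      Submodule.finrank_quotient_add_finrank (LinearMap.range (kerCok F f g))
    rw [LinearMap.finrank_range_of_inj hinj] at h1
    omega
  let c : W →ₗ[K] C := (LinearMap.range (kerCok F f g)).mkQ ∘ₗ (LinearMap.range (F f)).mkQ
  have hcs : Function.Surjective c :=
    (Submodule.mkQ_surjective _).comp (Submodule.mkQ_surjective _)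
  have hc0 : ∀ w, c w = 0 → ∃ φ : LinearMap.ker (F f), w - F g φ.1 ∈ LinearMap.range (F f) := by
    intro w hw
    have h1 : (LinearMap.range (F f)).mkQ w ∈ LinearMap.range (kerCok F f g) := by
      rw [← Submodule.Quotient.mk_eq_zero]
      exact hw
    obtain ⟨φ, hφ⟩ := h1
    refine ⟨φ, ?_⟩
    rw [← Submodule.Quotient.mk_eq_zero, Submodule.Quotient.mk_sub, sub_eq_zero]
    exact hφ.symm
  have hcf : ∀ u, c (F f u) = 0 := by
    intro u
    have : (LinearMap.range (F f)).mkQ (F f u) = 0 := by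
      rw [Submodule.mkQ_apply, Submodule.Quotient.mk_eq_zero]
      exact ⟨u, rfl⟩
    simp only [c, LinearMap.comp_apply, this, map_zero]
  let ρ : (Fin δ → Fin k → Y) →ₗ[K] ((Fin δ → V) →ₗ[K] (Fin k → C)) :=
    { toFun := fun G => LinearMap.pi fun j => ∑ i, (c ∘ₗ η (G i j)) ∘ₗ LinearMap.proj i
      map_add' := fun G G' => by
        refine LinearMap.ext fun φ => funext fun i => ?_
        simp [LinearMap.sum_apply, Finset.sum_add_distrib]
      map_smul' := fun a G => by
        refine LinearMap.ext fun φ => funext fun i => ?_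
        simp [LinearMap.sum_apply, Finset.smul_sum] }
  have hρ : ∀ G n j, ρ G n j = c (∑ i, η (G i j) (n i)) := by
    intro G n j
    simp [ρ, LinearMap.sum_apply, map_sum]
  obtain ⟨G, hG⟩ := exists_full ρ (by
    intro n hn ψ hψ
    obtain ⟨i₀, hi₀⟩ : ∃ i, n i ≠ 0 := by
      by_contra hc
      push Not at hc
      exact hn (funext hc)
    obtain ⟨j₀, hj₀⟩ : ∃ j, ψ ∘ₗ (LinearMap.single K (fun _ : Fin k => C) j) ≠ 0 := by
      by_contra hc
      push Not at hc
      apply hψ
      refine LinearMap.pi_ext fun j x => ?_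
      exact LinearMap.congr_fun (hc j) x
    obtain ⟨y, hy⟩ := hb (ψ ∘ₗ (LinearMap.single K (fun _ : Fin k => C) j₀) ∘ₗ c)
      (fun u => by simp [hcf])
      (fun h => hj₀ (LinearMap.ext fun x => by
        obtain ⟨w, rfl⟩ := hcs x
        exact LinearMap.congr_fun h w)) (n i₀) hi₀
    refine ⟨fun i j => if i = i₀ ∧ j = j₀ then y else 0, ?_⟩
    have h1 : ρ (fun i j => if i = i₀ ∧ j = j₀ then y else 0) n
        = LinearMap.single K (fun _ : Fin k => C) j₀ (c (η y (n i₀))) := by
      funext j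
      rw [hρ]
      by_cases hj : j = j₀
      · subst hj
        rw [Finset.sum_eq_single i₀]
        · simp
        · intro i _ hi
          simp [hi]
        · intro h
          exact absurd (Finset.mem_univ _) h
      · rw [Finset.sum_eq_zero]
        · simp [hj]
        · intro i _
          simp [hj]
    rw [h1]
    exact hy)
  have hGs : Function.Surjective (ρ G) := by
    rcases hG with hG | hG
    · refine (LinearMap.injective_iff_surjective_of_finrank_eq_finrank ?_).1 hG
      rw [Module.finrank_pi_fintype, Module.finrank_pi_fintype]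
      simp [hCd, hk, mul_comm]
    · exact hG
  have hsys : ∀ t : K, sysNeg k δ F η f 0 + t • sysNeg k δ F η g G
      = sysNeg k δ F η (f + t • g) (t • G) := by
    intro t
    refine LinearMap.ext fun φ => ?_
    rw [LinearMap.add_apply, LinearMap.smul_apply, sysNeg_apply, sysNeg_apply, sysNeg_apply]
    funext i
    simp [Finset.smul_sum, add_assoc]
  obtain ⟨t, ht⟩ := perturb (K := K) (T₀ := sysNeg k δ F η f 0) (T := sysNeg k δ F η g G) (by
    intro w
    obtain ⟨n, hn⟩ := hGs (fun j => c (w j))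
    have h1 : ∀ j, c (w j - ∑ i, η (G i j) (n i)) = 0 := by
      intro j
      have := congrFun hn j
      rw [hρ] at this
      rw [map_sub, this, sub_self]
    choose φ hφ using fun j => hc0 _ (h1 j)
    refine ⟨(fun j => (φ j).1, n), ?_, ?_⟩
    · rw [sysNeg_apply]
      funext j
      have e1 : F f (φ j).1 = 0 := (φ j).2
      simp [e1]
    · choose u hu using hφ
      refine ⟨(u, 0), ?_⟩
      rw [sysNeg_apply, sysNeg_apply]
      funext j
      simp only [Pi.zero_apply, map_zero, Finset.sum_const_zero, add_zero, Pi.sub_apply]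
      rw [hu]
      abel)
  refine ⟨f + t • g, t • G, ?_⟩
  rw [hsys] at ht
  refine ⟨(LinearMap.injective_iff_surjective_of_finrank_eq_finrank ?_).2 ht, ht⟩
  rw [Module.finrank_prod, Module.finrank_pi_fintype, Module.finrank_pi_fintype,
    Module.finrank_pi_fintype]
  simp only [Finset.sum_const, Finset.card_univ, Fintype.card_fin, smul_eq_mul, hδ, hk]
  ring

end Pool.Agent.H13.MF
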