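import Pool.Agent.H13.MF.BBase

/-! Elementary properties of the vanishing conditions and of traces. -/

set_option linter.unusedSectionVars false

universe u v

namespace Pool.Agent.H13.MF

open Module Pool.Agent.H51.T2

variable {A : Type*} [Ring A]
variable {P Q : Type*} [AddCommGroup P] [Module A P] [AddCommGroup Q] [Module A Q]
variable {X Y M N : Type*} [AddCommGroup X] [Module A X] [AddCommGroup Y] [Module A Y]
  [AddCommGroup M] [Module A M] [AddCommGroup N] [Module A N]

theorem E0.quot [Module.Projective A P] {f : P →ₗ[A] Q} (h : E0 f X) (π : X →ₗ[A] Y)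
    (hπ : Function.Surjective π) : E0 f Y := by
  intro k
  obtain ⟨k', hk'⟩ := Module.projective_lifting_property π k hπ
  obtain ⟨φ, hφ⟩ := h k'
  exact ⟨π ∘ₗ φ, by rw [← hk', hφ, LinearMap.comp_assoc]⟩

theorem E0.pow {f : P →ₗ[A] Q} (h : E0 f N) (m : ℕ) : E0 f (Fin m → N) := by
  intro k
  choose φ hφ using fun i : Fin m => h (LinearMap.proj i ∘ₗ k)
  refine ⟨LinearMap.pi φ, ?_⟩
  ext x i
  have := LinearMap.congr_fun (hφ i) x
  simpa using this

/-- In a Noetherian module the trace is the image of one homomorphism. -/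
theorem exists_range_eq_trc (M : Type*) [AddCommGroup M] [Module A M] (X : Type*) [AddCommGroup X]
    [Module A X] [IsNoetherian A X] :
    ∃ (m : ℕ) (ψ : (Fin m → M) →ₗ[A] X), LinearMap.range ψ = trc A M X := by
  classical
  have hfg : (trc A M X).FG := IsNoetherian.noetherian _
  have hc := (Submodule.fg_iff_compact _).1 hfg
  obtain ⟨s, hsub, hs⟩ := (CompleteLattice.isCompactElement_iff_exists_le_sSup_of_le_sSup _ _).1
    hc (Set.range fun φ : M →ₗ[A] X => LinearMap.range φ) le_rfl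
  have hch : ∀ U : s, ∃ φ : M →ₗ[A] X, LinearMap.range φ = U := fun U => hsub U.2
  choose φ hφ using hch
  let e := s.equivFin
  refine ⟨s.card, ∑ i, (φ (e.symm i) ∘ₗ LinearMap.proj i), le_antisymm ?_ ?_⟩
  · rintro _ ⟨x, rfl⟩
    rw [LinearMap.sum_apply]
    refine Submodule.sum_mem _ fun i _ => ?_
    exact (le_iSup (fun φ : M →ₗ[A] X => LinearMap.range φ) (φ (e.symm i))) ⟨x i, rfl⟩
  · refine le_trans hs ?_
    refine Finset.sup_le fun U hU => ?_
    refine le_trans (hφ ⟨U, hU⟩).ge ?_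
    rintro _ ⟨y, rfl⟩
    refine ⟨Pi.single (e ⟨U, hU⟩) y, ?_⟩
    rw [LinearMap.sum_apply, Finset.sum_eq_single (e ⟨U, hU⟩)]
    · simp
    · intro b _ hb
      simp [Pi.single_eq_of_ne hb]
    · simp

theorem E0.trc [Module.Projective A P] [IsNoetherian A X] {f : P →ₗ[A] Q} (h : E0 f M) :
    E0 f (trc A M X) := by
  obtain ⟨m, ψ, hψ⟩ := exists_range_eq_trc (A := A) M X
  rw [← hψ]
  exact E0.quot (E0.pow h m) ψ.rangeRestrict ψ.surjective_rangeRestrict

/-- If `trc A M X = ⊤` and `E (f, M) = 0` then `E (f, X) = 0`. -/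
theorem E0.of_trc_eq_top [Module.Projective A P] [IsNoetherian A X] {f : P →ₗ[A] Q}
    (h : E0 f M) (ht : Pool.Agent.H13.MF.trc A M X = ⊤) : E0 f X := by
  obtain ⟨m, ψ, hψ⟩ := exists_range_eq_trc (A := A) M X
  exact E0.quot (E0.pow h m) ψ (LinearMap.range_eq_top.1 (hψ.trans ht))

/-- Homomorphisms from the cokernel of `f` lift along a surjection with kernel `E (f, -) = 0`. -/
theorem exists_lift [Module.Projective A Q] {f : P →ₗ[A] Q} (π : X →ₗ[A] Y)
    (hπ : Function.Surjective π) (hk : E0 f (LinearMap.ker π)) (φ : Coker f →ₗ[A] Y) :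
    ∃ φ' : Coker f →ₗ[A] X, π ∘ₗ φ' = φ := by
  obtain ⟨σ, hσ⟩ := Module.projective_lifting_property π
    (φ ∘ₗ (LinearMap.range f).mkQ) hπ
  have h0 : ∀ x, π (σ (f x)) = 0 := by
    intro x
    have := LinearMap.congr_fun hσ (f x)
    simp only [LinearMap.comp_apply] at this
    rw [this]
    have h1 : (LinearMap.range f).mkQ (f x) = 0 := by
      rw [Submodule.mkQ_apply, Submodule.Quotient.mk_eq_zero]
      exact ⟨x, rfl⟩
    rw [h1, map_zero]
  obtain ⟨τ, hτ⟩ := hk (LinearMap.codRestrict (LinearMap.ker π) (σ ∘ₗ f) (fun x => h0 x))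
  let σ' : Q →ₗ[A] X := σ - (LinearMap.ker π).subtype ∘ₗ τ
  have h2 : LinearMap.range f ≤ LinearMap.ker σ' := by
    rintro _ ⟨x, rfl⟩
    have := congrArg (Submodule.subtype _) (LinearMap.congr_fun hτ x)
    simp only [LinearMap.comp_apply, Submodule.subtype_apply, LinearMap.codRestrict_apply]
      at this
    simp [σ', this]
  refine ⟨(LinearMap.range f).liftQ σ' h2, ?_⟩
  ext x
  have h3 := LinearMap.congr_fun hσ x
  simp only [LinearMap.comp_apply] at h3
  simp [σ', h3]

/-- `Hom (f, N)` is injective if and only if there is no nonzero map from the cokernel of `f`. -/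
theorem H0_iff {f : P →ₗ[A] Q} : H0 f N ↔ ∀ φ : Coker f →ₗ[A] N, φ = 0 := by
  constructor
  · intro h φ
    have h1 := h (φ ∘ₗ (LinearMap.range f).mkQ) (by
      ext x
      have h1 : (LinearMap.range f).mkQ (f x) = 0 := by
        rw [Submodule.mkQ_apply, Submodule.Quotient.mk_eq_zero]
        exact ⟨x, rfl⟩
      simp only [LinearMap.comp_apply, h1, map_zero, LinearMap.zero_apply])
    ext x
    exact LinearMap.congr_fun h1 x
  · intro h φ hφ
    have h2 : LinearMap.range f ≤ LinearMap.ker φ := by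
      rintro _ ⟨x, rfl⟩
      exact LinearMap.congr_fun hφ x
    have h3 := h ((LinearMap.range f).liftQ φ h2)
    ext x
    have := LinearMap.congr_fun h3 ((LinearMap.range f).mkQ x)
    simpa using this

/-- The quotient by the trace of the cokernel. -/
theorem H0_quot_trc [Module.Projective A P] [Module.Projective A Q] [IsNoetherian A X]
    {f : P →ₗ[A] Q} (h : E0 f (Coker f)) : H0 f (X ⧸ Pool.Agent.H13.MF.trc A (Coker f) X) := by
  rw [H0_iff]
  intro φ
  have hk : E0 f (LinearMap.ker (Pool.Agent.H13.MF.trc A (Coker f) X).mkQ) := by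
    rw [Submodule.ker_mkQ]
    exact E0.trc h
  obtain ⟨φ', hφ'⟩ := exists_lift (Pool.Agent.H13.MF.trc A (Coker f) X).mkQ
    (Submodule.mkQ_surjective _) hk φ
  rw [← hφ']
  refine LinearMap.ext fun x => ?_
  rw [LinearMap.comp_apply, LinearMap.zero_apply, Submodule.mkQ_apply,
    Submodule.Quotient.mk_eq_zero]
  exact (le_iSup (fun φ : Coker f →ₗ[A] X => LinearMap.range φ) φ') ⟨x, rfl⟩

/-- `Hom (Coker g, Y) = 0` and `E (g, X) = 0` imply `E (g, Ker φ) = 0`, for a surjection `φ`. -/
theorem E0_ker [Module.Projective A Q] {g : P →ₗ[A] Q} (φ : X →ₗ[A] Y)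
    (hφ : Function.Surjective φ) (hX : E0 g X) (hY : H0 g Y) : E0 g (LinearMap.ker φ) := by
  have _ := hφ
  intro k
  obtain ⟨τ, hτ⟩ := hX ((LinearMap.ker φ).subtype ∘ₗ k)
  have h1 : φ ∘ₗ τ = 0 := by
    refine hY _ ?_
    rw [LinearMap.comp_assoc, ← hτ]
    ext x
    simp
  refine ⟨LinearMap.codRestrict (LinearMap.ker φ) τ (fun x => LinearMap.congr_fun h1 x), ?_⟩
  ext x
  have := LinearMap.congr_fun hτ x
  simpa using this

end Pool.Agent.H13.MF
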