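import Pool.Agent.H13.MF.VDefs
import Pool.Agent.H51.T2.Main

/-! Points of the module variety and modules; determinantal semi-invariants; the projective
modules given by idempotents. -/

set_option linter.unusedSectionVars false

universe u v w

namespace Pool.Agent.H13.MF

open Module Pool.Agent.H51.T2

variable {K : Type v} [Field K] {A : Type u} [Ring A] [Algebra K A] {n : ℕ} {e : Fin n → A}

/-- The module `N` is isomorphic to the representation `ρ`. -/
def Realizes {d : Fin n → ℕ} (ρ : ModVar K A e d) (N : Type*) [AddCommGroup N] [Module A N] :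
    Prop :=
  ∃ ε : N ≃+ (Idx d → K), ∀ (a : A) (x : N), ε (a • x) = (ρ.1 a).mulVec (ε x)

/-- The map `Hom (f, N)` is bijective. -/
def PreBij {P Q : Type*} [AddCommGroup P] [Module A P] [AddCommGroup Q] [Module A Q]
    (f : P →ₗ[A] Q) (N : Type*) [AddCommGroup N] [Module A N] : Prop :=
  Function.Bijective (fun φ : Q →ₗ[A] N => φ ∘ₗ f)

/-- The direct sum of the left ideals `A (e (j t))`. -/
abbrev StdMod (e : Fin n → A) {p : ℕ} (j : Fin p → Fin n) : Type u :=
  ∀ t : Fin p, (Submodule.span A {e (j t)} : Submodule A A)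

/-- `P` is isomorphic to a finite direct sum of the left ideals `A (e i)`. -/
def IsStd (e : Fin n → A) (P : Type*) [AddCommGroup P] [Module A P] : Prop :=
  ∃ (p : ℕ) (j : Fin p → Fin n), Nonempty (P ≃ₗ[A] StdMod e j)

/-- The block matrix `(ρ (x t s))`, with rows in block `j t` and columns in block `l s`. -/
def bigMat {d : Fin n → ℕ} {p q : ℕ} (j : Fin p → Fin n) (l : Fin q → Fin n)
    (x : Fin p → Fin q → A) (ρ : ModVar K A e d) :
    Matrix (Σ t : Fin p, Fin (d (j t))) (Σ s : Fin q, Fin (d (l s))) K :=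
  Matrix.of fun r c => ρ.1 (x r.1 c.1) ⟨j r.1, r.2⟩ ⟨l c.1, c.2⟩

/-- The weight of the determinantal semi-invariants. -/
def wt {p q : ℕ} (j : Fin p → Fin n) (l : Fin q → Fin n) (i : Fin n) : ℤ :=
  ((Finset.univ.filter fun t => j t = i).card : ℤ) - (Finset.univ.filter fun s => l s = i).card

end Pool.Agent.H13.MF
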