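import Pool.Agent.H13.MF.Core
import Pool.Agent.H13.MF.Sys
import Pool.Agent.H13.MF.VBase

/-! The square systems as maps `Hom (x, N)` for homomorphisms `x` between larger modules. -/

set_option linter.unusedSectionVars false

namespace Pool.Agent.H13.MF

open Module Pool.Agent.H51.T2

variable {K : Type*} [Field K] {A : Type*} [Ring A] [Algebra K A]
variable {P Q N : Type*}
variable [AddCommGroup P] [Module K P] [Module A P] [IsScalarTower K A P]
variable [AddCommGroup Q] [Module K Q] [Module A Q] [IsScalarTower K A Q]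
variable [AddCommGroup N] [Module K N] [Module A N] [IsScalarTower K A N]

/-- Evaluation. -/
def evB (K : Type*) [Field K] {A : Type*} [Ring A] [Algebra K A] (Q N : Type*)
    [AddCommGroup Q] [Module K Q] [Module A Q] [IsScalarTower K A Q]
    [AddCommGroup N] [Module K N] [Module A N] [IsScalarTower K A N] :
    Q →ₗ[K] ((Q →ₗ[A] N) →ₗ[K] N) where
  toFun y :=
    { toFun := fun φ => φ y
      map_add' := fun φ ψ => rfl
      map_smul' := fun c φ => rfl }
  map_add' y y' := by ext φ; exact map_add φ y y'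
  map_smul' c y := by ext φ; exact LinearMap.map_smul_of_tower φ c y

@[simp] theorem evB_apply (y : Q) (φ : Q →ₗ[A] N) : evB K Q N y φ = φ y := rfl

/-- The map `(u, n) ↦ (p ↦ u p • n)`. -/
def etaB (K : Type*) [Field K] {A : Type*} [Ring A] [Algebra K A] (P N : Type*)
    [AddCommGroup P] [Module K P] [Module A P] [IsScalarTower K A P]
    [AddCommGroup N] [Module K N] [Module A N] [IsScalarTower K A N] :
    (P →ₗ[A] A) →ₗ[K] (N →ₗ[K] (P →ₗ[A] N)) where
  toFun u :=
    { toFun := fun n => sm u n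
      map_add' := fun n n' => sm_add u n n'
      map_smul' := fun c n => by
        ext p
        simp only [sm_apply, LinearMap.smul_apply, RingHom.id_apply]
        rw [← algebraMap_smul A c n, ← algebraMap_smul A c (u p • n), smul_smul, smul_smul,
          Algebra.commutes] }
  map_add' u u' := by ext n p; simp [add_smul]
  map_smul' c u := by ext n p; simp

@[simp] theorem etaB_apply (u : P →ₗ[A] A) (n : N) : etaB K P N u n = sm u n := rfl

/-- The map `P ^ k × A ^ δ → Q ^ k`. -/
def posMap (k δ : ℕ) (x : P →ₗ[A] Q) (G : Fin δ → Fin k → Q) :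
    ((Fin k → P) × (Fin δ → A)) →ₗ[A] (Fin k → Q) :=
  LinearMap.pi fun j => x ∘ₗ LinearMap.proj j ∘ₗ LinearMap.fst A _ _ +
    ∑ i, LinearMap.toSpanSingleton A Q (G i j) ∘ₗ LinearMap.proj i ∘ₗ LinearMap.snd A _ _

theorem posMap_apply (k δ : ℕ) (x : P →ₗ[A] Q) (G : Fin δ → Fin k → Q)
    (z : (Fin k → P) × (Fin δ → A)) (j : Fin k) :
    posMap k δ x G z j = x (z.1 j) + ∑ i, z.2 i • G i j := by
  simp [posMap, LinearMap.sum_apply]

/-- The map `P ^ k → Q ^ k × A ^ δ`. -/
def negMap (k δ : ℕ) (x : P →ₗ[A] Q) (G : Fin δ → Fin k → (P →ₗ[A] A)) :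
    (Fin k → P) →ₗ[A] ((Fin k → Q) × (Fin δ → A)) :=
  LinearMap.prod (LinearMap.pi fun j => x ∘ₗ LinearMap.proj j)
    (LinearMap.pi fun i => ∑ j, G i j ∘ₗ LinearMap.proj j)

theorem negMap_apply (k δ : ℕ) (x : P →ₗ[A] Q) (G : Fin δ → Fin k → (P →ₗ[A] A))
    (z : Fin k → P) : negMap k δ x G z = (fun j => x (z j), fun i => ∑ j, G i j (z j)) := by
  ext i <;> simp [negMap, LinearMap.sum_apply]

/-- Homomorphisms from a power. -/
noncomputable def piHom (A : Type*) [Ring A] (Q N : Type*) [AddCommGroup Q] [Module A Q]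
    [AddCommGroup N] [Module A N] (k : ℕ) :
    (Fin k → (Q →ₗ[A] N)) ≃ ((Fin k → Q) →ₗ[A] N) :=
  (LinearMap.lsum A (fun _ : Fin k => Q) ℕ (M := N)).toEquiv

theorem piHom_apply (k : ℕ) (φ : Fin k → (Q →ₗ[A] N)) (z : Fin k → Q) :
    piHom A Q N k φ z = ∑ j, φ j (z j) := by
  simp [piHom, LinearMap.lsum_apply, LinearMap.sum_apply]

/-- Homomorphisms from a free module. -/
noncomputable def freeHom (A : Type*) [Ring A] (N : Type*) [AddCommGroup N] [Module A N] (δ : ℕ) :
    (Fin δ → N) ≃ ((Fin δ → A) →ₗ[A] N) :=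
  (Equiv.piCongrRight fun _ => (LinearMap.ringLmapEquivSelf A ℕ N).toEquiv.symm).trans
    (piHom A A N δ)

theorem freeHom_apply (δ : ℕ) (v : Fin δ → N) (z : Fin δ → A) :
    freeHom A N δ v z = ∑ i, z i • v i := by
  simp only [freeHom, Equiv.trans_apply, piHom, LinearEquiv.coe_toEquiv, LinearMap.lsum_apply,
    LinearMap.sum_apply, LinearMap.comp_apply, LinearMap.proj_apply]
  refine Finset.sum_congr rfl fun i _ => ?_
  simp [LinearMap.ringLmapEquivSelf]

/-- Homomorphisms from a product. -/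
noncomputable def prodHom (A : Type*) [Ring A] (X Y N : Type*) [AddCommGroup X] [Module A X]
    [AddCommGroup Y] [Module A Y] [AddCommGroup N] [Module A N] :
    ((X →ₗ[A] N) × (Y →ₗ[A] N)) ≃ ((X × Y) →ₗ[A] N) :=
  (LinearMap.coprodEquiv ℕ).toEquiv

theorem prodHom_apply {X Y : Type*} [AddCommGroup X] [Module A X]
    [AddCommGroup Y] [Module A Y] (φ : (X →ₗ[A] N) × (Y →ₗ[A] N)) (z : X × Y) :
    prodHom A X Y N φ z = φ.1 z.1 + φ.2 z.2 := by
  simp [prodHom]

theorem preBij_of_square {X Y : Type*} [AddCommGroup X] [Module A X] [AddCommGroup Y]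
    [Module A Y] {x : X →ₗ[A] Y} {U V : Type*} (s : U → V) (α : U ≃ (Y →ₗ[A] N))
    (β : V ≃ (X →ₗ[A] N)) (h : ∀ φ : U, (α φ) ∘ₗ x = β (s φ)) :
    PreBij x N ↔ Function.Bijective s := by
  have h1 : (fun φ : Y →ₗ[A] N => φ ∘ₗ x) = β ∘ s ∘ α.symm := by
    funext φ
    have := h (α.symm φ)
    rw [Equiv.apply_symm_apply] at this
    exact this
  rw [PreBij, h1]
  rw [Equiv.comp_bijective, Equiv.bijective_comp]

theorem preBij_posMap (k δ : ℕ) (x : P →ₗ[A] Q) (G : Fin δ → Fin k → Q) :
    PreBij (posMap k δ x G) N ↔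
      Function.Bijective (sysPos k δ (homF K P Q N) (evB K Q N) x G) := by
  refine preBij_of_square _ (piHom A Q N k)
    (((Equiv.prodCongr (piHom A P N k) (freeHom A N δ))).trans (prodHom A _ _ N)) fun φ => ?_
  refine LinearMap.ext fun z => ?_
  rw [LinearMap.comp_apply, piHom_apply, Equiv.trans_apply, prodHom_apply, sysPos_apply]
  simp only [Equiv.prodCongr_apply, Prod.map_fst, Prod.map_snd, piHom_apply, freeHom_apply,
    posMap_apply, map_add, Finset.sum_add_distrib, homF_apply, LinearMap.comp_apply, evB_apply, map_sum,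
    map_smul, Finset.smul_sum]
  rw [Finset.sum_comm]

theorem preBij_negMap (k δ : ℕ) (x : P →ₗ[A] Q) (G : Fin δ → Fin k → (P →ₗ[A] A)) :
    PreBij (negMap k δ x G) N ↔
      Function.Bijective (sysNeg k δ (homF K P Q N) (etaB K P N) x G) := by
  refine preBij_of_square _
    (((Equiv.prodCongr (piHom A Q N k) (freeHom A N δ))).trans (prodHom A _ _ N))
    (piHom A P N k) fun φ => ?_
  refine LinearMap.ext fun z => ?_
  rw [LinearMap.comp_apply, piHom_apply, Equiv.trans_apply, prodHom_apply, sysNeg_apply,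
    negMap_apply]
  simp only [Equiv.prodCongr_apply, Prod.map_fst, Prod.map_snd, piHom_apply, freeHom_apply,
    Finset.sum_add_distrib, homF_apply, LinearMap.comp_apply, etaB_apply, LinearMap.add_apply,
    LinearMap.sum_apply, sm_apply, Finset.sum_smul]
  rw [Finset.sum_comm]

end Pool.Agent.H13.MF
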