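import Mathlib

/-! Module varieties, semi-invariants and multiplicity-free algebras. -/

set_option linter.unusedSectionVars false

universe u v

namespace Pool.Agent.H13.MF

/-- The index set of the standard basis of `⊕ᵢ K ^ (d i)`. -/
abbrev Idx {n : ℕ} (d : Fin n → ℕ) : Type := Σ i : Fin n, Fin (d i)

section
variable (K : Type v) [Field K] (A : Type u) [Ring A] [Algebra K A] {n : ℕ} (e : Fin n → A)
  (d : Fin n → ℕ)

/-- The points of the module variety `mod (A, d)`: the representations of `A` on `⊕ᵢ K ^ (d i)`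
such that the idempotent `e i` acts as the projection onto `K ^ (d i)`. -/
def ModVar : Type (max u v) :=
  {ρ : A →ₐ[K] Matrix (Idx d) (Idx d) K //
    ∀ i, ρ (e i) = Matrix.diagonal fun s : Idx d => if s.1 = i then (1 : K) else 0}

/-- The regular functions on the module variety: the algebra of functions generated by the matrix
entries of the elements of `A`. -/
def regular : Subalgebra K (ModVar K A e d → K) :=
  Algebra.adjoin K {F | ∃ (a : A) (s t : Idx d), F = fun ρ => ρ.1 a s t}

/-- The Zariski topology on the module variety. -/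
instance zariski : TopologicalSpace (ModVar K A e d) :=
  TopologicalSpace.generateFrom {U | ∃ F ∈ regular K A e d, U = {ρ | F ρ ≠ 0}}

variable {K A e d}

/-- The block diagonal matrix of an element of `GL (d) = ∏ᵢ GL (d i)`. -/
def blk (g : ∀ i : Fin n, GL (Fin (d i)) K) : Matrix (Idx d) (Idx d) K :=
  Matrix.blockDiagonal' fun i => (g i : Matrix (Fin (d i)) (Fin (d i)) K)

theorem blk_mul_blk_inv (g : ∀ i : Fin n, GL (Fin (d i)) K) : blk g * blk (fun i => (g i)⁻¹) = 1 := by
  rw [blk, blk, ← Matrix.blockDiagonal'_mul, ← Matrix.blockDiagonal'_one]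
  congr 1
  funext i
  rw [← Units.val_mul, mul_inv_cancel]
  rfl

theorem blk_inv_mul_blk (g : ∀ i : Fin n, GL (Fin (d i)) K) : blk (fun i => (g i)⁻¹) * blk g = 1 := by
  rw [blk, blk, ← Matrix.blockDiagonal'_mul, ← Matrix.blockDiagonal'_one]
  congr 1
  funext i
  rw [← Units.val_mul, inv_mul_cancel]
  rfl

/-- The action of `GL (d)` on the module variety by conjugation. -/
def act (g : ∀ i : Fin n, GL (Fin (d i)) K) (ρ : ModVar K A e d) : ModVar K A e d :=
  ⟨{ toFun := fun a => blk g * ρ.1 a * blk (fun i => (g i)⁻¹)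
     map_one' := by rw [map_one, mul_one, blk_mul_blk_inv]
     map_mul' := fun a b => by
       rw [map_mul]
       have : blk g * (ρ.1 a * ρ.1 b) * blk (fun i => (g i)⁻¹) =
         blk g * ρ.1 a * (blk (fun i => (g i)⁻¹) * blk g) * ρ.1 b * blk (fun i => (g i)⁻¹) := by
         rw [blk_inv_mul_blk, mul_one, mul_assoc (blk g) (ρ.1 a) (ρ.1 b)]
       rw [this]
       simp only [mul_assoc]
     map_zero' := by rw [map_zero, mul_zero, zero_mul]
     map_add' := fun a b => by rw [map_add, mul_add, add_mul]
     commutes' := fun r => by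
       rw [AlgHom.commutes, Algebra.algebraMap_eq_smul_one, mul_smul_comm, mul_one,
         smul_mul_assoc, blk_mul_blk_inv] },
   fun i => by
     show blk g * ρ.1 (e i) * blk (fun i => (g i)⁻¹) = _
     rw [ρ.2 i]
     have hc : blk g * Matrix.diagonal (fun s : Idx d => if s.1 = i then (1 : K) else 0) =
         Matrix.diagonal (fun s : Idx d => if s.1 = i then (1 : K) else 0) * blk g := by
       ext s t
       rw [Matrix.mul_diagonal, Matrix.diagonal_mul, blk]
       obtain ⟨s1, s2⟩ := s
       obtain ⟨t1, t2⟩ := t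
       by_cases h : s1 = t1
       · subst h
         exact mul_comm _ _
       · rw [Matrix.blockDiagonal'_apply_ne _ _ _ h, zero_mul, mul_zero]
     rw [hc, mul_assoc, blk_mul_blk_inv, mul_one]⟩

/-- `F` is a regular function whose restriction to `C` is a semi-invariant of weight `θ`. -/
def SemiInv (C : Set (ModVar K A e d)) (θ : Fin n → ℤ) (F : ModVar K A e d → K) : Prop :=
  F ∈ regular K A e d ∧ ∀ (g : ∀ i : Fin n, GL (Fin (d i)) K), ∀ ρ ∈ C,
    F (act g ρ) = (∏ i, (Matrix.det (g i : Matrix (Fin (d i)) (Fin (d i)) K)) ^ (θ i)) * F ρ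

variable (K A)

/-- `A` is multiplicity-free: on every irreducible component `C` of every module variety
`mod (A, d)` and for every weight `θ`, any two semi-invariants of weight `θ` on `C` are linearly
dependent, that is `dim SI (C)_θ ≤ 1`. -/
def IsMF (e : Fin n → A) : Prop :=
  ∀ (d : Fin n → ℕ), ∀ C ∈ irreducibleComponents (ModVar K A e d), ∀ (θ : Fin n → ℤ)
    (F G : ModVar K A e d → K), SemiInv C θ F → SemiInv C θ G →
      ∃ a b : K, (a ≠ 0 ∨ b ≠ 0) ∧ ∀ ρ ∈ C, a * F ρ + b * G ρ = 0

end

end Pool.Agent.H13.MF
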